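import Pool.Agent.Q255.L2.StmV

/-!
# Project L2 (helper255), job CLG: square products and linear equations
-/

set_option autoImplicit false

namespace Pool.Agent.Q150.L2

open Finset
open Pool.Agent.Q255.L2
open scoped Classical

section

variable {ι : Type} [Fintype ι]

/-- counting functions determined by their values on `T` -/
theorem count_det (Y : Finset (ι → ℕ)) (N : ℕ) (V : Finset ℕ) (B T : Finset ι)
    (h1 : ∀ n ∈ Y, ∀ i, n i ∈ Icc 1 N) (h2 : ∀ n ∈ Y, ∀ i ∉ B, n i ∈ V)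
    (h3 : ∀ n ∈ Y, ∀ n' ∈ Y, (∀ i ∈ T, n i = n' i) → n = n') :
    Y.card ≤ N ^ (T ∩ B).card * V.card ^ (T \ B).card := by
  have hc : (Fintype.piFinset fun i => if i ∈ T then (if i ∈ B then Icc 1 N else V) else {0}).card =
      N ^ (T ∩ B).card * V.card ^ (T \ B).card := by
    rw [Fintype.card_piFinset]
    have e : ∀ i, (if i ∈ T then (if i ∈ B then Icc 1 N else V) else {0}).card =
        if i ∈ T then (if i ∈ B then N else V.card) else 1 := by
      intro i
      split_ifs <;> simp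
    rw [Finset.prod_congr rfl fun i _ => e i, Finset.prod_ite_mem, univ_inter, Finset.prod_ite,
      Finset.prod_const, Finset.prod_const, Finset.filter_mem_eq_inter, Finset.filter_notMem_eq_sdiff]
  rw [← hc]
  apply Finset.card_le_card_of_injOn (fun n => fun i => if i ∈ T then n i else 0)
  · intro n hn
    rw [mem_coe] at hn
    rw [mem_coe, Fintype.mem_piFinset]
    intro i
    by_cases hT : i ∈ T
    · by_cases hB : i ∈ B
      · simp only [hT, hB, if_true]
        exact h1 n hn i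
      · simp only [hT, hB, if_true, if_false]
        exact h2 n hn i hB
    · simp [hT]
  · intro n hn n' hn' h
    refine h3 n hn n' hn' fun i hi => ?_
    have := congrFun h i
    simpa [hi] using this

omit [Fintype ι] in
theorem exists_rep (B : Finset ι) (f : ι → ι) (hf : ∀ i ∈ B, f i ∈ B) : ∃ rep : ι → ι,
    (∀ i, rep (rep i) = rep i) ∧ (∀ i ∈ B, rep i ∈ B) ∧ (∀ i ∉ B, rep i = i) ∧
    (∀ i ∈ B, rep (f i) = rep i) ∧
    ∀ n : ι → ℕ, (∀ i ∈ B, n (f i) = n i) → ∀ i, n (rep i) = n i := by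
  set r : ι → ι → Prop := fun i j => i ∈ B ∧ j = f i with hr
  set st : Setoid ι := Relation.EqvGen.setoid r with hst
  have hout : ∀ i, st (Quotient.mk st i).out i := fun i => Quotient.mk_out i
  have hcls : ∀ i j, st i j → (i = j ∨ (i ∈ B ∧ j ∈ B)) := by
    intro i j h
    have h' : Relation.EqvGen r i j := h
    clear h
    induction h' with
    | rel x y h =>
      obtain ⟨h1, rfl⟩ := h
      exact Or.inr ⟨h1, hf x h1⟩
    | refl x => exact Or.inl rfl
    | symm x y _ ih =>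
      rcases ih with h | h
      · exact Or.inl h.symm
      · exact Or.inr ⟨h.2, h.1⟩
    | trans x y z _ _ ih1 ih2 =>
      rcases ih1 with h | h
      · subst h
        exact ih2
      · rcases ih2 with h' | h'
        · subst h'
          exact Or.inr h
        · exact Or.inr ⟨h.1, h'.2⟩
  refine ⟨fun i => (Quotient.mk st i).out, fun i => ?_, fun i hi => ?_, fun i hi => ?_, fun i hi => ?_,
    fun n hn i => ?_⟩
  · change (Quotient.mk st (Quotient.mk st i).out).out = _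
    rw [Quotient.out_eq]
  · rcases hcls _ _ (hout i) with h | h
    · change (Quotient.mk st i).out ∈ B
      rw [h]
      exact hi
    · exact h.1
  · rcases hcls _ _ (hout i) with h | h
    · exact h
    · exact absurd h.2 hi
  · change (Quotient.mk st (f i)).out = (Quotient.mk st i).out
    have h1 : (Quotient.mk st (f i)) = (Quotient.mk st i) := by
      apply Quotient.sound
      exact Relation.EqvGen.symm _ _ (Relation.EqvGen.rel _ _ ⟨hi, rfl⟩)
    rw [h1]
  · have h1 : ∀ i j, st i j → n i = n j := by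
      intro i j h
      have h' : Relation.EqvGen r i j := h
      clear h
      induction h' with
      | rel x y h =>
        obtain ⟨h1, rfl⟩ := h
        exact (hn x h1).symm
      | refl x => rfl
      | symm x y _ ih => exact ih.symm
      | trans x y z _ _ ih1 ih2 => exact ih1.trans ih2
    exact h1 _ _ (hout i)

/-- case C -/
theorem caseC (e : ι → ℤ) (he : ∀ i, e i = 1 ∨ e i = -1) (sd : ι → Bool) (B : Finset ι) (f : ι → ι)
    (hf : ∀ i ∈ B, f i ≠ i ∧ f i ∈ B ∧ sd (f i) = sd i ∧ e (f i) = - e i) (N : ℕ) (hN : 1 ≤ N)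
    (V : Finset ℕ) (d : ℝ) (hd : 0 ≤ d) (hV : (V.card : ℝ) ≤ (N : ℝ) ^ (1 / 2 + d)) (Y : Finset (ι → ℕ))
    (h1 : ∀ n ∈ Y, ∀ i, n i ∈ Icc 1 N) (h2 : ∀ n ∈ Y, ∀ i ∉ B, n i ∈ V)
    (h3 : ∀ n ∈ Y, ∀ i ∈ B, n (f i) = n i)
    (h4 : ∀ n ∈ Y, ∀ b, ∑ i ∈ univ.filter (fun i => sd i = b), e i * (n i : ℤ) = 0)
    (h5 : ∀ n ∈ Y, ¬ ∀ (b : Bool) (v : ℕ), ∑ i ∈ univ.filter (fun i => sd i = b ∧ n i = v), e i = 0) :
    (Y.card : ℝ) ≤ (N : ℝ) ^ ((Fintype.card ι : ℝ) / 2 - 1 / 2 + Fintype.card ι * d) := by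
  have hN1 : (1 : ℝ) ≤ N := by exact_mod_cast hN
  have hN0 : (0 : ℝ) < N := by linarith
  obtain ⟨rep, q1, q2, q3, q4, q5⟩ := exists_rep B f fun i hi => (hf i hi).2.1
  set TB : Finset ι := B.filter fun t => rep t = t with hTB
  have hmaps : ∀ i ∈ B, rep i ∈ TB := fun i hi => mem_filter.2 ⟨q2 i hi, q1 i⟩
  have hsum : B.card = ∑ t ∈ TB, (B.filter fun i => rep i = t).card :=
    Finset.card_eq_sum_card_fiberwise hmaps
  have hpair : ∀ t ∈ TB, ({t, f t} : Finset ι) ⊆ B.filter fun i => rep i = t := by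
    intro t ht
    obtain ⟨ht1, ht2⟩ := mem_filter.1 ht
    intro x hx
    rw [mem_insert, mem_singleton] at hx
    rw [mem_filter]
    rcases hx with rfl | rfl
    · exact ⟨ht1, ht2⟩
    · exact ⟨(hf t ht1).2.1, by rw [q4 t ht1, ht2]⟩
  have hpc : ∀ t ∈ TB, ({t, f t} : Finset ι).card = 2 := by
    intro t ht
    exact Finset.card_pair (hf t (mem_filter.1 ht).1).1.symm
  have h2c : ∀ t ∈ TB, 2 ≤ (B.filter fun i => rep i = t).card := by
    intro t ht
    rw [← hpc t ht]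
    exact Finset.card_le_card (hpair t ht)
  have h2T : 2 * TB.card ≤ B.card := by
    rw [hsum, mul_comm, ← smul_eq_mul]
    exact Finset.card_nsmul_le_sum _ _ _ h2c
  have hTBB : TB ⊆ B := Finset.filter_subset _ _
  have hBk : B.card ≤ Fintype.card ι := Finset.card_le_univ B
  by_cases hB : B = univ
  · -- `B` is everything
    by_cases hlt : 2 * TB.card = B.card
    · -- balanced
      have hemp : Y = ∅ := by
        rw [Finset.eq_empty_iff_forall_notMem]
        intro n hn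
        apply h5 n hn
        intro b v
        have hfib : ∀ t ∈ TB, (B.filter fun i => rep i = t) = {t, f t} := by
          intro t ht
          symm
          apply Finset.eq_of_subset_of_card_le (hpair t ht)
          rw [hpc t ht]
          by_contra hcon
          push Not at hcon
          have h6 : 2 * TB.card < B.card := by
            rw [hsum]
            have : 2 * TB.card = ∑ _t ∈ TB, 2 := by
              rw [Finset.sum_const, smul_eq_mul, mul_comm]
            rw [this]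
            exact Finset.sum_lt_sum h2c ⟨t, ht, hcon⟩
          omega
        rw [Finset.sum_filter, ← hB, ← Finset.sum_fiberwise_of_maps_to hmaps]
        refine Finset.sum_eq_zero fun t ht => ?_
        have ht1 := (mem_filter.1 ht).1
        rw [hfib t ht, Finset.sum_pair (hf t ht1).1.symm, (hf t ht1).2.2.1, h3 n hn t ht1,
          (hf t ht1).2.2.2]
        split_ifs <;> ring
      rw [hemp, Finset.card_empty, Nat.cast_zero]
      positivity
    · have hc := count_det Y N V B TB h1 h2 (fun n hn n' hn' h => by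
        funext i
        have hi : i ∈ B := by rw [hB]; exact mem_univ i
        rw [← q5 n (h3 n hn) i, ← q5 n' (h3 n' hn') i]
        exact h _ (hmaps i hi))
      rw [Finset.inter_eq_left.2 hTBB, Finset.sdiff_eq_empty_iff_subset.2 hTBB, Finset.card_empty,
        pow_zero, mul_one] at hc
      have hk : B.card = Fintype.card ι := by rw [hB, Finset.card_univ]
      have h6 : (TB.card : ℝ) ≤ (Fintype.card ι : ℝ) / 2 - 1 / 2 + Fintype.card ι * d := by
        have h7 : 2 * TB.card + 1 ≤ Fintype.card ι := by omega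
        have h8 : (2 * (TB.card : ℝ) + 1) ≤ Fintype.card ι := by exact_mod_cast h7
        have h9 : 0 ≤ (Fintype.card ι : ℝ) * d := by positivity
        linarith
      calc (Y.card : ℝ) ≤ (N : ℝ) ^ TB.card := by exact_mod_cast hc
        _ = (N : ℝ) ^ (TB.card : ℝ) := (Real.rpow_natCast _ _).symm
        _ ≤ _ := Real.rpow_le_rpow_of_exponent_le hN1 h6
  · -- there is an index outside
    obtain ⟨i0, hi0⟩ : ∃ i0, i0 ∉ B := by
      by_contra hcon
      push Not at hcon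
      exact hB (Finset.eq_univ_iff_forall.2 hcon)
    have hc := count_det Y N V B (TB ∪ Bᶜ.erase i0) h1 h2 (fun n hn n' hn' h => by
      have hBe : ∀ i ∈ B, n i = n' i := by
        intro i hi
        rw [← q5 n (h3 n hn) i, ← q5 n' (h3 n' hn') i]
        exact h _ (mem_union_left _ (hmaps i hi))
      have hne : ∀ i, i ≠ i0 → n i = n' i := by
        intro i hi
        by_cases hiB : i ∈ B
        · exact hBe i hiB
        · exact h i (mem_union_right _ (mem_erase.2 ⟨hi, mem_compl.2 hiB⟩))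
      have e1 := h4 n hn (sd i0)
      have e2 := h4 n' hn' (sd i0)
      have hmem : i0 ∈ univ.filter (fun i => sd i = sd i0) := mem_filter.2 ⟨mem_univ _, rfl⟩
      rw [← Finset.add_sum_erase _ _ hmem] at e1 e2
      have e3 : ∑ i ∈ (univ.filter (fun i => sd i = sd i0)).erase i0, e i * (n i : ℤ) =
          ∑ i ∈ (univ.filter (fun i => sd i = sd i0)).erase i0, e i * (n' i : ℤ) := by
        refine Finset.sum_congr rfl fun i hi => ?_
        rw [hne i (Finset.ne_of_mem_erase hi)]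
      rw [e3] at e1
      have e4 : e i0 * (n i0 : ℤ) = e i0 * (n' i0 : ℤ) := by linarith
      funext i
      by_cases hi : i = i0
      · subst hi
        rcases he i with h6 | h6
        · rw [h6, one_mul, one_mul] at e4
          exact_mod_cast e4
        · rw [h6] at e4
          have : (n i : ℤ) = n' i := by linarith
          exact_mod_cast this
      · exact hne i hi)
    have e1 : (TB ∪ Bᶜ.erase i0) ∩ B = TB := by
      ext x
      simp only [mem_inter, mem_union, mem_erase, mem_compl]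
      constructor
      · rintro ⟨h | h, hx⟩
        · exact h
        · exact absurd hx h.2
      · exact fun h => ⟨Or.inl h, hTBB h⟩
    have e2 : (TB ∪ Bᶜ.erase i0) \ B = Bᶜ.erase i0 := by
      ext x
      simp only [mem_sdiff, mem_union, mem_erase, mem_compl]
      constructor
      · rintro ⟨h | h, hx⟩
        · exact absurd (hTBB h) hx
        · exact h
      · exact fun h => ⟨Or.inr h, h.2⟩
    have e3 : (Bᶜ.erase i0).card = Fintype.card ι - B.card - 1 := by
      rw [Finset.card_erase_of_mem (mem_compl.2 hi0), Finset.card_compl]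
    have hBlt : B.card < Fintype.card ι := by
      have := Finset.card_lt_univ_of_notMem hi0
      exact this
    rw [e1, e2, e3] at hc
    obtain ⟨m, hm⟩ : ∃ m : ℕ, m = Fintype.card ι - B.card - 1 := ⟨_, rfl⟩
    rw [← hm] at hc
    have hmk : (m : ℝ) = Fintype.card ι - B.card - 1 := by
      have : m + B.card + 1 = Fintype.card ι := by omega
      have : ((m + B.card + 1 : ℕ) : ℝ) = Fintype.card ι := by rw [this]
      push_cast at this
      linarith
    have h2T' : 2 * (TB.card : ℝ) ≤ B.card := by exact_mod_cast h2T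
    have hm0 : (0 : ℝ) ≤ m := by positivity
    have hb0 : (0 : ℝ) ≤ B.card := by positivity
    calc (Y.card : ℝ) ≤ (N : ℝ) ^ TB.card * (V.card : ℝ) ^ m := by exact_mod_cast hc
      _ ≤ (N : ℝ) ^ TB.card * ((N : ℝ) ^ (1 / 2 + d)) ^ m :=
          mul_le_mul_of_nonneg_left (pow_le_pow_left₀ (by positivity) hV m) (by positivity)
      _ = (N : ℝ) ^ ((TB.card : ℝ) + (1 / 2 + d) * m) := by
          rw [← Real.rpow_natCast (((N : ℝ) ^ (1 / 2 + d))) m, ← Real.rpow_mul hN0.le,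
            ← Real.rpow_natCast (N : ℝ) TB.card, ← Real.rpow_add hN0]
      _ ≤ _ := by
          apply Real.rpow_le_rpow_of_exponent_le hN1
          have hdm : d * m ≤ Fintype.card ι * d := by
            rw [mul_comm]
            apply mul_le_mul_of_nonneg_right _ hd
            rw [hmk]
            linarith
          have : (TB.card : ℝ) + (1 / 2 + d) * m = TB.card + m / 2 + d * m := by ring
          rw [this]
          rw [hmk] at hdm ⊢
          linarith

theorem prod_par (n r : ι → ℕ) (u : Finset ι → ℕ)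
    (h : ∀ i, n i = r i ^ 2 * ∏ S ∈ univ.filter (fun S : Finset ι => i ∈ S), u S) :
    ∏ i, n i = (∏ i, r i) ^ 2 * ∏ S, u S ^ S.card := by
  rw [Finset.prod_congr rfl fun i _ => h i, Finset.prod_mul_distrib, Finset.prod_pow]
  congr 1
  simp_rw [Finset.prod_filter]
  rw [Finset.prod_comm]
  refine Finset.prod_congr rfl fun S _ => ?_
  rw [Finset.prod_ite_mem, univ_inter, Finset.prod_const]

theorem prod_bd (n r : ι → ℕ) (u w : Finset ι → ℕ) (hu : ∀ S, 1 ≤ u S)
    (h : ∀ i, n i = r i ^ 2 * ∏ S ∈ univ.filter (fun S : Finset ι => i ∈ S), u S)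
    (hw : ∀ S, u S ≠ 1 → 2 * w S ≤ S.card) :
    ((∏ i, r i) * ∏ S, u S ^ w S) ^ 2 ≤ ∏ i, n i := by
  rw [prod_par n r u h, mul_pow]
  apply Nat.mul_le_mul_left
  rw [← Finset.prod_pow]
  apply Finset.prod_le_prod (fun _ _ => Nat.zero_le _)
  intro S _
  by_cases h1 : u S = 1
  · simp [h1]
  · rw [← pow_mul]
    exact Nat.pow_le_pow_right (hu S) (by have := hw S h1; omega)

theorem tup_bd (k N P Q : ℕ) (hN : 1 ≤ N) (δ : ℝ) (hP : P ^ 2 ≤ N ^ k) (h : (N : ℝ) ^ δ * Q ≤ P) :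
    (Q : ℝ) ≤ (N : ℝ) ^ ((k : ℝ) / 2 - δ) := by
  have hN0 : (0 : ℝ) < N := by exact_mod_cast hN
  have h1 : (P : ℝ) ≤ (N : ℝ) ^ ((k : ℝ) / 2) := by
    have h2 : (P : ℝ) ^ 2 ≤ ((N : ℝ) ^ ((k : ℝ) / 2)) ^ 2 := by
      rw [← Real.rpow_natCast ((N : ℝ) ^ ((k : ℝ) / 2)) 2, ← Real.rpow_mul hN0.le]
      have : (k : ℝ) / 2 * (2 : ℕ) = k := by push_cast; ring
      rw [this, Real.rpow_natCast]
      exact_mod_cast hP
    exact (pow_le_pow_iff_left₀ (by positivity) (by positivity) (by norm_num)).1 h2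
  rw [Real.rpow_sub hN0, le_div_iff₀ (Real.rpow_pos_of_pos hN0 _), mul_comm]
  exact h.trans h1

theorem count_tup (C η : ℝ) (hC0 : 0 ≤ C)
    (hC : ∀ (Y : ℝ) (B : ℕ), 1 ≤ Y →
      (((Fintype.piFinset fun _ : ι ⊕ Finset ι => Icc 1 B).filter
        fun a => ((∏ j, a j : ℕ) : ℝ) ≤ Y).card : ℝ) ≤ C * Y ^ (1 + η))
    (N : ℕ) (hN : 1 ≤ N) (x y : ℝ) (hx : 0 ≤ x) (hxy : x * (1 + η) ≤ y)
    (Y : Finset (ι → ℕ)) (a : (ι → ℕ) → ι ⊕ Finset ι → ℕ) (ha1 : ∀ n ∈ Y, ∀ j, a n j ∈ Icc 1 N)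
    (ha2 : ∀ n ∈ Y, ((∏ j, a n j : ℕ) : ℝ) ≤ (N : ℝ) ^ x)
    (ha3 : ∀ n ∈ Y, ∀ n' ∈ Y, a n = a n' → n = n') : (Y.card : ℝ) ≤ C * (N : ℝ) ^ y := by
  have hN1 : (1 : ℝ) ≤ N := by exact_mod_cast hN
  have hN0 : (0 : ℝ) < N := by linarith
  have h1 := hC ((N : ℝ) ^ x) N (Real.one_le_rpow hN1 hx)
  have h2 : Y.card ≤ ((Fintype.piFinset fun _ : ι ⊕ Finset ι => Icc 1 N).filter
        fun a => ((∏ j, a j : ℕ) : ℝ) ≤ (N : ℝ) ^ x).card := by
    apply Finset.card_le_card_of_injOn a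
    · intro n hn
      rw [mem_coe] at hn
      rw [mem_coe, mem_filter, Fintype.mem_piFinset]
      exact ⟨ha1 n hn, ha2 n hn⟩
    · intro n hn n' hn' h
      exact ha3 n hn n' hn' h
  calc (Y.card : ℝ) ≤ _ := by exact_mod_cast h2
    _ ≤ _ := h1
    _ ≤ _ := by
      apply mul_le_mul_of_nonneg_left _ hC0
      rw [← Real.rpow_mul hN0.le]
      exact Real.rpow_le_rpow_of_exponent_le hN1 hxy

/-- the data of the parametrization -/
def Par (n r : ι → ℕ) (u : Finset ι → ℕ) : Prop :=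
  (∀ i, 1 ≤ r i) ∧ (∀ S, 1 ≤ u S) ∧
    (∀ i, n i = r i ^ 2 * ∏ S ∈ univ.filter (fun S : Finset ι => i ∈ S), u S) ∧
    ∀ S, u S ≠ 1 → S.Nonempty ∧ Even S.card

theorem Par.dvd {n r : ι → ℕ} {u : Finset ι → ℕ} (h : Par n r u) {S : Finset ι} {i : ι} (hi : i ∈ S) :
    u S ∣ n i := by
  rw [h.2.2.1 i]
  exact Dvd.dvd.mul_left (Finset.dvd_prod_of_mem u (mem_filter.2 ⟨mem_univ _, hi⟩)) _

theorem Par.r_le {n r : ι → ℕ} {u : Finset ι → ℕ} (h : Par n r u) (i : ι) : r i ^ 2 ≤ n i := by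
  rw [h.2.2.1 i]
  exact Nat.le_mul_of_pos_right _ (Finset.prod_pos fun S _ => h.2.1 S)

theorem Par.bounds {n r : ι → ℕ} {u : Finset ι → ℕ} (h : Par n r u) (N : ℕ) (hN : 1 ≤ N)
    (hn : ∀ i, n i ∈ Icc 1 N) : (∀ i, r i ∈ Icc 1 N) ∧ ∀ S, u S ∈ Icc 1 N := by
  refine ⟨fun i => ?_, fun S => ?_⟩
  · rw [mem_Icc]
    refine ⟨h.1 i, ?_⟩
    calc r i ≤ r i ^ 2 := Nat.le_self_pow (by norm_num) _
      _ ≤ n i := h.r_le i
      _ ≤ N := (mem_Icc.1 (hn i)).2
  · rw [mem_Icc]
    refine ⟨h.2.1 S, ?_⟩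
    by_cases h1 : u S = 1
    · rw [h1]
      exact hN
    · obtain ⟨i, hi⟩ := (h.2.2.2 S h1).1
      exact (Nat.le_of_dvd (mem_Icc.1 (hn i)).1 (h.dvd hi)).trans (mem_Icc.1 (hn i)).2

theorem Par.two_le {n r : ι → ℕ} {u : Finset ι → ℕ} (h : Par n r u) {S : Finset ι} (hS : u S ≠ 1) :
    2 ≤ S.card := by
  obtain ⟨h1, h2⟩ := h.2.2.2 S hS
  have := Finset.card_pos.2 h1
  obtain ⟨m, hm⟩ := h2
  omega

theorem prodn_le (n : ι → ℕ) (N : ℕ) (hn : ∀ i, n i ∈ Icc 1 N) : ∏ i, n i ≤ N ^ Fintype.card ι := by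
  calc ∏ i, n i ≤ ∏ _i : ι, N := Finset.prod_le_prod (fun _ _ => Nat.zero_le _)
        fun i _ => (mem_Icc.1 (hn i)).2
    _ = _ := by rw [Finset.prod_const, Finset.card_univ]

/-- case A: the products -/
theorem Par.prodA {n r : ι → ℕ} {u : Finset ι → ℕ} (h : Par n r u) (N : ℕ) (hN : 1 ≤ N)
    (hn : ∀ i, n i ∈ Icc 1 N) (δ : ℝ) (S₀ : Finset ι) (hS : (N : ℝ) ^ δ ≤ u S₀) :
    ((∏ j, Sum.elim r (Function.update u S₀ 1) j : ℕ) : ℝ) ≤
      (N : ℝ) ^ ((Fintype.card ι : ℝ) / 2 - δ) := by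
  apply tup_bd (Fintype.card ι) N ((∏ i, r i) * ∏ S, u S ^ 1) _ hN δ
  · refine (prod_bd n r u (fun _ => 1) h.2.1 h.2.2.1 ?_).trans (prodn_le n N hn)
    intro S hS
    have := h.two_le hS
    omega
  · rw [Fintype.prod_sum_type]
    simp only [Sum.elim_inl, Sum.elim_inr, pow_one]
    have e1 : ∏ S, u S = u S₀ * ∏ S, Function.update u S₀ 1 S := by
      have e2 : ∀ S, u S = (if S = S₀ then u S₀ else 1) * Function.update u S₀ 1 S := by
        intro S
        by_cases hS : S = S₀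
        · subst hS
          simp
        · simp [hS]
      rw [Finset.prod_congr rfl fun S _ => e2 S, Finset.prod_mul_distrib]
      simp
    rw [e1]
    push_cast
    have h0 : (0 : ℝ) ≤ (∏ i, (r i : ℝ)) * ∏ S, ((Function.update u S₀ 1 S : ℕ) : ℝ) := by positivity
    calc (N : ℝ) ^ δ * ((∏ i, (r i : ℝ)) * ∏ S, ((Function.update u S₀ 1 S : ℕ) : ℝ))
        ≤ u S₀ * ((∏ i, (r i : ℝ)) * ∏ S, ((Function.update u S₀ 1 S : ℕ) : ℝ)) :=
          mul_le_mul_of_nonneg_right hS h0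
      _ = _ := by ring

/-- case B: the products -/
theorem Par.prodB {n r : ι → ℕ} {u : Finset ι → ℕ} (h : Par n r u) (N : ℕ) (hN : 1 ≤ N)
    (hn : ∀ i, n i ∈ Icc 1 N) (δ : ℝ) (S₀ : Finset ι) (hS : (N : ℝ) ^ δ ≤ u S₀) (hS4 : 4 ≤ S₀.card) :
    ((∏ j, Sum.elim r u j : ℕ) : ℝ) ≤ (N : ℝ) ^ ((Fintype.card ι : ℝ) / 2 - δ) := by
  apply tup_bd (Fintype.card ι) N ((∏ i, r i) * ∏ S, u S ^ (if S = S₀ then 2 else 1)) _ hN δ
  · refine (prod_bd n r u (fun S => if S = S₀ then 2 else 1) h.2.1 h.2.2.1 ?_).trans (prodn_le n N hn)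
    intro S hS
    have := h.two_le hS
    by_cases hS' : S = S₀
    · subst hS'
      simpa using hS4
    · simpa [hS'] using this
  · rw [Fintype.prod_sum_type]
    simp only [Sum.elim_inl, Sum.elim_inr]
    have e1 : ∏ S, u S ^ (if S = S₀ then 2 else 1) = u S₀ * ∏ S, u S := by
      have e2 : ∀ S, u S ^ (if S = S₀ then 2 else 1) = (if S = S₀ then u S₀ else 1) * u S := by
        intro S
        by_cases hS : S = S₀
        · subst hS
          simp [pow_two]
        · simp [hS]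
      rw [Finset.prod_congr rfl fun S _ => e2 S, Finset.prod_mul_distrib]
      simp
    rw [e1]
    push_cast
    have h0 : (0 : ℝ) ≤ (∏ i, (r i : ℝ)) * ∏ S, (u S : ℝ) := by positivity
    calc (N : ℝ) ^ δ * ((∏ i, (r i : ℝ)) * ∏ S, (u S : ℝ))
        ≤ u S₀ * ((∏ i, (r i : ℝ)) * ∏ S, (u S : ℝ)) := mul_le_mul_of_nonneg_right hS h0
      _ = _ := by ring

/-- case A: injectivity -/
theorem injA {n n' r r' : ι → ℕ} {u u' : Finset ι → ℕ} (h : Par n r u) (h' : Par n' r' u')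
    (e : ι → ℤ) (sd : ι → Bool) (b : Bool) (S₀ : Finset ι)
    (h4 : ∑ i ∈ univ.filter (fun i => sd i = b), e i * (n i : ℤ) = 0)
    (h4' : ∑ i ∈ univ.filter (fun i => sd i = b), e i * (n' i : ℤ) = 0)
    (h5 : ∑ i ∈ univ.filter (fun i => i ∈ S₀ ∧ sd i = b), e i * (n i : ℤ) ≠ 0)
    (hr : r = r') (hu : ∀ S, S ≠ S₀ → u S = u' S) : n = n' := by
  subst hr
  have e1 : ∀ i ∉ S₀, n i = n' i := by
    intro i hi
    rw [h.2.2.1 i, h'.2.2.1 i]
    congr 1
    refine Finset.prod_congr rfl fun S hS => hu S ?_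
    rintro rfl
    exact hi (mem_filter.1 hS).2
  have e2 : ∀ i ∈ S₀, n i * u' S₀ = n' i * u S₀ := by
    intro i hi
    rw [h.2.2.1 i, h'.2.2.1 i]
    have hm : S₀ ∈ univ.filter (fun S : Finset ι => i ∈ S) := mem_filter.2 ⟨mem_univ _, hi⟩
    rw [← Finset.mul_prod_erase _ u hm, ← Finset.mul_prod_erase _ u' hm]
    have e3 : ∏ S ∈ (univ.filter (fun S : Finset ι => i ∈ S)).erase S₀, u S =
        ∏ S ∈ (univ.filter (fun S : Finset ι => i ∈ S)).erase S₀, u' S :=
      Finset.prod_congr rfl fun S hS => hu S (Finset.ne_of_mem_erase hS)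
    rw [e3]
    ring
  have e4 : ∀ m : ι → ℕ, ∑ i ∈ univ.filter (fun i => sd i = b), e i * (m i : ℤ) =
      ∑ i ∈ univ.filter (fun i => i ∈ S₀ ∧ sd i = b), e i * (m i : ℤ) +
      ∑ i ∈ univ.filter (fun i => i ∉ S₀ ∧ sd i = b), e i * (m i : ℤ) := by
    intro m
    rw [← Finset.sum_filter_add_sum_filter_not (univ.filter (fun i => sd i = b)) (fun i => i ∈ S₀)]
    rw [Finset.filter_filter, Finset.filter_filter]
    congr 1
    · refine Finset.sum_congr ?_ fun _ _ => rfl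
      ext i
      simp [and_comm]
    · refine Finset.sum_congr ?_ fun _ _ => rfl
      ext i
      simp [and_comm]
  rw [e4] at h4 h4'
  have e5 : ∑ i ∈ univ.filter (fun i => i ∉ S₀ ∧ sd i = b), e i * (n i : ℤ) =
      ∑ i ∈ univ.filter (fun i => i ∉ S₀ ∧ sd i = b), e i * (n' i : ℤ) := by
    refine Finset.sum_congr rfl fun i hi => ?_
    rw [e1 i (mem_filter.1 hi).2.1]
  have e6 : (∑ i ∈ univ.filter (fun i => i ∈ S₀ ∧ sd i = b), e i * (n i : ℤ)) * u' S₀ =
      (∑ i ∈ univ.filter (fun i => i ∈ S₀ ∧ sd i = b), e i * (n' i : ℤ)) * u S₀ := by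
    rw [Finset.sum_mul, Finset.sum_mul]
    refine Finset.sum_congr rfl fun i hi => ?_
    have := e2 i (mem_filter.1 hi).2.1
    have h7 : (n i : ℤ) * u' S₀ = n' i * u S₀ := by exact_mod_cast this
    rw [mul_assoc, h7, mul_assoc]
  have e7 : ∑ i ∈ univ.filter (fun i => i ∈ S₀ ∧ sd i = b), e i * (n i : ℤ) =
      ∑ i ∈ univ.filter (fun i => i ∈ S₀ ∧ sd i = b), e i * (n' i : ℤ) := by
    rw [e5] at h4
    linarith
  rw [← e7] at e6
  have e8 : (u' S₀ : ℤ) = u S₀ := mul_left_cancel₀ h5 e6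
  have e9 : u' S₀ = u S₀ := by exact_mod_cast e8
  have e10 : u = u' := by
    funext S
    by_cases hS : S = S₀
    · rw [hS, e9]
    · exact hu S hS
  funext i
  rw [h.2.2.1 i, h'.2.2.1 i, e10]

/-- case C: the two element sets -/
theorem pairC {n r : ι → ℕ} {u : Finset ι → ℕ} (h : Par n r u) (e : ι → ℤ)
    (he : ∀ i, e i = 1 ∨ e i = -1) (sd : ι → Bool) (S : Finset ι) (hS1 : u S ≠ 1) (hS4 : ¬ 4 ≤ S.card)
    (hn : ∀ i, 1 ≤ n i)
    (h5 : ∀ b, ∑ i ∈ univ.filter (fun i => i ∈ S ∧ sd i = b), e i * (n i : ℤ) = 0) (i : ι) (hi : i ∈ S) :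
    ∃ j ∈ S, j ≠ i ∧ sd j = sd i ∧ e j = - e i ∧ n j = n i := by
  have h2 := h.two_le hS1
  have hc : S.card = 2 := by
    obtain ⟨m, hm⟩ := (h.2.2.2 S hS1).2
    omega
  obtain ⟨j, hj⟩ : ∃ j, S.erase i = {j} := by
    rw [← Finset.card_eq_one, Finset.card_erase_of_mem hi, hc]
  have hjS : j ∈ S := by
    have : j ∈ S.erase i := by rw [hj]; exact mem_singleton_self j
    exact (mem_erase.1 this).2
  have hji : j ≠ i := by
    have : j ∈ S.erase i := by rw [hj]; exact mem_singleton_self j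
    exact (mem_erase.1 this).1
  have hSe : S = {i, j} := by
    rw [← Finset.insert_erase hi, hj]
  have hsd : sd j = sd i := by
    by_contra hcon
    have h6 := h5 (sd i)
    have h7 : univ.filter (fun x => x ∈ S ∧ sd x = sd i) = {i} := by
      ext x
      rw [mem_filter, mem_singleton, hSe]
      constructor
      · rintro ⟨-, hx, hx2⟩
        rw [mem_insert, mem_singleton] at hx
        rcases hx with rfl | rfl
        · rfl
        · exact absurd hx2 hcon
      · rintro rfl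
        exact ⟨mem_univ _, mem_insert_self _ _, rfl⟩
    rw [h7, Finset.sum_singleton] at h6
    have h8 := hn i
    rcases he i with h9 | h9
    · rw [h9] at h6
      omega
    · rw [h9] at h6
      omega
  have h6 := h5 (sd i)
  have h7 : univ.filter (fun x => x ∈ S ∧ sd x = sd i) = {i, j} := by
    ext x
    rw [mem_filter, hSe]
    constructor
    · rintro ⟨-, hx, hx2⟩
      exact hx
    · intro hx
      refine ⟨mem_univ _, hx, ?_⟩
      rw [mem_insert, mem_singleton] at hx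
      rcases hx with rfl | rfl
      · rfl
      · exact hsd
  rw [h7, Finset.sum_pair hji.symm] at h6
  have h8 := hn i
  have h9 := hn j
  refine ⟨j, hjS, hji, hsd, ?_, ?_⟩
  · rcases he i with h10 | h10 <;> rcases he j with h11 | h11 <;> rw [h10, h11] at h6 <;> omega
  · rcases he i with h10 | h10 <;> rcases he j with h11 | h11 <;> rw [h10, h11] at h6 <;> omega

/-- the possible values outside `B` -/
theorem setV (N : ℕ) (hN : 1 ≤ N) (d : ℝ) : ∃ V : Finset ℕ, (V.card : ℝ) ≤ (N : ℝ) ^ (1 / 2 + d) ∧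
    ∀ r s : ℕ, 1 ≤ r → 1 ≤ s → r ^ 2 * s ≤ N → (s : ℝ) ≤ (N : ℝ) ^ d → r ^ 2 * s ∈ V := by
  have hN0 : (0 : ℝ) < N := by exact_mod_cast hN
  refine ⟨(Icc 1 (Nat.sqrt N) ×ˢ Icc 1 ⌊(N : ℝ) ^ d⌋₊).image fun p => p.1 ^ 2 * p.2, ?_, ?_⟩
  · have h1 : ((Icc 1 (Nat.sqrt N) ×ˢ Icc 1 ⌊(N : ℝ) ^ d⌋₊).image fun p => p.1 ^ 2 * p.2).card ≤
        Nat.sqrt N * ⌊(N : ℝ) ^ d⌋₊ := by
      refine Finset.card_image_le.trans ?_
      rw [Finset.card_product, Nat.card_Icc, Nat.card_Icc, Nat.add_sub_cancel, Nat.add_sub_cancel]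
    have h2 : (Nat.sqrt N : ℝ) ≤ (N : ℝ) ^ (1 / 2 : ℝ) := by
      rw [← Real.sqrt_eq_rpow]
      exact Real.nat_sqrt_le_real_sqrt
    have h3 : ((⌊(N : ℝ) ^ d⌋₊ : ℕ) : ℝ) ≤ (N : ℝ) ^ d := Nat.floor_le (Real.rpow_nonneg hN0.le _)
    calc _ ≤ (Nat.sqrt N : ℝ) * ((⌊(N : ℝ) ^ d⌋₊ : ℕ) : ℝ) := by exact_mod_cast h1
      _ ≤ (N : ℝ) ^ (1 / 2 : ℝ) * (N : ℝ) ^ d :=
          mul_le_mul h2 h3 (by positivity) (Real.rpow_nonneg hN0.le _)
      _ = _ := by rw [← Real.rpow_add hN0]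
  · intro r s hr hs hrs hsd
    rw [mem_image]
    refine ⟨(r, s), ?_, rfl⟩
    rw [mem_product, mem_Icc, mem_Icc]
    refine ⟨⟨hr, ?_⟩, hs, ?_⟩
    · rw [Nat.le_sqrt']
      exact (Nat.le_mul_of_pos_right _ hs).trans hrs
    · exact Nat.le_floor hsd

theorem main1 (h1 : S_TUP) (h2 : S_PAR) (ι : Type) [Fintype ι] (e : ι → ℤ)
    (he : ∀ i, e i = 1 ∨ e i = -1) (sd : ι → Bool) : ∃ c C : ℝ, 0 < c ∧ 0 < C ∧ ∀ N : ℕ, 1 ≤ N →
    ∀ Y : Finset (ι → ℕ), (∀ n ∈ Y, ∀ i, n i ∈ Icc 1 N) → (∀ n ∈ Y, IsSquare (∏ i, n i)) →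
    (∀ n ∈ Y, ∀ b, ∑ i ∈ univ.filter (fun i => sd i = b), e i * (n i : ℤ) = 0) →
    (∀ n ∈ Y, ¬ ∀ (b : Bool) (v : ℕ), ∑ i ∈ univ.filter (fun i => sd i = b ∧ n i = v), e i = 0) →
    (Y.card : ℝ) ≤ C * (N : ℝ) ^ ((Fintype.card ι : ℝ) / 2 - c) := by
  obtain ⟨k, hk⟩ : ∃ k, k = Fintype.card ι := ⟨_, rfl⟩
  obtain ⟨δ, hδ⟩ : ∃ δ : ℝ, δ = 1 / (8 * (k + 1) * 2 ^ k) := ⟨_, rfl⟩
  have hk0 : (0 : ℝ) ≤ k := by positivity
  have hδ0 : 0 < δ := by rw [hδ]; positivity
  have hδk : k * (2 ^ k * δ) ≤ 1 / 8 := by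
    rw [hδ]
    have : (k : ℝ) * (2 ^ k * (1 / (8 * (k + 1) * 2 ^ k))) = k / (k + 1) * (1 / 8) := by
      field_simp
    rw [this]
    have h3 : (k : ℝ) / (k + 1) ≤ 1 := by
      rw [div_le_one (by positivity)]
      linarith
    linarith
  have hδ8 : δ ≤ 1 / 8 := by
    rw [hδ]
    apply one_div_le_one_div_of_le (by norm_num)
    have h3 : (1 : ℝ) ≤ 2 ^ k := one_le_pow₀ (by norm_num)
    nlinarith
  obtain ⟨C, hC0, hC⟩ := h1 (ι ⊕ Finset ι) (δ / (k + 1)) (by positivity)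
  have hxy : ((k : ℝ) / 2 - δ) * (1 + δ / (k + 1)) ≤ k / 2 - δ / 2 := by
    have h3 : (k : ℝ) * (δ / (k + 1)) ≤ δ := by
      have : (k : ℝ) * (δ / (k + 1)) = (k / (k + 1)) * δ := by ring
      rw [this]
      have h3 : (k : ℝ) / (k + 1) ≤ 1 := by
        rw [div_le_one (by positivity)]
        linarith
      nlinarith
    have h4 : 0 ≤ δ * (δ / (k + 1)) := by positivity
    have h5 : ((k : ℝ) / 2 - δ) * (1 + δ / (k + 1)) =
        k / 2 - δ + (k * (δ / (k + 1))) / 2 - δ * (δ / (k + 1)) := by ring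
    rw [h5]
    linarith
  set K1 : ℕ := (univ : Finset (Finset ι × Bool)).card with hK1
  set K2 : ℕ := (univ : Finset (Finset ι)).card with hK2
  set K3 : ℕ := (univ : Finset (Finset ι × (ι → ι))).card with hK3
  refine ⟨δ / 2, 1 + K1 * C + K2 * C + K3, by positivity, by positivity, ?_⟩
  intro N hN Y y1 y2 y3 y4
  have hN1 : (1 : ℝ) ≤ N := by exact_mod_cast hN
  have hN0 : (0 : ℝ) < N := by linarith
  rw [← hk]
  -- the case `N = 1`
  rcases Nat.lt_or_ge 1 N with hN2 | hN2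
  swap
  · have hNe : N = 1 := le_antisymm hN2 hN
    subst hNe
    have h3 : Y.card ≤ 1 := by
      rw [Finset.card_le_one]
      intro a ha b hb
      funext i
      have h4 := y1 a ha i
      have h5 := y1 b hb i
      rw [mem_Icc] at h4 h5
      omega
    have h4 : (Y.card : ℝ) ≤ 1 := by exact_mod_cast h3
    rw [Nat.cast_one, Real.one_rpow, mul_one]
    have h5 : 0 ≤ (K1 : ℝ) * C := by positivity
    have h6 : 0 ≤ (K2 : ℝ) * C := by positivity
    have h7 : (0 : ℝ) ≤ (K3 : ℝ) := by positivity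
    linarith
  have hN2' : (1 : ℝ) < N := by exact_mod_cast hN2
  have hL1 : 1 < (N : ℝ) ^ δ := Real.one_lt_rpow hN2' hδ0
  have hpar : ∀ n ∈ Y, ∃ ru : (ι → ℕ) × (Finset ι → ℕ), Par n ru.1 ru.2 := by
    intro n hn
    obtain ⟨r, u, hru⟩ := h2 ι n (fun i => (mem_Icc.1 (y1 n hn i)).1) (y2 n hn)
    exact ⟨(r, u), hru⟩
  choose! ru hru using hpar
  set YA : Finset ι × Bool → Finset (ι → ℕ) := fun p => Y.filter fun n =>
    (N : ℝ) ^ δ ≤ (ru n).2 p.1 ∧
      ∑ i ∈ univ.filter (fun i => i ∈ p.1 ∧ sd i = p.2), e i * (n i : ℤ) ≠ 0 with hYA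
  set YB : Finset ι → Finset (ι → ℕ) := fun S => Y.filter fun n =>
    (N : ℝ) ^ δ ≤ (ru n).2 S ∧ 4 ≤ S.card with hYB
  set YC : Finset (ι → ℕ) := Y.filter fun n => ∀ S, (N : ℝ) ^ δ ≤ (ru n).2 S →
    (∀ b, ∑ i ∈ univ.filter (fun i => i ∈ S ∧ sd i = b), e i * (n i : ℤ) = 0) ∧ ¬ 4 ≤ S.card with hYC
  have hne1 : ∀ n ∈ Y, ∀ S, (N : ℝ) ^ δ ≤ (ru n).2 S → (ru n).2 S ≠ 1 := by
    intro n hn S hS h3
    rw [h3, Nat.cast_one] at hS
    linarith
  have hk2 : ∀ n ∈ Y, ∀ S, (N : ℝ) ^ δ ≤ (ru n).2 S → 0 ≤ (k : ℝ) / 2 - δ := by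
    intro n hn S hS
    have h3 := (hru n hn).two_le (hne1 n hn S hS)
    have h4 : 2 ≤ k := by
      rw [hk]
      exact h3.trans (Finset.card_le_univ S)
    have h5 : (2 : ℝ) ≤ k := by exact_mod_cast h4
    linarith
  have cA : ∀ p, ((YA p).card : ℝ) ≤ C * (N : ℝ) ^ ((k : ℝ) / 2 - δ / 2) := by
    intro p
    rcases Finset.eq_empty_or_nonempty (YA p) with hem | ⟨n0, hn0⟩
    · rw [hem, Finset.card_empty, Nat.cast_zero]
      positivity
    · have hx : 0 ≤ (k : ℝ) / 2 - δ := by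
        have h3 := mem_filter.1 hn0
        exact hk2 n0 h3.1 p.1 h3.2.1
      apply count_tup C (δ / (k + 1)) hC0.le hC N hN ((k : ℝ) / 2 - δ) _ hx hxy (YA p)
        (fun n => Sum.elim (ru n).1 (Function.update (ru n).2 p.1 1))
      · intro n hn j
        have h3 := mem_filter.1 hn
        have h4 := (hru n h3.1).bounds N hN (y1 n h3.1)
        rcases j with j | S
        · exact h4.1 j
        · by_cases hS : S = p.1
          · simp [hS, hN]
          · simpa [hS] using h4.2 S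
      · intro n hn
        have h3 := mem_filter.1 hn
        rw [hk]
        exact (hru n h3.1).prodA N hN (y1 n h3.1) δ p.1 h3.2.1
      · intro n hn n' hn' h
        have h3 := mem_filter.1 hn
        have h3' := mem_filter.1 hn'
        have h6 : (ru n).1 = (ru n').1 := by
          funext i
          exact congrFun h (Sum.inl i)
        have h7 : ∀ S, S ≠ p.1 → (ru n).2 S = (ru n').2 S := by
          intro S hS
          have := congrFun h (Sum.inr S)
          simpa [hS] using this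
        exact injA (hru n h3.1) (hru n' h3'.1) e sd p.2 p.1 (y3 n h3.1 p.2) (y3 n' h3'.1 p.2) h3.2.2
          h6 h7
  have cB : ∀ S, ((YB S).card : ℝ) ≤ C * (N : ℝ) ^ ((k : ℝ) / 2 - δ / 2) := by
    intro S
    rcases Finset.eq_empty_or_nonempty (YB S) with hem | ⟨n0, hn0⟩
    · rw [hem, Finset.card_empty, Nat.cast_zero]
      positivity
    · have hx : 0 ≤ (k : ℝ) / 2 - δ := by
        have h3 := mem_filter.1 hn0
        exact hk2 n0 h3.1 S h3.2.1
      apply count_tup C (δ / (k + 1)) hC0.le hC N hN ((k : ℝ) / 2 - δ) _ hx hxy (YB S)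
        (fun n => Sum.elim (ru n).1 (ru n).2)
      · intro n hn j
        have h3 := mem_filter.1 hn
        have h4 := (hru n h3.1).bounds N hN (y1 n h3.1)
        rcases j with j | S
        · exact h4.1 j
        · exact h4.2 S
      · intro n hn
        have h3 := mem_filter.1 hn
        rw [hk]
        exact (hru n h3.1).prodB N hN (y1 n h3.1) δ S h3.2.1 h3.2.2
      · intro n hn n' hn' h
        have h3 := mem_filter.1 hn
        have h3' := mem_filter.1 hn'
        funext i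
        rw [(hru n h3.1).2.2.1 i, (hru n' h3'.1).2.2.1 i]
        have h6 : (ru n).1 = (ru n').1 := by
          funext i
          exact congrFun h (Sum.inl i)
        have h7 : (ru n).2 = (ru n').2 := by
          funext S
          exact congrFun h (Sum.inr S)
        rw [h6, h7]
  have cC : (YC.card : ℝ) ≤ K3 * (N : ℝ) ^ ((k : ℝ) / 2 - 1 / 2 + k * (2 ^ k * δ)) := by
    obtain ⟨V, hV1, hV2⟩ := setV N hN (2 ^ k * δ)
    have hpart : ∀ n ∈ YC, ∀ i, (∃ S, i ∈ S ∧ (N : ℝ) ^ δ ≤ (ru n).2 S) →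
        ∃ j, j ≠ i ∧ (∃ S, j ∈ S ∧ (N : ℝ) ^ δ ≤ (ru n).2 S) ∧ sd j = sd i ∧ e j = - e i ∧
          n j = n i := by
      intro n hn i ⟨S, hiS, hS⟩
      have h3 := mem_filter.1 hn
      obtain ⟨j, hj1, hj2, hj3, hj4, hj5⟩ := pairC (hru n h3.1) e he sd S (hne1 n h3.1 S hS)
        (h3.2 S hS).2 (fun i => (mem_Icc.1 (y1 n h3.1 i)).1) (h3.2 S hS).1 i hiS
      exact ⟨j, hj2, ⟨S, hj1, hS⟩, hj3, hj4, hj5⟩
    choose! g hg using hpart
    set Bn : (ι → ℕ) → Finset ι := fun n => univ.filter fun i => ∃ S, i ∈ S ∧ (N : ℝ) ^ δ ≤ (ru n).2 S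
      with hBn
    have hfib : ∀ q ∈ (univ : Finset (Finset ι × (ι → ι))),
        (((YC.filter fun n => (Bn n, g n) = q).card : ℕ) : ℝ) ≤
          (N : ℝ) ^ ((k : ℝ) / 2 - 1 / 2 + k * (2 ^ k * δ)) := by
      intro q _
      rcases Finset.eq_empty_or_nonempty (YC.filter fun n => (Bn n, g n) = q) with hem | ⟨n0, hn0⟩
      · rw [hem, Finset.card_empty, Nat.cast_zero]
        positivity
      · obtain ⟨B, f⟩ := q
        have hn0' := mem_filter.1 hn0
        have hB0 : Bn n0 = B := (Prod.ext_iff.1 hn0'.2).1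
        have hf0 : g n0 = f := (Prod.ext_iff.1 hn0'.2).2
        have hfB : ∀ i ∈ B, f i ≠ i ∧ f i ∈ B ∧ sd (f i) = sd i ∧ e (f i) = - e i := by
          intro i hi
          rw [← hB0] at hi
          obtain ⟨h3, h4, h5, h6, -⟩ := hg n0 hn0'.1 i (mem_filter.1 hi).2
          rw [← hf0]
          refine ⟨h3, ?_, h5, h6⟩
          rw [← hB0]
          exact mem_filter.2 ⟨mem_univ _, h4⟩
        have hd : (0 : ℝ) ≤ 2 ^ k * δ := by positivity
        have := caseC e he sd B f hfB N hN V (2 ^ k * δ) hd hV1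
          (YC.filter fun n => (Bn n, g n) = (B, f))
          (fun n hn => y1 n (mem_filter.1 (mem_filter.1 hn).1).1)
          (by
            intro n hn i hi
            have h3 := mem_filter.1 hn
            have h4 := mem_filter.1 h3.1
            have hB : Bn n = B := (Prod.ext_iff.1 h3.2).1
            have h5 := hru n h4.1
            have h6 := y1 n h4.1 i
            rw [h5.2.2.1 i] at h6 ⊢
            apply hV2 _ _ (h5.1 i) (Nat.succ_le_of_lt (Finset.prod_pos fun S _ => h5.2.1 S))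
              (mem_Icc.1 h6).2
            rw [← hB] at hi
            have h7 : ∀ S ∈ univ.filter (fun S : Finset ι => i ∈ S), ((ru n).2 S : ℝ) ≤ (N : ℝ) ^ δ := by
              intro S hS
              by_contra hcon
              push Not at hcon
              exact hi (mem_filter.2 ⟨mem_univ _, S, (mem_filter.1 hS).2, hcon.le⟩)
            push_cast
            calc ∏ S ∈ univ.filter (fun S : Finset ι => i ∈ S), ((ru n).2 S : ℝ)
                ≤ ∏ S ∈ univ.filter (fun S : Finset ι => i ∈ S), (N : ℝ) ^ δ :=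
                  Finset.prod_le_prod (fun _ _ => by positivity) h7
              _ = ((N : ℝ) ^ δ) ^ (univ.filter (fun S : Finset ι => i ∈ S)).card := by
                  rw [Finset.prod_const]
              _ ≤ ((N : ℝ) ^ δ) ^ (2 ^ k) := by
                  apply pow_le_pow_right₀ hL1.le
                  refine (Finset.card_filter_le _ _).trans ?_
                  rw [Finset.card_univ, Fintype.card_finset, hk]
              _ = _ := by
                  rw [← Real.rpow_natCast ((N : ℝ) ^ δ) (2 ^ k), ← Real.rpow_mul hN0.le]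
                  congr 1
                  push_cast
                  ring)
          (by
            intro n hn i hi
            have h3 := mem_filter.1 hn
            have hB : Bn n = B := (Prod.ext_iff.1 h3.2).1
            have hf : g n = f := (Prod.ext_iff.1 h3.2).2
            rw [← hB] at hi
            have h5 := hg n h3.1 i (mem_filter.1 hi).2
            rw [← hf]
            exact h5.2.2.2.2)
          (fun n hn => y3 n (mem_filter.1 (mem_filter.1 hn).1).1)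
          (fun n hn => y4 n (mem_filter.1 (mem_filter.1 hn).1).1)
        rw [← hk] at this
        exact this
    have hcard : YC.card = ∑ q ∈ (univ : Finset (Finset ι × (ι → ι))),
        (YC.filter fun n => (Bn n, g n) = q).card :=
      Finset.card_eq_sum_card_fiberwise fun n _ => mem_univ _
    rw [hcard]
    push_cast
    refine (Finset.sum_le_sum hfib).trans ?_
    rw [Finset.sum_const, nsmul_eq_mul]
  have hsub : Y ⊆ (univ.biUnion YA) ∪ (univ.biUnion YB) ∪ YC := by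
    intro n hn
    by_cases hC' : n ∈ YC
    · exact mem_union_right _ hC'
    · apply mem_union_left
      have h3 : ¬ ∀ S, (N : ℝ) ^ δ ≤ (ru n).2 S →
          (∀ b, ∑ i ∈ univ.filter (fun i => i ∈ S ∧ sd i = b), e i * (n i : ℤ) = 0) ∧
            ¬ 4 ≤ S.card := by
        intro h3
        exact hC' (mem_filter.2 ⟨hn, h3⟩)
      push Not at h3
      obtain ⟨S, hS, h4⟩ := h3
      by_cases h5 : ∀ b, ∑ i ∈ univ.filter (fun i => i ∈ S ∧ sd i = b), e i * (n i : ℤ) = 0
      · exact mem_union_right _ (mem_biUnion.2 ⟨S, mem_univ _, mem_filter.2 ⟨hn, hS, h4 h5⟩⟩)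
      · push Not at h5
        obtain ⟨b, hb⟩ := h5
        exact mem_union_left _ (mem_biUnion.2 ⟨(S, b), mem_univ _, mem_filter.2 ⟨hn, hS, hb⟩⟩)
  have hYc : (Y.card : ℝ) ≤ ∑ p : Finset ι × Bool, ((YA p).card : ℝ) +
      ∑ S : Finset ι, ((YB S).card : ℝ) + YC.card := by
    have h3 : Y.card ≤ ∑ p : Finset ι × Bool, (YA p).card + ∑ S : Finset ι, (YB S).card + YC.card := by
      refine (Finset.card_le_card hsub).trans ((Finset.card_union_le _ _).trans ?_)
      apply Nat.add_le_add_right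
      refine (Finset.card_union_le _ _).trans ?_
      exact Nat.add_le_add Finset.card_biUnion_le Finset.card_biUnion_le
    exact_mod_cast h3
  have sA : ∑ p : Finset ι × Bool, ((YA p).card : ℝ) ≤ K1 * (C * (N : ℝ) ^ ((k : ℝ) / 2 - δ / 2)) := by
    refine (Finset.sum_le_sum fun p _ => cA p).trans ?_
    rw [Finset.sum_const, nsmul_eq_mul]
  have sB : ∑ S : Finset ι, ((YB S).card : ℝ) ≤ K2 * (C * (N : ℝ) ^ ((k : ℝ) / 2 - δ / 2)) := by
    refine (Finset.sum_le_sum fun p _ => cB p).trans ?_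
    rw [Finset.sum_const, nsmul_eq_mul]
  have sC : (YC.card : ℝ) ≤ K3 * (N : ℝ) ^ ((k : ℝ) / 2 - δ / 2) := by
    refine cC.trans (mul_le_mul_of_nonneg_left ?_ (by positivity))
    apply Real.rpow_le_rpow_of_exponent_le hN1
    linarith
  have hP : 0 ≤ (N : ℝ) ^ ((k : ℝ) / 2 - δ / 2) := by positivity
  have : (1 + K1 * C + K2 * C + K3) * (N : ℝ) ^ ((k : ℝ) / 2 - δ / 2) =
      (N : ℝ) ^ ((k : ℝ) / 2 - δ / 2) + K1 * (C * (N : ℝ) ^ ((k : ℝ) / 2 - δ / 2)) +
      K2 * (C * (N : ℝ) ^ ((k : ℝ) / 2 - δ / 2)) + K3 * (N : ℝ) ^ ((k : ℝ) / 2 - δ / 2) := by ring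
  rw [this]
  linarith

end

theorem clg (h1 : S_TUP) (h2 : S_PAR) : S_CLG := by
  intro ι₁ ι₂ _ _ e₁ e₂ he₁ he₂
  obtain ⟨c, C, hc, hC, H⟩ := main1 h1 h2 (ι₁ ⊕ ι₂) (Sum.elim e₁ e₂)
    (by
      rintro (i | i)
      · exact he₁ i
      · exact he₂ i) Sum.isLeft
  refine ⟨c, C, hc, hC, fun N hN => ?_⟩
  set Z := ((Fintype.piFinset fun _ : ι₁ => Icc 1 N) ×ˢ (Fintype.piFinset fun _ : ι₂ => Icc 1 N)).filter
    fun t => ∑ i, e₁ i * (t.1 i : ℤ) = 0 ∧ ∑ i, e₂ i * (t.2 i : ℤ) = 0 ∧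
      IsSquare ((∏ i, t.1 i) * ∏ i, t.2 i) ∧ ¬ (Bal e₁ t.1 ∧ Bal e₂ t.2) with hZ
  have hmem : ∀ t ∈ Z, ((∀ i, t.1 i ∈ Icc 1 N) ∧ (∀ i, t.2 i ∈ Icc 1 N)) ∧
      ∑ i, e₁ i * (t.1 i : ℤ) = 0 ∧ ∑ i, e₂ i * (t.2 i : ℤ) = 0 ∧
      IsSquare ((∏ i, t.1 i) * ∏ i, t.2 i) ∧ ¬ (Bal e₁ t.1 ∧ Bal e₂ t.2) := by
    intro t ht
    rw [hZ, mem_filter, mem_product] at ht
    exact ⟨⟨fun i => Fintype.mem_piFinset.1 ht.1.1 i, fun i => Fintype.mem_piFinset.1 ht.1.2 i⟩, ht.2⟩
  have hinj : Function.Injective fun t : (ι₁ → ℕ) × (ι₂ → ℕ) => (Sum.elim t.1 t.2 : ι₁ ⊕ ι₂ → ℕ) := by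
    intro t t' h
    refine Prod.ext ?_ ?_
    · funext i
      exact congrFun h (Sum.inl i)
    · funext i
      exact congrFun h (Sum.inr i)
  have hcard : (Z.image fun t => (Sum.elim t.1 t.2 : ι₁ ⊕ ι₂ → ℕ)).card = Z.card :=
    Finset.card_image_of_injective Z hinj
  have := H N hN (Z.image fun t => (Sum.elim t.1 t.2 : ι₁ ⊕ ι₂ → ℕ))
    (by
      intro n hn i
      obtain ⟨t, ht, rfl⟩ := mem_image.1 hn
      have h3 := hmem t ht
      rcases i with i | i
      · exact h3.1.1 i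
      · exact h3.1.2 i)
    (by
      intro n hn
      obtain ⟨t, ht, rfl⟩ := mem_image.1 hn
      rw [Fintype.prod_sum_type]
      exact (hmem t ht).2.2.2.1)
    (by
      intro n hn b
      obtain ⟨t, ht, rfl⟩ := mem_image.1 hn
      rw [Finset.sum_filter, Fintype.sum_sum_type]
      cases b
      · simpa using (hmem t ht).2.2.1
      · simpa using (hmem t ht).2.1)
    (by
      intro n hn hcon
      obtain ⟨t, ht, rfl⟩ := mem_image.1 hn
      apply (hmem t ht).2.2.2.2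
      constructor
      · intro v
        have h3 := hcon true v
        rw [Finset.sum_filter, Fintype.sum_sum_type] at h3
        rw [Finset.sum_filter]
        simpa using h3
      · intro v
        have h3 := hcon false v
        rw [Finset.sum_filter, Fintype.sum_sum_type] at h3
        rw [Finset.sum_filter]
        simpa using h3)
  rw [hcard, Fintype.card_sum] at this
  push_cast at this
  exact this

end Pool.Agent.Q150.L2
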