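import Pool.Agent.Q255.L2.StmG
import Pool.Agent.Q152.QT.LawInt
import Pool.Agent.Q152.QT.ToReal

/-!
# Project L2 (helper255): from the moments over integer windows to the Gaussian law
-/

set_option autoImplicit false

namespace Pool.Agent.Q150.L2

open Filter Topology MeasureTheory Finset
open Pool.Agent.Q152.QT (gm Fc)
open Pool.Agent.Q163.GC (W Mf)
open Pool.Agent.Q255.L2 (GaussianLaw)

/-- the sum in `GaussianLaw` -/
theorem sum_eq (f : ℕ → ℝ) (x H : ℝ) :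
    ∑ n ∈ (Finset.range (⌊x + H⌋₊ + 1)).filter (fun n : ℕ => |(n : ℝ) - x| < H / 2), f n = Mf f x H := by
  unfold Mf
  refine Finset.sum_congr ?_ fun _ _ => rfl
  ext n
  rw [Finset.mem_filter, Finset.mem_filter, Finset.mem_range, Finset.mem_range]
  refine and_congr_left fun hc => ?_
  have h1 : (n : ℝ) ≤ x + H := by
    have h3 := (abs_lt.1 hc).2
    have h4 := lt_of_le_of_lt (abs_nonneg _) hc
    linarith
  constructor
  · intro _
    have h2 : (n : ℝ) ≤ ⌈x + H⌉₊ := h1.trans (Nat.le_ceil _)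
    have : n ≤ ⌈x + H⌉₊ := by exact_mod_cast h2
    omega
  · intro _
    have := Nat.le_floor h1
    omega

open Classical in
/-- the distribution function over integer windows -/
theorem law_int' (f : ℕ → ℝ) (ε δ : ℝ) (hε : 0 < ε) (hδ : 0 < δ)
    (hm : ∀ (k : ℕ) (η : ℝ), 0 < η → ∃ N₀ : ℕ, ∀ N h : ℕ, N₀ ≤ N → (N : ℝ) ^ ε ≤ h →
      (h : ℝ) ≤ (N : ℝ) ^ (1 - ε) →
        |(∑ x ∈ Ico N (2 * N), W f x h ^ k) / (N * √(h : ℝ) ^ k) - gm k * √(6 / Real.pi ^ 2) ^ k| ≤ η) :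
    ∃ N₀ : ℕ, ∀ N h : ℕ, N₀ ≤ N → (N : ℝ) ^ ε ≤ h → (h : ℝ) ≤ (N : ℝ) ^ (1 - ε) →
      ∀ t : ℝ, |Fc f N h t - Q282MM.Phi t| ≤ δ := by
  -- the number of the moments
  obtain ⟨n, hn1, hn⟩ : ∃ n : ℕ, 1 ≤ n ∧ 4 / √(n : ℝ) ≤ δ / 2 := by
    obtain ⟨n, hn⟩ := exists_nat_ge ((8 / δ) ^ 2)
    refine ⟨n + 1, by omega, ?_⟩
    have h1 : 8 / δ ≤ √((n + 1 : ℕ) : ℝ) := by
      rw [Real.le_sqrt (by positivity) (by positivity)]
      push_cast
      linarith
    rw [div_le_iff₀ (lt_of_lt_of_le (by positivity) h1)]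
    calc (4 : ℝ) = δ / 2 * (8 / δ) := by field_simp; norm_num
      _ ≤ _ := mul_le_mul_of_nonneg_left h1 (by positivity)
  obtain ⟨C0, hC0, hemp, -⟩ := Q282MM.emp Q282MM.fin_true n hn1
  set κ : ℝ := 6 / Real.pi ^ 2 with hκ
  have hκ0 : 0 < κ := by positivity
  set η : ℝ := δ / (2 * (C0 + 1)) with hη
  have hη0 : 0 < η := by positivity
  choose N1 H1 using fun k => hm k (η * √κ ^ k) (by positivity)
  obtain ⟨Na, hNa⟩ := Pool.Agent.Q152.QT.exists_ubn N1 (2 * n)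
  refine ⟨max Na 1, fun N h hN h1 h2 t => ?_⟩
  have hN1' : 1 ≤ N := (le_max_right _ _).trans hN
  have hN0 : (0 : ℝ) < N := by exact_mod_cast hN1'
  have hN1 : (1 : ℝ) ≤ N := by exact_mod_cast hN1'
  have hh1R : (1 : ℝ) ≤ h := le_trans (Real.one_le_rpow hN1 hε.le) h1
  have hh0 : (0 : ℝ) < h := by linarith
  have hIne : (Ico N (2 * N)).Nonempty := nonempty_Ico.2 (by omega)
  have hcard : ((Ico N (2 * N)).card : ℝ) = N := by
    rw [Nat.card_Ico]
    congr 1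
    omega
  have hsq : 0 < √(κ * h) := Real.sqrt_pos.2 (by positivity)
  have hmom : ∀ k ≤ 2 * n, |(∑ x ∈ Ico N (2 * N), (W f x h / √(κ * h)) ^ k) /
      ((Ico N (2 * N)).card : ℝ) - (Q282MM.gm k : ℝ)| ≤ η := by
    intro k hk
    have a1 := H1 k N h ((hNa k hk).trans ((le_max_left _ _).trans hN)) h1 h2
    have hpow : 0 < √κ ^ k := by positivity
    have hs : 0 < √(h : ℝ) ^ k := by positivity
    have e2 : √(κ * h) ^ k = √κ ^ k * √(h : ℝ) ^ k := by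
      rw [Real.sqrt_mul hκ0.le, mul_pow]
    have e1 : (∑ x ∈ Ico N (2 * N), (W f x h / √(κ * h)) ^ k) / ((Ico N (2 * N)).card : ℝ) -
        (Q282MM.gm k : ℝ) = ((∑ x ∈ Ico N (2 * N), W f x h ^ k) / (N * √(h : ℝ) ^ k) -
          gm k * √κ ^ k) / √κ ^ k := by
      rw [hcard, ← Pool.Agent.Q152.QT.gm_eq]
      simp only [div_pow]
      rw [← sum_div, e2]
      field_simp
    rw [e1, abs_div, abs_of_pos hpow, div_le_iff₀ hpow]
    exact a1
  have hfin := hemp ℕ (Ico N (2 * N)) (fun x => W f x h / √(κ * h)) η hIne hη0.le hmom t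
  rw [hcard] at hfin
  have hCη : C0 * η ≤ δ / 2 := by
    rw [hη, mul_div_assoc', div_le_iff₀ (by positivity)]
    nlinarith
  have hF : Fc f N h t = (((Ico N (2 * N)).filter fun x => W f x h / √(κ * h) ≤ t).card : ℝ) / N := by
    unfold Fc
    congr 2
    apply congrArg
    apply Finset.filter_congr
    intro x _
    rw [div_le_iff₀ hsq]
  rw [hF]
  exact hfin.trans (by linarith)

/-- JOB GLD -/
theorem gld : Pool.Agent.Q255.L2.S_GLD := by
  intro f hm ε hε hε1 H hH t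
  rw [Metric.tendsto_atTop]
  intro δ' hδ'
  obtain ⟨δ, hδ⟩ : ∃ δ : ℝ, δ = δ' / 2 := ⟨_, rfl⟩
  have hδ0 : 0 < δ := by rw [hδ]; positivity
  obtain ⟨X0, hX0, hreal⟩ := Pool.Agent.Q152.QT.to_real ε δ hε hε1 hδ0
  obtain ⟨N0, hN0⟩ := law_int' f (ε / 2) (δ / 4) (by positivity) (by positivity)
    (fun k η hη => hm k (ε / 2) (by positivity) η hη)
  obtain ⟨X1, hX1⟩ := eventually_atTop.1 hH
  refine ⟨max (max X0 X1) (N0 + 1), fun X hX => ?_⟩
  have hXX0 : X0 ≤ X := (le_max_left _ _).trans ((le_max_left _ _).trans hX)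
  have hXX1 : X1 ≤ X := (le_max_right _ _).trans ((le_max_left _ _).trans hX)
  have hXN : (N0 : ℝ) + 1 ≤ X := (le_max_right _ _).trans hX
  have hXpos : 0 < X := by linarith
  obtain ⟨h1, h2⟩ := hX1 X hXX1
  obtain ⟨r1, r2⟩ := hreal f X (H X) hXX0 h1.le h2.le
  have hNX : N0 ≤ ⌊X⌋₊ := by
    apply Nat.le_floor
    linarith
  have r3 := r2 (fun h hh t => hN0 ⌊X⌋₊ h hNX (r1 h hh).1 (r1 h hh).2 t) t
  have hHpos : 0 < H X := lt_trans (Real.rpow_pos_of_pos hXpos _) h1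
  have e : H X / (Real.pi ^ 2 / 6) = 6 / Real.pi ^ 2 * H X := by
    have := Real.pi_pos
    field_simp
  have hs : 0 < √(6 / Real.pi ^ 2 * H X) := Real.sqrt_pos.2 (by positivity)
  rw [Real.dist_eq, ProbabilityTheory.cdf_eq_real]
  simp only [sum_eq, e, div_le_iff₀ hs]
  have r4 : |(volume {x : ℝ | x ∈ Set.Icc X (2 * X) ∧ Mf f x (H X) ≤
      t * √(6 / Real.pi ^ 2 * H X)}).toReal / X -
        (ProbabilityTheory.gaussianReal 0 1).real (Set.Iic t)| ≤ δ := r3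
  linarith

end Pool.Agent.Q150.L2
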