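import Pool.Agent.Q255.L2.StmQ
import Pool.Agent.Q65.L2.Fou

/-!
# Project L2Q (helper255), job GMCQ: trigonometric polynomials
-/

set_option autoImplicit false

namespace Pool.Agent.Q150.L2.GQ

open Filter Topology MeasureTheory Finset
open Pool.Agent.Q255.IC Pool.Agent.Q255.IR Pool.Agent.Q255.EP Pool.Agent.Q255.L2
open Pool.Agent.Q65.L2.Fou (ee_exp ee_norm ee_cont ee_add ee_int int_ee_mul)

theorem mem_Bx {X : ℕ} {n : ℤ} : n ∈ Bx X ↔ n ≠ 0 ∧ -(X : ℤ) ≤ n ∧ n ≤ X := by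
  unfold Bx
  rw [mem_erase, mem_Icc]

theorem mem_Bx' {X : ℕ} {n : ℤ} : n ∈ Bx X ↔ 1 ≤ n.natAbs ∧ n.natAbs ≤ X := by
  rw [mem_Bx]
  omega

theorem Bx_mono {X Y : ℕ} (h : X ≤ Y) : Bx X ⊆ Bx Y := by
  intro n hn
  rw [mem_Bx'] at hn ⊢
  omega

theorem card_Bx (X : ℕ) : (Bx X).card ≤ 2 * X + 1 := by
  unfold Bx
  refine (card_erase_le).trans ?_
  rw [Int.card_Icc]
  omega

/-- a trigonometric polynomial -/
noncomputable def pp (X : ℕ) (β : ℤ → ℂ) (χ : ℕ → ℝ) (x : ℝ) : ℂ :=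
  ∑ n ∈ Bx X, β n * (χ n.natAbs : ℂ) * ee (n * x)

theorem pp_cont (X : ℕ) (β : ℤ → ℂ) (χ : ℕ → ℝ) : Continuous (pp X β χ) := by
  unfold pp
  refine continuous_finsetSum _ fun n _ => continuous_const.mul (ee_cont.comp ?_)
  exact continuous_const.mul continuous_id

theorem ee_sum {ι : Type} (s : Finset ι) (f : ι → ℝ) : ∏ j ∈ s, ee (f j) = ee (∑ j ∈ s, f j) := by
  classical
  induction s using Finset.induction_on with
  | empty =>
    rw [prod_empty, sum_empty]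
    have := ee_int 0
    rw [Int.cast_zero] at this
    exact this.symm
  | insert j s hj ih => rw [prod_insert hj, sum_insert hj, ee_add, ih]

theorem pp_int {k : ℕ} (X : ℕ) (β : Fin k → ℤ → ℂ) (χ : ℕ → ℝ) (h : ℤ) :
    ∫ x in (0 : ℝ)..1, (∏ j, pp X (β j) χ x) * ee (-(h * x)) = TS χ k X h β := by
  have h1 : ∀ x : ℝ, (∏ j, pp X (β j) χ x) * ee (-(h * x)) =
      ∑ m ∈ Fintype.piFinset fun _ : Fin k => Bx X, (∏ j, (β j (m j) * (χ (m j).natAbs : ℂ))) *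
        (ee (((-h : ℤ) : ℝ) * x) * ee (((∑ j, m j : ℤ) : ℝ) * x)) := by
    intro x
    have h2 : (-(h * x) : ℝ) = ((-h : ℤ) : ℝ) * x := by
      push_cast
      ring
    rw [h2]
    unfold pp
    rw [prod_univ_sum, sum_mul]
    refine sum_congr rfl fun m _ => ?_
    rw [prod_mul_distrib, ee_sum]
    have h3 : ∑ j, ((m j : ℤ) : ℝ) * x = ((∑ j, m j : ℤ) : ℝ) * x := by
      rw [← sum_mul]
      push_cast
      rfl
    rw [h3]
    ring
  simp only [h1]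
  rw [intervalIntegral.integral_finsetSum]
  · unfold TS
    rw [sum_filter]
    refine sum_congr rfl fun m _ => ?_
    rw [intervalIntegral.integral_const_mul, int_ee_mul]
    split_ifs <;> simp
  · intro m _
    refine Continuous.intervalIntegrable ?_ _ _
    refine continuous_const.mul ((ee_cont.comp ?_).mul (ee_cont.comp ?_)) <;>
      exact continuous_const.mul continuous_id

theorem prod_close {R ι : Type*} [NormedField R] (s : Finset ι) (a b : ι → R) (B η : ℝ) (hB : 1 ≤ B) (hη : 0 ≤ η)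
    (ha : ∀ i ∈ s, ‖a i‖ ≤ B) (hb : ∀ i ∈ s, ‖b i‖ ≤ B) (hab : ∀ i ∈ s, ‖a i - b i‖ ≤ η) :
    ‖∏ i ∈ s, a i - ∏ i ∈ s, b i‖ ≤ s.card * B ^ s.card * η := by
  classical
  induction s using Finset.induction_on with
  | empty => simp
  | insert i s hi ih =>
    have ih' := ih (fun j hj => ha j (mem_insert_of_mem hj)) (fun j hj => hb j (mem_insert_of_mem hj))
      (fun j hj => hab j (mem_insert_of_mem hj))
    rw [prod_insert hi, prod_insert hi, card_insert_of_notMem hi]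
    have h1 : a i * ∏ j ∈ s, a j - b i * ∏ j ∈ s, b j =
        a i * (∏ j ∈ s, a j - ∏ j ∈ s, b j) + (a i - b i) * ∏ j ∈ s, b j := by ring
    rw [h1]
    have h2 : ‖∏ j ∈ s, b j‖ ≤ B ^ s.card := by
      rw [norm_prod]
      refine (prod_le_prod (fun j _ => norm_nonneg _) (fun j hj => hb j (mem_insert_of_mem hj))).trans (le_of_eq ?_)
      rw [prod_const]
    have hB0 : 0 ≤ B := by linarith
    have hBp : 1 ≤ B ^ s.card := one_le_pow₀ hB
    calc ‖a i * (∏ j ∈ s, a j - ∏ j ∈ s, b j) + (a i - b i) * ∏ j ∈ s, b j‖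
        ≤ ‖a i * (∏ j ∈ s, a j - ∏ j ∈ s, b j)‖ + ‖(a i - b i) * ∏ j ∈ s, b j‖ := norm_add_le _ _
      _ = ‖a i‖ * ‖∏ j ∈ s, a j - ∏ j ∈ s, b j‖ + ‖a i - b i‖ * ‖∏ j ∈ s, b j‖ := by rw [norm_mul, norm_mul]
      _ ≤ B * (s.card * B ^ s.card * η) + η * B ^ s.card :=
          add_le_add (mul_le_mul (ha i (mem_insert_self _ _)) ih' (norm_nonneg _) hB0)
            (mul_le_mul (hab i (mem_insert_self _ _)) h2 (norm_nonneg _) hη)
      _ ≤ B * (s.card * B ^ s.card * η) + B * (η * B ^ s.card) := by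
          have h3 : 0 ≤ η * B ^ s.card := by positivity
          nlinarith
      _ = ((s.card + 1 : ℕ) : ℝ) * B ^ (s.card + 1) * η := by
          push_cast
          ring

theorem piB_card (k X : ℕ) : ((Fintype.piFinset fun _ : Fin k => Bx X).card : ℝ) ≤ (2 * X + 1) ^ k := by
  rw [Fintype.card_piFinset, prod_const, card_univ, Fintype.card_fin]
  have h1 := Nat.pow_le_pow_left (card_Bx X) k
  exact_mod_cast h1

theorem sum_close {k : ℕ} (X : ℕ) (S : Finset (Fin k → ℤ)) (hS : S ⊆ Fintype.piFinset fun _ : Fin k => Bx X)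
    (β β' : Fin k → ℤ → ℂ) (B η : ℝ) (hB : 1 ≤ B) (hη : 0 ≤ η) (h1 : ∀ j, ∀ n ∈ Bx X, ‖β j n‖ ≤ B)
    (h2 : ∀ j, ∀ n ∈ Bx X, ‖β' j n‖ ≤ B) (h3 : ∀ j, ∀ n ∈ Bx X, ‖β j n - β' j n‖ ≤ η) :
    ‖∑ m ∈ S, ∏ j, β j (m j) - ∑ m ∈ S, ∏ j, β' j (m j)‖ ≤ (2 * X + 1) ^ k * (k * B ^ k * η) := by
  rw [← sum_sub_distrib]
  refine (norm_sum_le _ _).trans ?_
  have h4 : ∀ m ∈ S, ‖∏ j, β j (m j) - ∏ j, β' j (m j)‖ ≤ k * B ^ k * η := by
    intro m hm
    have hm' := Fintype.mem_piFinset.1 (hS hm)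
    have h5 := prod_close (univ : Finset (Fin k)) (fun j => β j (m j)) (fun j => β' j (m j)) B η hB hη
      (fun j _ => h1 j _ (hm' j)) (fun j _ => h2 j _ (hm' j)) (fun j _ => h3 j _ (hm' j))
    rw [card_univ, Fintype.card_fin] at h5
    exact h5
  refine (sum_le_sum h4).trans ?_
  rw [sum_const, nsmul_eq_mul]
  refine mul_le_mul_of_nonneg_right ?_ (by positivity)
  refine le_trans ?_ (piB_card k X)
  exact_mod_cast card_le_card hS

theorem TS_close {k : ℕ} (X : ℕ) (h : ℤ) (χ : ℕ → ℝ) (hχ : ∀ n, |χ n| ≤ 1)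
    (β β' : Fin k → ℤ → ℂ) (B η : ℝ) (hB : 1 ≤ B) (hη : 0 ≤ η) (h1 : ∀ j, ∀ n ∈ Bx X, ‖β j n‖ ≤ B)
    (h2 : ∀ j, ∀ n ∈ Bx X, ‖β' j n‖ ≤ B) (h3 : ∀ j, ∀ n ∈ Bx X, ‖β j n - β' j n‖ ≤ η) :
    ‖TS χ k X h β - TS χ k X h β'‖ ≤ (2 * X + 1) ^ k * (k * B ^ k * η) := by
  have hn : ∀ n : ℕ, ‖(χ n : ℂ)‖ ≤ 1 := fun n => by
    rw [Complex.norm_real]
    exact hχ n
  unfold TS
  refine sum_close X _ (filter_subset _ _) (fun j n => β j n * (χ n.natAbs : ℂ))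
    (fun j n => β' j n * (χ n.natAbs : ℂ)) B η hB hη ?_ ?_ ?_
  · intro j n hn'
    rw [norm_mul]
    exact (mul_le_of_le_one_right (norm_nonneg _) (hn _)).trans (h1 j n hn')
  · intro j n hn'
    rw [norm_mul]
    exact (mul_le_of_le_one_right (norm_nonneg _) (hn _)).trans (h2 j n hn')
  · intro j n hn'
    rw [← sub_mul, norm_mul]
    exact (mul_le_of_le_one_right (norm_nonneg _) (hn _)).trans (h3 j n hn')

theorem DB_close {k : ℕ} (X : ℕ) (β β' : Fin k → ℤ → ℂ) (B η : ℝ) (hB : 1 ≤ B) (hη : 0 ≤ η)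
    (h1 : ∀ j, ∀ n ∈ Bx X, ‖β j n‖ ≤ B) (h2 : ∀ j, ∀ n ∈ Bx X, ‖β' j n‖ ≤ B)
    (h3 : ∀ j, ∀ n ∈ Bx X, ‖β j n - β' j n‖ ≤ η) :
    ‖DB k X β - DB k X β'‖ ≤ (2 * X + 1) ^ k * (k * B ^ k * η) := by
  classical
  unfold DB
  exact sum_close X _ (filter_subset _ _) β β' B η hB hη h1 h2 h3

theorem DB_cut {k : ℕ} {X Y : ℕ} (hXY : X ≤ Y) (β : Fin k → ℤ → ℂ) (h : ∀ j, ∀ n, n ∉ Bx X → β j n = 0) :
    DB k Y β = DB k X β := by
  classical
  unfold DB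
  symm
  refine sum_subset ?_ ?_
  · intro m hm
    rw [mem_filter, Fintype.mem_piFinset] at hm ⊢
    exact ⟨fun j => Bx_mono hXY (hm.1 j), hm.2⟩
  · intro m hm hm'
    rw [mem_filter, Fintype.mem_piFinset] at hm hm'
    have h1 : ∃ j, m j ∉ Bx X := by
      by_contra hcon
      push Not at hcon
      exact hm' ⟨hcon, hm.2⟩
    obtain ⟨j, hj⟩ := h1
    exact prod_eq_zero (mem_univ j) (h j _ hj)

theorem sum_Bx (X : ℕ) (F : ℤ → ℂ) : ∑ n ∈ Bx X, F n = ∑ n ∈ Icc 1 X, (F n + F (-(n : ℤ))) := by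
  induction X with
  | zero =>
    have h1 : Bx 0 = ∅ := by
      refine eq_empty_of_forall_notMem fun n hn => ?_
      rw [mem_Bx'] at hn
      omega
    rw [h1]
    simp
  | succ X ih =>
    have h1 : Bx (X + 1) = insert ((X + 1 : ℕ) : ℤ) (insert (-((X + 1 : ℕ) : ℤ)) (Bx X)) := by
      ext n
      rw [mem_insert, mem_insert, mem_Bx', mem_Bx']
      omega
    have h2 : (-((X + 1 : ℕ) : ℤ)) ∉ Bx X := by
      rw [mem_Bx']
      omega
    have h3 : ((X + 1 : ℕ) : ℤ) ∉ insert (-((X + 1 : ℕ) : ℤ)) (Bx X) := by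
      rw [mem_insert, mem_Bx']
      omega
    rw [h1, sum_insert h3, sum_insert h2, ih, sum_Icc_succ_top (by omega)]
    ring

end Pool.Agent.Q150.L2.GQ
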