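import Pool.Agent.Q150.L2.GQa
import Pool.Agent.Q255.L2.Alm
import Pool.Agent.Q195.L2.GME
import Pool.Agent.Q275.L2.Snq
import Pool.Agent.Q13.EP.POLY

/-!
# Project L2Q (helper255), job GMCQ: the expansions as trigonometric polynomials
-/

set_option autoImplicit false

namespace Pool.Agent.Q150.L2.GQ

open Filter Topology MeasureTheory Finset
open Pool.Agent.Q255.IC Pool.Agent.Q255.IR Pool.Agent.Q255.EP Pool.Agent.Q255.L2
open Pool.Agent.Q65.L2.Fou (ee_exp ee_norm ee_cont ee_add ee_int int_ee_mul)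
open Pool.Agent.Q65.L2 (tm sh tm_lip tm_bd amp tm_per sum_range_Icc)
open Pool.Agent.Q68.L2 (coef_pt)
open Pool.Agent.Q195.L2 (ph_eq ph_cont coef_bd)
open Pool.Agent.Q13.EP (ee_eq norm_ee_sub)

/-- the coefficients with the phase -/
noncomputable def btu (T : ℝ) (a : ℕ → ℝ) (R : ℝ) (b : Bool) (y u : ℝ) (n : ℤ) : ℂ := bt T a R b y n * ee ((n : ℝ) * u)

/-- the truncated coefficients -/
noncomputable def tr (R : ℝ) (a : ℕ → ℝ) (n : ℕ) : ℝ := if (n : ℝ) ≤ R then a n else 0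

theorem tr_le (R : ℝ) (a : ℕ → ℝ) (n : ℕ) : |tr R a n| ≤ |a n| := by
  unfold tr
  split_ifs
  · exact le_rfl
  · rw [abs_zero]
    exact abs_nonneg _

theorem tr_pos {R : ℝ} (a : ℕ → ℝ) {n : ℕ} (h : (n : ℝ) ≤ R) : tr R a n = a n := by
  unfold tr
  rw [if_pos h]

theorem tr_neg {R : ℝ} (a : ℕ → ℝ) {n : ℕ} (h : ¬ (n : ℝ) ≤ R) : tr R a n = 0 := by
  unfold tr
  rw [if_neg h]

/-- the truncated expansion -/
noncomputable def rp (X : ℕ) (χ : ℕ → ℝ) (T : ℝ) (a : ℕ → ℝ) (R : ℝ) (b : Bool) (y u x : ℝ) : ℝ :=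
  ∑ n ∈ Icc 1 X, tm T (tr R a) b (x + u) y n * χ n

theorem bt_eq (T : ℝ) (a : ℕ → ℝ) (R : ℝ) (b : Bool) (y : ℝ) (n : ℤ) (hn : n ≠ 0) :
    bt T a R b y n = ((tm T (tr R a) true 0 y n.natAbs / 2 : ℝ) : ℂ) *
      (if b then 1 else -Complex.I * (n.sign : ℂ)) := by
  unfold bt tm sh
  rw [if_pos rfl, mul_zero, sub_zero, Real.cos_zero, mul_one]
  by_cases h : (n.natAbs : ℝ) ≤ R
  · rw [if_pos ⟨hn, h⟩, tr_pos a h]
    congr 2
    ring
  · rw [if_neg (fun h' => h h'.2), tr_neg a h]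
    simp

theorem unit_norm (b : Bool) (n : ℤ) (hn : n ≠ 0) : ‖(if b then (1 : ℂ) else -Complex.I * (n.sign : ℂ))‖ = 1 := by
  cases b
  · rw [if_neg (by simp)]
    rw [norm_mul, norm_neg, Complex.norm_I, one_mul]
    rcases lt_or_gt_of_ne hn with h | h
    · rw [Int.sign_eq_neg_one_of_neg h]
      simp
    · rw [Int.sign_eq_one_of_pos h]
      simp
  · rw [if_pos rfl, norm_one]

theorem pair_eq (T : ℝ) (a : ℕ → ℝ) (R : ℝ) (b : Bool) (y u x : ℝ) (n : ℕ) (hn : 1 ≤ n) :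
    btu T a R b y u n * ee (((n : ℤ) : ℝ) * x) + btu T a R b y u (-(n : ℤ)) * ee (((-(n : ℤ) : ℤ) : ℝ) * x) =
      ((tm T (tr R a) b (x + u) y n : ℝ) : ℂ) := by
  have hn0 : (n : ℤ) ≠ 0 := by omega
  have hn0' : (-(n : ℤ)) ≠ 0 := by omega
  unfold btu
  rw [bt_eq T a R b y n hn0, bt_eq T a R b y (-(n : ℤ)) hn0', Int.natAbs_neg, Int.natAbs_natCast]
  have hs1 : (n : ℤ).sign = 1 := Int.sign_eq_one_of_pos (by omega)
  have hs2 : (-(n : ℤ)).sign = -1 := Int.sign_eq_neg_one_of_neg (by omega)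
  rw [hs1, hs2]
  have e1 : ee (((n : ℤ) : ℝ) * u) * ee (((n : ℤ) : ℝ) * x) =
      (Real.cos (2 * Real.pi * n * (x + u)) : ℂ) + (Real.sin (2 * Real.pi * n * (x + u)) : ℂ) * Complex.I := by
    rw [← ee_add, ee_eq]
    have h1 : 2 * Real.pi * (((n : ℤ) : ℝ) * u + ((n : ℤ) : ℝ) * x) = 2 * Real.pi * n * (x + u) := by
      push_cast
      ring
    rw [h1]
  have e2 : ee (((-(n : ℤ) : ℤ) : ℝ) * u) * ee (((-(n : ℤ) : ℤ) : ℝ) * x) =
      (Real.cos (2 * Real.pi * n * (x + u)) : ℂ) - (Real.sin (2 * Real.pi * n * (x + u)) : ℂ) * Complex.I := by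
    rw [← ee_add, ee_eq]
    have h1 : 2 * Real.pi * (((-(n : ℤ) : ℤ) : ℝ) * u + ((-(n : ℤ) : ℤ) : ℝ) * x) =
        -(2 * Real.pi * n * (x + u)) := by
      push_cast
      ring
    rw [h1, Real.cos_neg, Real.sin_neg]
    push_cast
    ring
  obtain ⟨r, hr⟩ : ∃ r : ℝ, r = Real.exp (Real.pi * T / 2) * √y * (tr R a n * KB T (2 * Real.pi * n * y)) := ⟨_, rfl⟩
  have e3 : tm T (tr R a) true 0 y n = r := by
    unfold tm sh
    rw [if_pos rfl, mul_zero, sub_zero, Real.cos_zero, mul_one, hr]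
  rw [e3]
  cases b
  · have e4 : tm T (tr R a) false (x + u) y n = r * Real.sin (2 * Real.pi * n * (x + u)) := by
      unfold tm sh
      rw [if_neg (by simp), Real.cos_sub_pi_div_two, hr]
      ring
    rw [e4, if_neg (by simp), if_neg (by simp)]
    have hI := Complex.I_mul_I
    push_cast
    calc ((r : ℂ) / 2 * (-Complex.I * 1) * ee ((n : ℝ) * u)) * ee ((n : ℝ) * x) +
          ((r : ℂ) / 2 * (-Complex.I * -1) * ee (-(n : ℝ) * u)) * ee (-(n : ℝ) * x)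
        = (r : ℂ) / 2 * (-Complex.I) * (ee ((n : ℝ) * u) * ee ((n : ℝ) * x)) +
          (r : ℂ) / 2 * Complex.I * (ee (-(n : ℝ) * u) * ee (-(n : ℝ) * x)) := by ring
      _ = _ := by
          push_cast at e1 e2
          rw [e1, e2]
          linear_combination (-(r : ℂ) * Complex.sin (2 * Real.pi * n * (x + u))) * hI
  · have e4 : tm T (tr R a) true (x + u) y n = r * Real.cos (2 * Real.pi * n * (x + u)) := by
      unfold tm sh
      rw [if_pos rfl, sub_zero, hr]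
      ring
    rw [e4, if_pos rfl, if_pos rfl]
    push_cast
    calc ((r : ℂ) / 2 * 1 * ee ((n : ℝ) * u)) * ee ((n : ℝ) * x) +
          ((r : ℂ) / 2 * 1 * ee (-(n : ℝ) * u)) * ee (-(n : ℝ) * x)
        = (r : ℂ) / 2 * (ee ((n : ℝ) * u) * ee ((n : ℝ) * x)) +
          (r : ℂ) / 2 * (ee (-(n : ℝ) * u) * ee (-(n : ℝ) * x)) := by ring
      _ = _ := by
          push_cast at e1 e2
          rw [e1, e2]
          ring

theorem pp_eq (X : ℕ) (χ : ℕ → ℝ) (T : ℝ) (a : ℕ → ℝ) (R : ℝ) (b : Bool) (y u x : ℝ) :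
    pp X (btu T a R b y u) χ x = ((rp X χ T a R b y u x : ℝ) : ℂ) := by
  unfold pp rp
  rw [sum_Bx]
  push_cast
  refine sum_congr rfl fun n hn => ?_
  rw [mem_Icc] at hn
  have h1 := pair_eq T a R b y u x n hn.1
  rw [← h1]
  simp only [Int.natAbs_neg, Int.natAbs_natCast]
  push_cast
  ring

theorem rp_cont (X : ℕ) (χ : ℕ → ℝ) (T : ℝ) (a : ℕ → ℝ) (R : ℝ) (b : Bool) (y u : ℝ) :
    Continuous (rp X χ T a R b y u) := by
  unfold rp tm
  fun_prop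

/-- the terms beyond `M T` -/
theorem tail_bd (y₀ C : ℝ) (hy₀ : 0 < y₀) : ∃ Ct : ℝ, 0 ≤ Ct ∧
    ∀ (T : ℝ) (a : ℕ → ℝ) (χ : ℕ → ℝ) (b : Bool) (y u x : ℝ) (M X : ℕ), 1 ≤ T → y₀ ≤ y → 1 ≤ M * y₀ →
      (M : ℝ) * T ≤ X → (∀ n, |χ n| ≤ 1) → (∀ n : ℕ, 1 ≤ n → |a n| ≤ C * (n * T)) →
      |ph b χ T a (x + u) y - rp X χ T a (M * T) b y u x| ≤ Ct * Real.exp (-T) := by
  have hpi := Real.pi_pos
  have hpi3 := Real.pi_gt_three
  obtain ⟨hh, hhh⟩ : ∃ hh : ℕ → ℝ, hh = fun n : ℕ => |C| * y₀ * ((n : ℝ) ^ 2 * Real.exp (-(Real.pi / 2 * y₀) * n)) := ⟨_, rfl⟩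
  have hhn : ∀ n : ℕ, hh n = |C| * y₀ * ((n : ℝ) ^ 2 * Real.exp (-(Real.pi / 2 * y₀) * n)) := fun n => by rw [hhh]
  have hh0 : ∀ n, 0 ≤ hh n := fun n => by
    rw [hhn]
    positivity
  have hhs0 : Summable hh := by
    rw [hhh]
    exact (Real.summable_pow_mul_exp_neg_nat_mul 2 (by positivity : 0 < Real.pi / 2 * y₀)).mul_left _
  have hhs : Summable fun n : ℕ => hh (n + 1) := (summable_nat_add_iff 1).2 hhs0
  refine ⟨∑' n, hh (n + 1), tsum_nonneg fun n => hh0 _, ?_⟩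
  intro T a χ b y u x M X hT hy hM hX hχ ha
  obtain ⟨g, hg⟩ : ∃ g : ℕ → ℝ, g = fun n => tm T a b (x + u) y (n + 1) * χ (n + 1) := ⟨_, rfl⟩
  obtain ⟨g1, hg1⟩ : ∃ g1 : ℕ → ℝ, g1 = fun n => tm T (tr (M * T) a) b (x + u) y (n + 1) * χ (n + 1) := ⟨_, rfl⟩
  have hgn : ∀ n, g n = tm T a b (x + u) y (n + 1) * χ (n + 1) := fun n => by rw [hg]
  have hg1n : ∀ n, g1 n = tm T (tr (M * T) a) b (x + u) y (n + 1) * χ (n + 1) := fun n => by rw [hg1]
  have hin : ∀ n : ℕ, ((n + 1 : ℕ) : ℝ) ≤ M * T → g1 n = g n := by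
    intro n hn
    rw [hgn, hg1n]
    unfold tm
    rw [tr_pos a hn]
  have hout : ∀ n : ℕ, ¬ ((n + 1 : ℕ) : ℝ) ≤ M * T → g1 n = 0 := by
    intro n hn
    rw [hg1n]
    unfold tm
    rw [tr_neg a hn]
    ring
  have hX1 : ∀ n : ℕ, n ∉ range X → g1 n = 0 := by
    intro n hn
    rw [mem_range, not_lt] at hn
    refine hout n (not_le.2 ?_)
    have h1 : (X : ℝ) ≤ n := by exact_mod_cast hn
    push_cast
    linarith
  have hs1 : Summable g1 := summable_of_ne_finset_zero (s := range X) hX1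
  have hrb : ∀ n, |g n - g1 n| ≤ hh (n + 1) * Real.exp (-T) := by
    intro n
    by_cases hn : ((n + 1 : ℕ) : ℝ) ≤ M * T
    · rw [hin n hn, sub_self, abs_zero]
      exact mul_nonneg (hh0 _) (Real.exp_pos _).le
    · rw [hout n hn, sub_zero, hgn, abs_mul]
      refine (mul_le_of_le_one_right (abs_nonneg _) (hχ _)).trans ?_
      have h1 := far Pool.Agent.Q241.L2.kode (m := M) (θ := 0) (T := T) (C := C) (a := a) (x := x + u) b le_rfl hT hy₀ hy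
        hM (K := 2) (by norm_num) (Nat.le_add_left 1 n) (by
          rw [Real.rpow_zero, mul_one]
          exact ha _ (Nat.le_add_left 1 n)) (not_le.1 hn)
      refine h1.trans ?_
      rw [hhn]
      have h2 : Real.exp (-(Real.pi * y₀) * ((n + 1 : ℕ) : ℝ)) ≤
          Real.exp (-(Real.pi / 2 * y₀) * ((n + 1 : ℕ) : ℝ)) * Real.exp (-T) := by
        rw [← Real.exp_add]
        apply Real.exp_le_exp.2
        have h3 : T ≤ y₀ * ((n + 1 : ℕ) : ℝ) := by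
          have h4 : y₀ * (M * T) ≤ y₀ * ((n + 1 : ℕ) : ℝ) := mul_le_mul_of_nonneg_left (not_le.1 hn).le hy₀.le
          have h5 : 1 * T ≤ (M * y₀) * T := mul_le_mul_of_nonneg_right hM (by linarith)
          linarith
        have h6 : y₀ * ((n + 1 : ℕ) : ℝ) ≤ Real.pi / 2 * (y₀ * ((n + 1 : ℕ) : ℝ)) := by
          have h7 : 0 ≤ y₀ * ((n + 1 : ℕ) : ℝ) := by positivity
          nlinarith
        linarith
      calc |C| * y₀ * (((n + 1 : ℕ) : ℝ) ^ 2 * Real.exp (-(Real.pi * y₀) * ((n + 1 : ℕ) : ℝ)))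
          ≤ |C| * y₀ * (((n + 1 : ℕ) : ℝ) ^ 2 * (Real.exp (-(Real.pi / 2 * y₀) * ((n + 1 : ℕ) : ℝ)) * Real.exp (-T))) :=
            mul_le_mul_of_nonneg_left (mul_le_mul_of_nonneg_left h2 (by positivity)) (by positivity)
        _ = _ := by ring
  have hhs' : Summable fun n : ℕ => hh (n + 1) * Real.exp (-T) := hhs.mul_right _
  have hs2 : Summable fun n => |g n - g1 n| := Summable.of_nonneg_of_le (fun _ => abs_nonneg _) hrb hhs'
  have hs3 : Summable fun n => g n - g1 n := hs2.of_abs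
  have e1 : ∑' n, g n = ∑' n, g1 n + ∑' n, (g n - g1 n) := by
    rw [← hs1.tsum_add hs3]
    exact tsum_congr fun n => by ring
  have e2 : ph b χ T a (x + u) y = ∑' n, g n := by
    rw [ph_eq, hg]
  have e3 : rp X χ T a (M * T) b y u x = ∑' n, g1 n := by
    rw [tsum_eq_sum hX1, hg1]
    unfold rp
    rw [← sum_range_Icc (fun n => tm T (tr (M * T) a) b (x + u) y n * χ n)]
  rw [e2, e3, e1, add_sub_cancel_left]
  have h5 : |∑' n, (g n - g1 n)| ≤ ∑' n, |g n - g1 n| := by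
    have := norm_tsum_le_tsum_norm (f := fun n => g n - g1 n) (by simpa using hs2)
    simpa using this
  refine h5.trans ((hs2.tsum_le_tsum hrb hhs').trans (le_of_eq ?_))
  rw [tsum_mul_right]

/-- size and Lipschitz bounds of the coefficients -/
theorem btu_bd (h2 : S_KBB) (y₀ Y : ℝ) (hy₀ : 0 < y₀) : ∃ K : ℝ, 0 ≤ K ∧
    ∀ (T : ℝ) (a : ℕ → ℝ) (R : ℝ) (b : Bool) (n : ℤ), 1 ≤ T → n ≠ 0 →
      (∀ y u : ℝ, y₀ ≤ y → y ≤ Y → ‖btu T a R b y u n‖ ≤ |tr R a n.natAbs| * K) ∧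
      ∀ y y' u u' δ : ℝ, y₀ ≤ y → y ≤ Y → y₀ ≤ y' → y' ≤ Y → |y - y'| ≤ δ → |u - u'| ≤ δ →
        ‖btu T a R b y u n - btu T a R b y' u' n‖ ≤ |tr R a n.natAbs| * K * (T * n.natAbs * δ) := by
  obtain ⟨C, hC, hamp⟩ := amp h2
  have hpi := Real.pi_pos
  obtain ⟨K₂, hK₂⟩ : ∃ K₂ : ℝ, K₂ = C * (1 / √y₀ + √Y / y₀ + √Y * (2 * Real.pi)) := ⟨_, rfl⟩
  have hK₂0 : 0 ≤ K₂ := by
    rw [hK₂]
    positivity
  have hYC : 0 ≤ √Y * C := mul_nonneg (Real.sqrt_nonneg _) hC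
  refine ⟨K₂ + √Y * C * (2 * Real.pi + 1), by positivity, ?_⟩
  intro T a R b n hT hn
  have hn1 : 1 ≤ n.natAbs := Int.natAbs_pos.2 hn
  have hn1' : (1 : ℝ) ≤ (n.natAbs : ℝ) := by exact_mod_cast hn1
  have hsz : ∀ y : ℝ, y₀ ≤ y → y ≤ Y → |tm T (tr R a) true 0 y n.natAbs| ≤ √Y * C * |tr R a n.natAbs| := by
    intro y hy hyY
    refine (tm_bd C T (hamp T hT).1 (tr R a) true 0 y Y (hy₀.trans_le hy) hyY n.natAbs hn1).trans ?_
    have h3 : (1 : ℝ) ≤ √(1 + |T - 2 * Real.pi * n.natAbs * y|) := by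
      rw [Real.one_le_sqrt]
      have := abs_nonneg (T - 2 * Real.pi * n.natAbs * y)
      linarith
    refine (div_le_self (by positivity) h3).trans (le_of_eq ?_)
    ring
  have hnorm : ∀ y u : ℝ, ‖btu T a R b y u n‖ = |tm T (tr R a) true 0 y n.natAbs| / 2 := by
    intro y u
    unfold btu
    rw [norm_mul, ee_norm, mul_one, bt_eq T a R b y n hn, norm_mul, unit_norm b n hn, mul_one, Complex.norm_real,
      Real.norm_eq_abs, abs_div, abs_of_pos (by norm_num : (0 : ℝ) < 2)]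
  have ha0 := abs_nonneg (tr R a n.natAbs)
  refine ⟨?_, ?_⟩
  · intro y u hy hyY
    rw [hnorm]
    have h3 := hsz y hy hyY
    have h4 : 0 ≤ √Y * C * |tr R a n.natAbs| := by positivity
    have h5 : 0 ≤ |tr R a n.natAbs| * (K₂ + √Y * C * (2 * Real.pi)) := by positivity
    calc |tm T (tr R a) true 0 y n.natAbs| / 2 ≤ √Y * C * |tr R a n.natAbs| := by linarith
      _ ≤ |tr R a n.natAbs| * (K₂ + √Y * C * (2 * Real.pi)) + √Y * C * |tr R a n.natAbs| := by linarith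
      _ = _ := by ring
  · intro y y' u u' δ hy hyY hy' hyY' hyy huu
    have hδ : 0 ≤ δ := (abs_nonneg _).trans hyy
    have h3 := tm_lip C T hC hT (hamp T hT).1 (hamp T hT).2 (tr R a) true 0 y 0 y' y₀ Y δ hy₀ hy hy' hyY'
      (by rw [sub_self, abs_zero]; exact hδ) hyy n.natAbs hn1
    rw [← hK₂] at h3
    have h4 := hsz y' hy' hyY'
    obtain ⟨ρ, hρ⟩ : ∃ ρ : ℝ, ρ = tm T (tr R a) true 0 y n.natAbs := ⟨_, rfl⟩
    obtain ⟨ρ', hρ'⟩ : ∃ ρ' : ℝ, ρ' = tm T (tr R a) true 0 y' n.natAbs := ⟨_, rfl⟩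
    rw [← hρ, ← hρ'] at h3
    rw [← hρ'] at h4
    unfold btu
    rw [bt_eq T a R b y n hn, bt_eq T a R b y' n hn, ← hρ, ← hρ']
    obtain ⟨w, hw⟩ : ∃ w : ℂ, w = (if b then (1 : ℂ) else -Complex.I * (n.sign : ℂ)) := ⟨_, rfl⟩
    have hw1 : ‖w‖ = 1 := by
      rw [hw]
      exact unit_norm b n hn
    rw [← hw]
    have e1 : ((ρ / 2 : ℝ) : ℂ) * w * ee ((n : ℝ) * u) - ((ρ' / 2 : ℝ) : ℂ) * w * ee ((n : ℝ) * u') =
        w * ((((ρ - ρ') / 2 : ℝ) : ℂ) * ee ((n : ℝ) * u) + ((ρ' / 2 : ℝ) : ℂ) * (ee ((n : ℝ) * u) - ee ((n : ℝ) * u'))) := by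
      push_cast
      ring
    rw [e1, norm_mul, hw1, one_mul]
    refine (norm_add_le _ _).trans ?_
    rw [norm_mul, norm_mul, ee_norm, mul_one, Complex.norm_real, Complex.norm_real, Real.norm_eq_abs, Real.norm_eq_abs,
      abs_div, abs_div, abs_of_pos (by norm_num : (0 : ℝ) < 2)]
    have h5 : ‖ee ((n : ℝ) * u) - ee ((n : ℝ) * u')‖ ≤ 2 * Real.pi * (n.natAbs * δ) := by
      have h6 := norm_ee_sub ((n : ℝ) * u') ((n : ℝ) * (u - u'))
      have h7 : (n : ℝ) * u' + (n : ℝ) * (u - u') = (n : ℝ) * u := by ring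
      rw [h7, abs_mul] at h6
      refine h6.trans (mul_le_mul_of_nonneg_left ?_ (by positivity))
      have h8 : |(n : ℝ)| = (n.natAbs : ℝ) := by
        rw [Nat.cast_natAbs, Int.cast_abs]
      rw [h8]
      exact mul_le_mul_of_nonneg_left huu (by linarith)
    have h6 : |ρ'| / 2 * ‖ee ((n : ℝ) * u) - ee ((n : ℝ) * u')‖ ≤
        √Y * C * |tr R a n.natAbs| * (2 * Real.pi * (n.natAbs * δ)) := by
      refine mul_le_mul ?_ h5 (norm_nonneg _) (by positivity)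
      have := abs_nonneg ρ'
      linarith
    have h7 : 0 ≤ √Y * C * |tr R a n.natAbs| * (2 * Real.pi) := by positivity
    have h8 : (n.natAbs : ℝ) * δ ≤ T * n.natAbs * δ := by
      have h9 : 0 ≤ (n.natAbs : ℝ) * δ := by positivity
      nlinarith
    have h9 := abs_nonneg (ρ - ρ')
    calc |ρ - ρ'| / 2 + |ρ'| / 2 * ‖ee ((n : ℝ) * u) - ee ((n : ℝ) * u')‖
        ≤ |tr R a n.natAbs| * K₂ * (T * n.natAbs * δ) + √Y * C * |tr R a n.natAbs| * (2 * Real.pi * (n.natAbs * δ)) := by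
          linarith
      _ ≤ |tr R a n.natAbs| * K₂ * (T * n.natAbs * δ) + √Y * C * |tr R a n.natAbs| * (2 * Real.pi) * (T * n.natAbs * δ) := by
          have h10 := mul_le_mul_of_nonneg_left h8 h7
          linarith
      _ ≤ |tr R a n.natAbs| * K₂ * (T * n.natAbs * δ) + √Y * C * |tr R a n.natAbs| * (2 * Real.pi) * (T * n.natAbs * δ) +
          √Y * C * |tr R a n.natAbs| * (T * n.natAbs * δ) := by
          have h11 : 0 ≤ √Y * C * |tr R a n.natAbs| * (T * n.natAbs * δ) := by positivity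
          linarith
      _ = _ := by ring

end Pool.Agent.Q150.L2.GQ
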