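import Pool.Agent.Q150.L2.GQb

/-!
# Project L2Q (helper255), job GMCQ: the net
-/

set_option autoImplicit false

namespace Pool.Agent.Q150.L2.GQ

open Filter Topology MeasureTheory Finset
open Pool.Agent.Q255.IC Pool.Agent.Q255.IR Pool.Agent.Q255.EP Pool.Agent.Q255.L2
open Pool.Agent.Q65.L2.Fou (ee_exp ee_norm ee_cont ee_add ee_int int_ee_mul)
open Pool.Agent.Q65.L2 (tm sh tm_lip tm_bd amp tm_per sum_range_Icc)
open Pool.Agent.Q68.L2 (coef_pt exists_scale1)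
open Pool.Agent.Q195.L2 (ph_eq ph_cont coef_bd)

theorem net_y (y₀ y₁ y : ℝ) (hy₀ : 0 < y₀) (hy : y₀ ≤ y) (hy1 : y ≤ y₁) (N : ℕ) (hN : 1 ≤ N) :
    ∃ l : ℕ, l < (⌈y₁⌉₊ + 1) * N + 1 ∧ y₀ ≤ (l : ℝ) / N ∧ (l : ℝ) / N ≤ y₁ + 1 ∧ |y - (l : ℝ) / N| ≤ 1 / N := by
  have hNR : (1 : ℝ) ≤ N := by exact_mod_cast hN
  have hN0 : (0 : ℝ) < N := by linarith
  have hy0 : 0 < y := hy₀.trans_le hy
  have h1 : y * N ≤ (⌈y * N⌉₊ : ℝ) := Nat.le_ceil _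
  have h2 : (⌈y * N⌉₊ : ℝ) < y * N + 1 := Nat.ceil_lt_add_one (by positivity)
  have h3 : y₁ ≤ ⌈y₁⌉₊ := Nat.le_ceil _
  have h4 : y ≤ (⌈y * N⌉₊ : ℝ) / N := by
    rw [le_div_iff₀ hN0]
    exact h1
  have h5 : (⌈y * N⌉₊ : ℝ) / N ≤ y + 1 / N := by
    rw [div_le_iff₀ hN0, add_mul, one_div, inv_mul_cancel₀ hN0.ne']
    exact h2.le
  have h6 : 1 / (N : ℝ) ≤ 1 := by
    rw [div_le_one hN0]
    exact hNR
  refine ⟨⌈y * N⌉₊, ?_, hy.trans h4, by linarith, ?_⟩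
  · have h7 : (⌈y * N⌉₊ : ℝ) < (((⌈y₁⌉₊ + 1) * N + 1 : ℕ) : ℝ) := by
      push_cast
      have h8 : y * N ≤ (⌈y₁⌉₊ + 1) * N := mul_le_mul_of_nonneg_right (by linarith) hN0.le
      linarith
    exact_mod_cast h7
  · rw [abs_le]
    have h7 : (0 : ℝ) < 1 / N := by positivity
    constructor <;> linarith

theorem net_u (u : ℝ) (N : ℕ) (hN : 1 ≤ N) :
    ∃ p : ℕ, p < N + 1 ∧ |Int.fract u - (p : ℝ) / N| ≤ 1 / N := by
  have hNR : (1 : ℝ) ≤ N := by exact_mod_cast hN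
  have hN0 : (0 : ℝ) < N := by linarith
  have h0 := Int.fract_nonneg u
  have h1 := Int.fract_lt_one u
  have h2 : (⌊Int.fract u * N⌋₊ : ℝ) ≤ Int.fract u * N := Nat.floor_le (by positivity)
  have h3 : Int.fract u * N < ⌊Int.fract u * N⌋₊ + 1 := Nat.lt_floor_add_one _
  refine ⟨⌊Int.fract u * N⌋₊, ?_, ?_⟩
  · have h4 : (⌊Int.fract u * N⌋₊ : ℝ) < ((N + 1 : ℕ) : ℝ) := by
      push_cast
      nlinarith
    exact_mod_cast h4
  · rw [abs_le]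
    constructor
    · have h5 : (⌊Int.fract u * N⌋₊ : ℝ) / N ≤ Int.fract u := by
        rw [div_le_iff₀ hN0]
        exact h2
      have h6 : (0 : ℝ) < 1 / N := by positivity
      linarith
    · rw [sub_le_iff_le_add, ← add_div, le_div_iff₀ hN0]
      linarith

theorem btu_fract (T : ℝ) (a : ℕ → ℝ) (R : ℝ) (b : Bool) (y u : ℝ) (n : ℤ) :
    btu T a R b y u n = btu T a R b y (Int.fract u) n := by
  unfold btu
  congr 1
  have h1 : (n : ℝ) * u = (n : ℝ) * Int.fract u + ((n * ⌊u⌋ : ℤ) : ℝ) := by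
    have h2 := Int.fract_add_floor u
    push_cast
    calc (n : ℝ) * u = n * (Int.fract u + ⌊u⌋) := by rw [h2]
      _ = _ := by ring
  rw [h1, ee_add, ee_int, mul_one]

theorem btu_zero (T : ℝ) (a : ℕ → ℝ) (R : ℝ) (b : Bool) (y u : ℝ) (X : ℕ) (hR : R ≤ X) (n : ℤ) (hn : n ∉ Bx X) :
    btu T a R b y u n = 0 := by
  unfold btu bt
  rw [if_neg, zero_mul]
  rintro ⟨h1, h2⟩
  apply hn
  rw [mem_Bx']
  refine ⟨Int.natAbs_pos.2 h1, ?_⟩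
  have h3 : ((n.natAbs : ℕ) : ℝ) ≤ X := h2.trans hR
  exact_mod_cast h3

section fam

variable {ι : Type} (T : ι → ℝ) (a : ι → ℕ → ℝ) (mem : ℕ → Finset ι) (y₀ Y : ℝ) (M L r Z : ℕ)

open Classical in
/-- the functions of the net at the scale `J` -/
noncomputable def FF (J : ℕ) : Finset (ℤ → ℂ) :=
  if r ≤ J then
    ((mem J ×ˢ (range (2 ^ (L * J) + 1) ×ˢ (range (Z * 2 ^ (L * J) + 1) ×ˢ (univ : Finset Bool)))).filter
      (fun q => y₀ ≤ (q.2.2.1 : ℝ) / ((2 ^ (L * J) : ℕ) : ℝ) ∧ (q.2.2.1 : ℝ) / ((2 ^ (L * J) : ℕ) : ℝ) ≤ Y)).image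
      (fun q => btu (T q.1) (a q.1) (M * T q.1) q.2.2.2 ((q.2.2.1 : ℝ) / ((2 ^ (L * J) : ℕ) : ℝ))
        ((q.2.1 : ℝ) / ((2 ^ (L * J) : ℕ) : ℝ)))
  else ∅

theorem mem_FF {J : ℕ} {β : ℤ → ℂ} : β ∈ FF T a mem y₀ Y M L r Z J ↔ r ≤ J ∧ ∃ (i : ι) (p l : ℕ) (b : Bool),
    i ∈ mem J ∧ p < 2 ^ (L * J) + 1 ∧ l < Z * 2 ^ (L * J) + 1 ∧ y₀ ≤ (l : ℝ) / ((2 ^ (L * J) : ℕ) : ℝ) ∧
      (l : ℝ) / ((2 ^ (L * J) : ℕ) : ℝ) ≤ Y ∧
      β = btu (T i) (a i) (M * T i) b ((l : ℝ) / ((2 ^ (L * J) : ℕ) : ℝ)) ((p : ℝ) / ((2 ^ (L * J) : ℕ) : ℝ)) := by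
  classical
  unfold FF
  split_ifs with h
  · rw [mem_image]
    constructor
    · rintro ⟨⟨i, p, l, b⟩, hq, rfl⟩
      rw [mem_filter, mem_product, mem_product, mem_product, mem_range, mem_range] at hq
      exact ⟨h, i, p, l, b, hq.1.1, hq.1.2.1, hq.1.2.2.1, hq.2.1, hq.2.2, rfl⟩
    · rintro ⟨_, i, p, l, b, h1, h2, h3, h4, h5, rfl⟩
      refine ⟨(i, p, l, b), ?_, rfl⟩
      rw [mem_filter, mem_product, mem_product, mem_product, mem_range, mem_range]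
      exact ⟨⟨h1, h2, h3, mem_univ _⟩, h4, h5⟩
  · constructor
    · intro h'
      simp at h'
    · rintro ⟨h', _⟩
      exact absurd h' h

theorem card_FF (J : ℕ) : (FF T a mem y₀ Y M L r Z J).card ≤ (mem J).card * ((2 ^ (L * J) + 1) *
    ((Z * 2 ^ (L * J) + 1) * 2)) := by
  classical
  unfold FF
  split_ifs with h
  · refine card_image_le.trans ((card_filter_le _ _).trans (le_of_eq ?_))
    rw [card_product, card_product, card_product, card_range, card_range, card_univ, Fintype.card_bool]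
  · rw [card_empty]
    exact Nat.zero_le _

/-- the number of functions -/
theorem card_FF_exp (A : ℝ) (hmem : ∀ J, ((mem J).card : ℝ) ≤ |A| * ((2 : ℝ) ^ J) ^ |A|) :
    ∃ A' : ℝ, ∀ J : ℕ, ((FF T a mem y₀ Y M L r Z J).card : ℝ) ≤ Real.exp (A' * ((J : ℝ) + 1)) := by
  obtain ⟨K, hK⟩ : ∃ K : ℝ, K = (|A| + 1) * (2 * ((Z + 1) * 2)) := ⟨_, rfl⟩
  have hA0 := abs_nonneg A
  have hZ0 : (0 : ℝ) ≤ Z := Nat.cast_nonneg _
  have hK1 : 1 ≤ K := by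
    rw [hK]
    nlinarith
  have hlK : 0 ≤ Real.log K := Real.log_nonneg hK1
  have hl2 : 0 < Real.log 2 := Real.log_pos (by norm_num)
  refine ⟨Real.log K + (|A| + 2 * L) * Real.log 2, fun J => ?_⟩
  obtain ⟨P, hP⟩ : ∃ P : ℝ, P = (2 : ℝ) ^ J := ⟨_, rfl⟩
  have hP1 : 1 ≤ P := by
    rw [hP]
    exact one_le_pow₀ (by norm_num)
  have hP0 : 0 < P := by linarith
  have hPL : ((2 ^ (L * J) : ℕ) : ℝ) = P ^ L := by
    rw [hP, ← pow_mul, mul_comm J L]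
    push_cast
    rfl
  have hPL1 : 1 ≤ P ^ L := one_le_pow₀ hP1
  have h1 : ((FF T a mem y₀ Y M L r Z J).card : ℝ) ≤ (mem J).card * ((P ^ L + 1) * ((Z * P ^ L + 1) * 2)) := by
    have h2 : ((FF T a mem y₀ Y M L r Z J).card : ℝ) ≤ (((mem J).card * ((2 ^ (L * J) + 1) *
      ((Z * 2 ^ (L * J) + 1) * 2)) : ℕ) : ℝ) := by exact_mod_cast card_FF T a mem y₀ Y M L r Z J
    refine h2.trans (le_of_eq ?_)
    rw [← hPL]
    push_cast
    ring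
  have h3 : ((mem J).card : ℝ) ≤ (|A| + 1) * P ^ |A| := by
    refine (hmem J).trans ?_
    rw [← hP]
    have : 0 ≤ P ^ |A| := by positivity
    linarith
  have h4 : (P ^ L + 1) * ((Z * P ^ L + 1) * 2) ≤ (2 * P ^ L) * (((Z + 1) * P ^ L) * 2) := by
    refine mul_le_mul (by linarith) ?_ (by positivity) (by positivity)
    nlinarith
  refine h1.trans ((mul_le_mul h3 h4 (by positivity) (by positivity)).trans ?_)
  have h5 : (|A| + 1) * P ^ |A| * ((2 * P ^ L) * (((Z + 1) * P ^ L) * 2)) = K * (P ^ |A| * (P ^ L * P ^ L)) := by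
    rw [hK]
    ring
  have h6 : P ^ |A| * (P ^ L * P ^ L) = Real.exp ((|A| + 2 * L) * Real.log 2 * J) := by
    have e1 : P ^ L * P ^ L = P ^ ((2 * L : ℕ) : ℝ) := by
      rw [Real.rpow_natCast, two_mul, pow_add]
    rw [e1, ← Real.rpow_add hP0, Real.rpow_def_of_pos hP0, hP, Real.log_pow]
    congr 1
    push_cast
    ring
  rw [h5, h6]
  calc K * Real.exp ((|A| + 2 * L) * Real.log 2 * J)
      = Real.exp (Real.log K) * Real.exp ((|A| + 2 * L) * Real.log 2 * J) := by rw [Real.exp_log (by linarith)]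
    _ = Real.exp (Real.log K + (|A| + 2 * L) * Real.log 2 * J) := by rw [Real.exp_add]
    _ ≤ _ := by
        apply Real.exp_le_exp.2
        have h7 : 0 ≤ Real.log K * J := by positivity
        have h8 : 0 ≤ (|A| + 2 * L) * Real.log 2 := by positivity
        nlinarith

/-- approximation by the functions of the net -/
theorem net_one (y₁ K C₁ : ℝ) (hK0 : 0 ≤ K) (hC₁ : 0 ≤ C₁) (hy₀ : 0 < y₀)
    (hK : ∀ (T : ℝ) (a : ℕ → ℝ) (R : ℝ) (b : Bool) (n : ℤ), 1 ≤ T → n ≠ 0 →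
      (∀ y u : ℝ, y₀ ≤ y → y ≤ y₁ + 1 → ‖btu T a R b y u n‖ ≤ |tr R a n.natAbs| * K) ∧
      ∀ y y' u u' δ : ℝ, y₀ ≤ y → y ≤ y₁ + 1 → y₀ ≤ y' → y' ≤ y₁ + 1 → |y - y'| ≤ δ → |u - u'| ≤ δ →
        ‖btu T a R b y u n - btu T a R b y' u' n‖ ≤ |tr R a n.natAbs| * K * (T * n.natAbs * δ))
    (J : ℕ) (hrJ : r ≤ J) (i : ι) (hi : i ∈ mem J) (b : Bool) (y u : ℝ) (hy : y₀ ≤ y) (hy1 : y ≤ y₁)
    (hT : 1 ≤ T i) (hTJ : T i ≤ 2 ^ J) (ha : ∀ n : ℕ, 1 ≤ n → |a i n| ≤ C₁ * (n * T i)) :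
    ∃ β' ∈ FF T a mem y₀ (y₁ + 1) M L r (⌈y₁⌉₊ + 1) J, ∀ n ∈ Bx (2 ^ J),
      ‖btu (T i) (a i) (M * T i) b y u n‖ ≤ (C₁ * K + 1) * ((2 : ℝ) ^ J) ^ 2 ∧
      ‖β' n‖ ≤ (C₁ * K + 1) * ((2 : ℝ) ^ J) ^ 2 ∧
      ‖btu (T i) (a i) (M * T i) b y u n - β' n‖ ≤ C₁ * K * ((2 : ℝ) ^ J) ^ 4 / ((2 : ℝ) ^ J) ^ L := by
  obtain ⟨N, hN⟩ : ∃ N : ℕ, N = 2 ^ (L * J) := ⟨_, rfl⟩
  have hN1 : 1 ≤ N := by
    rw [hN]
    exact Nat.one_le_two_pow
  obtain ⟨P, hP⟩ : ∃ P : ℝ, P = (2 : ℝ) ^ J := ⟨_, rfl⟩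
  have hP1 : 1 ≤ P := by
    rw [hP]
    exact one_le_pow₀ (by norm_num)
  have hP0 : 0 < P := by linarith
  have hNP : (N : ℝ) = P ^ L := by
    rw [hP, ← pow_mul, mul_comm J L, hN]
    push_cast
    rfl
  obtain ⟨l, hl1, hl2, hl3, hl4⟩ := net_y y₀ y₁ y hy₀ hy hy1 N hN1
  obtain ⟨p, hp1, hp2⟩ := net_u u N hN1
  refine ⟨btu (T i) (a i) (M * T i) b ((l : ℝ) / N) ((p : ℝ) / N), ?_, ?_⟩
  · rw [mem_FF]
    refine ⟨hrJ, i, p, l, b, hi, ?_, ?_, ?_, ?_, ?_⟩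
    · rw [← hN]
      exact hp1
    · rw [← hN]
      exact hl1
    · rw [← hN]
      exact hl2
    · rw [← hN]
      exact hl3
    · rw [← hN]
  · intro n hn
    rw [mem_Bx'] at hn
    have hn0 : n ≠ 0 := Int.natAbs_pos.1 hn.1
    obtain ⟨hb1, hb2⟩ := hK (T i) (a i) (M * T i) b n hT hn0
    have hnP : (n.natAbs : ℝ) ≤ P := by
      rw [hP]
      exact_mod_cast hn.2
    have hTP : T i ≤ P := by
      rw [hP]
      exact hTJ
    have htr : |tr (M * T i) (a i) n.natAbs| ≤ C₁ * P ^ 2 := by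
      refine (tr_le _ _ _).trans ((ha _ hn.1).trans (mul_le_mul_of_nonneg_left ?_ hC₁))
      rw [sq]
      exact mul_le_mul hnP hTP (by linarith) hP0.le
    rw [← hP, btu_fract (T i) (a i) (M * T i) b y u n]
    have hbig : |tr (M * T i) (a i) n.natAbs| * K ≤ (C₁ * K + 1) * P ^ 2 := by
      have h1 := mul_le_mul_of_nonneg_right htr hK0
      have h2 : 0 ≤ P ^ 2 := by positivity
      nlinarith
    refine ⟨(hb1 _ _ hy (by linarith)).trans hbig, (hb1 _ _ hl2 hl3).trans hbig, ?_⟩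
    refine (hb2 y ((l : ℝ) / N) (Int.fract u) ((p : ℝ) / N) (1 / N) hy (by linarith) hl2 hl3 hl4 hp2).trans ?_
    rw [hNP]
    have h1 : |tr (M * T i) (a i) n.natAbs| * K ≤ C₁ * P ^ 2 * K := mul_le_mul_of_nonneg_right htr hK0
    have h2 : T i * n.natAbs ≤ P * P := mul_le_mul hTP hnP (Nat.cast_nonneg _) hP0.le
    have h3 : T i * n.natAbs * (1 / P ^ L) ≤ P * P * (1 / P ^ L) := mul_le_mul_of_nonneg_right h2 (by positivity)
    refine (mul_le_mul h1 h3 (by positivity) (by positivity)).trans (le_of_eq ?_)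
    ring

end fam

/-- the error of the net -/
theorem net_num (k : ℕ) (K C₁ P : ℝ) (hK : 0 ≤ K) (hC₁ : 0 ≤ C₁) (hP : 1 ≤ P) :
    (2 * P + 1) ^ k * (k * ((C₁ * K + 1) * P ^ 2) ^ k * (C₁ * K * P ^ 4 / P ^ (3 * k + 5))) ≤
      3 ^ k * (k * (C₁ * K + 1) ^ k * (C₁ * K)) * (1 / P) := by
  have hP0 : 0 < P := by linarith
  have h1 : (2 * P + 1) ^ k ≤ (3 * P) ^ k := pow_le_pow_left₀ (by linarith) (by linarith) k
  refine (mul_le_mul_of_nonneg_right h1 (by positivity)).trans (le_of_eq ?_)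
  have e : P ^ (3 * k + 5) = P ^ k * (P ^ 2) ^ k * P ^ 4 * P := by
    rw [← pow_mul, ← pow_add, ← pow_add, ← pow_succ]
    congr 1
    ring
  rw [e, mul_pow, mul_pow]
  field_simp

end Pool.Agent.Q150.L2.GQ
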