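import Pool.Agent.Q150.L2.GQc

/-!
# Project L2Q (helper255), job GMCQ: all mixed moments at shifted points for almost all quadratic twists
-/

set_option autoImplicit false

namespace Pool.Agent.Q150.L2.GQ

open Filter Topology MeasureTheory Finset
open Pool.Agent.Q255.IC Pool.Agent.Q255.IR Pool.Agent.Q255.EP Pool.Agent.Q255.L2
open Pool.Agent.Q65.L2.Fou (ee_exp ee_norm ee_cont ee_add ee_int int_ee_mul)
open Pool.Agent.Q68.L2 (coef_pt exists_scale1)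
open Pool.Agent.Q195.L2 (ph_eq ph_cont coef_bd)

theorem jc_le (m n : ℕ) : |jc m n| ≤ 1 := by
  unfold jc
  rcases jacobiSym.trichotomy (n : ℤ) m with h0 | h0 | h0 <;> rw [h0] <;> norm_num

/-- the counts for the functions of the net -/
theorem counts (hB2 : S_GMB2) {ι : Type} {T : ι → ℝ} {a : ι → ℕ → ℝ} (hT : ∀ i, 1 ≤ T i) (hCoef : Coef T a)
    (mem : ℕ → Finset ι) (y₀ Y : ℝ) (M L r Z k q : ℕ) (hy₀ : 0 < y₀) (hY : y₀ ≤ Y) (hM : (1 : ℝ) ≤ M) (hk : 1 ≤ k)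
    (hr1 : (M : ℝ) ≤ 2 ^ r) (hr2 : (2 : ℝ) ^ r ≤ 2 * M)
    (hmem : ∀ J, r ≤ J → ∀ i ∈ mem J, T i ≤ 2 ^ (J - r) ∧ (2 : ℝ) ^ (J - r) ≤ 2 ^ q * T i) :
    ∃ c C₀ : ℝ, 0 < c ∧ ∀ J, ∀ β : Fin k → ℤ → ℂ, (∀ j, β j ∈ FF T a mem y₀ Y M L r Z J) → ∀ h : ℤ,
      U1 k (2 ^ J) h β ≤ C₀ * (2 : ℝ) ^ (-(c * J)) ∧ U2 k (2 ^ J) h β ≤ C₀ * (2 : ℝ) ^ (-(c * J)) := by
  obtain ⟨c, C, hc, hC, hU⟩ := hB2 ι T a hT hCoef y₀ Y M k q hy₀ hY hM hk
  refine ⟨c, C * (2 : ℝ) ^ (c * r), hc, fun J β hβ h => ?_⟩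
  have hF := fun j => (mem_FF T a mem y₀ Y M L r Z).1 (hβ j)
  have hrJ : r ≤ J := (hF ⟨0, by omega⟩).1
  have hF2 := fun j => (hF j).2
  choose i p l b h1 h2 h3 h4 h5 h6 using hF2
  have e1 : (2 : ℝ) ^ J = 2 ^ r * 2 ^ (J - r) := by
    rw [← pow_add]
    congr 1
    omega
  have h2J : (0 : ℝ) < 2 ^ (J - r) := by positivity
  have h7 := hU (J - r) (2 ^ J) i b (fun j => (l j : ℝ) / ((2 ^ (L * J) : ℕ) : ℝ)) β h
    (fun j => hmem J hrJ (i j) (h1 j)) (fun j => ⟨h4 j, h5 j⟩) (fun j m => by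
      rw [h6 j]
      unfold btu
      rw [norm_mul, ee_norm, mul_one]) (by
      push_cast
      rw [e1]
      exact mul_le_mul_of_nonneg_right hr1 h2J.le) (by
      push_cast
      rw [e1]
      refine mul_le_mul_of_nonneg_right ?_ h2J.le
      linarith)
  have e2 : C * (2 : ℝ) ^ (-(c * ((J - r : ℕ) : ℝ))) = C * (2 : ℝ) ^ (c * r) * (2 : ℝ) ^ (-(c * J)) := by
    rw [mul_assoc, ← Real.rpow_add (by norm_num), Nat.cast_sub hrJ]
    congr 2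
    ring
  rw [e2] at h7
  exact h7

/-- the Fourier coefficients of the products -/
theorem coefs {ι : Type} (T : ι → ℝ) (a : ι → ℕ → ℝ) (mem : ℕ → Finset ι) (y₀ : ℝ) (M r : ℕ)
    (y₁ K C₁ : ℝ) (k : ℕ) (hK0 : 0 ≤ K) (hC₁ : 0 ≤ C₁) (hy₀ : 0 < y₀)
    (hK : ∀ (T : ℝ) (a : ℕ → ℝ) (R : ℝ) (b : Bool) (n : ℤ), 1 ≤ T → n ≠ 0 →
      (∀ y u : ℝ, y₀ ≤ y → y ≤ y₁ + 1 → ‖btu T a R b y u n‖ ≤ |tr R a n.natAbs| * K) ∧
      ∀ y y' u u' δ : ℝ, y₀ ≤ y → y ≤ y₁ + 1 → y₀ ≤ y' → y' ≤ y₁ + 1 → |y - y'| ≤ δ → |u - u'| ≤ δ →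
        ‖btu T a R b y u n - btu T a R b y' u' n‖ ≤ |tr R a n.natAbs| * K * (T * n.natAbs * δ))
    (J : ℕ) (hrJ : r ≤ J) (χ : ℕ → ℝ) (hχ : ∀ n, |χ n| ≤ 1) (Q : ℝ)
    (hQ : ∀ β : Fin k → ℤ → ℂ, (∀ j, β j ∈ FF T a mem y₀ (y₁ + 1) M (3 * k + 5) r (⌈y₁⌉₊ + 1) J) →
      ∀ h : ℤ, |h| ≤ 2 ^ J → ‖TS χ k (2 ^ J) h β - if h = 0 then DB k (2 ^ J) β else 0‖ ≤ Q)
    (i : Fin k → ι) (b : Fin k → Bool) (u y : Fin k → ℝ) (hi : ∀ j, i j ∈ mem J)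
    (hy : ∀ j, y₀ ≤ y j ∧ y j ≤ y₁) (hT : ∀ j, 1 ≤ T (i j)) (hTJ : ∀ j, T (i j) ≤ 2 ^ J)
    (ha : ∀ j, ∀ n : ℕ, 1 ≤ n → |a (i j) n| ≤ C₁ * (n * T (i j))) (h : ℤ) (hh : |h| ≤ 2 ^ J) :
    ‖TS χ k (2 ^ J) h (fun j => btu (T (i j)) (a (i j)) (M * T (i j)) (b j) (y j) (u j)) -
      if h = 0 then DB k (2 ^ J) (fun j => btu (T (i j)) (a (i j)) (M * T (i j)) (b j) (y j) (u j)) else 0‖ ≤
      Q + 2 * (3 ^ k * (k * (C₁ * K + 1) ^ k * (C₁ * K)) * (1 / (2 : ℝ) ^ J)) := by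
  obtain ⟨P, hP⟩ : ∃ P : ℝ, P = (2 : ℝ) ^ J := ⟨_, rfl⟩
  have hP1 : 1 ≤ P := by
    rw [hP]
    exact one_le_pow₀ (by norm_num)
  have hP0 : 0 < P := by linarith
  have hnet := fun j => net_one T a mem y₀ M (3 * k + 5) r y₁ K C₁ hK0 hC₁ hy₀ hK J hrJ (i j) (hi j) (b j)
    (y j) (u j) (hy j).1 (hy j).2 (hT j) (hTJ j) (ha j)
  choose β' h1 h2 using hnet
  rw [← hP] at h2
  obtain ⟨β, hβ⟩ : ∃ β : Fin k → ℤ → ℂ, β = fun j => btu (T (i j)) (a (i j)) (M * T (i j)) (b j) (y j) (u j) :=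
    ⟨_, rfl⟩
  have hβj : ∀ j, btu (T (i j)) (a (i j)) (M * T (i j)) (b j) (y j) (u j) = β j := fun j => by rw [hβ]
  simp_rw [hβj] at h2
  have hβe : (fun j => btu (T (i j)) (a (i j)) (M * T (i j)) (b j) (y j) (u j)) = β := hβ.symm
  rw [hβe, ← hP]
  have hB : 1 ≤ (C₁ * K + 1) * P ^ 2 := by
    have h3 : 1 ≤ C₁ * K + 1 := by
      have : 0 ≤ C₁ * K := mul_nonneg hC₁ hK0
      linarith
    have h4 : 1 ≤ P ^ 2 := one_le_pow₀ hP1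
    exact one_le_mul_of_one_le_of_one_le h3 h4
  have hη : 0 ≤ C₁ * K * P ^ 4 / P ^ (3 * k + 5) := by positivity
  have hX : (((2 ^ J : ℕ) : ℕ) : ℝ) = P := by
    rw [hP]
    push_cast
    rfl
  have hTS := TS_close (2 ^ J) h χ hχ β β' _ _ hB hη (fun j n hn => (h2 j n hn).1) (fun j n hn => (h2 j n hn).2.1)
    (fun j n hn => (h2 j n hn).2.2)
  have hDB := DB_close (2 ^ J) β β' _ _ hB hη (fun j n hn => (h2 j n hn).1) (fun j n hn => (h2 j n hn).2.1)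
    (fun j n hn => (h2 j n hn).2.2)
  rw [hX] at hTS hDB
  have hnum := net_num k K C₁ P hK0 hC₁ hP1
  have hTS' := hTS.trans hnum
  have hDB' := hDB.trans hnum
  have hQ' := hQ β' h1 h hh
  have hE0 : 0 ≤ 3 ^ k * (k * (C₁ * K + 1) ^ k * (C₁ * K)) * (1 / P) := by positivity
  by_cases h0 : h = 0
  · rw [if_pos h0] at hQ' ⊢
    have e1 : TS χ k (2 ^ J) h β - DB k (2 ^ J) β = (TS χ k (2 ^ J) h β - TS χ k (2 ^ J) h β') +
        ((TS χ k (2 ^ J) h β' - DB k (2 ^ J) β') - (DB k (2 ^ J) β - DB k (2 ^ J) β')) := by ring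
    rw [e1]
    refine (norm_add_le _ _).trans ?_
    have e2 := norm_sub_le (TS χ k (2 ^ J) h β' - DB k (2 ^ J) β') (DB k (2 ^ J) β - DB k (2 ^ J) β')
    linarith
  · rw [if_neg h0, sub_zero] at hQ' ⊢
    have e1 : TS χ k (2 ^ J) h β = (TS χ k (2 ^ J) h β - TS χ k (2 ^ J) h β') + TS χ k (2 ^ J) h β' := by ring
    rw [e1]
    refine (norm_add_le _ _).trans ?_
    linarith

/-- from the coefficients to the intervals -/
theorem assemble (CF : ℝ)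
    (hF : ∀ (g : ℝ → ℝ) (G δ α β : ℝ) (H : ℕ), Continuous g → (∀ x, |g x| ≤ G) → 1 ≤ H → 0 ≤ α → α ≤ β → β ≤ 1 →
      (∀ h : ℤ, h ≠ 0 → |h| ≤ H → ‖∫ x in (0 : ℝ)..1, (g x : ℂ) * ee (-(h * x))‖ ≤ δ) →
        |(∫ x in α..β, g x) - (β - α) * ∫ x in (0 : ℝ)..1, g x| ≤ CF * (G / √(H : ℝ) + δ * (1 + Real.log H)))
    (k J J' : ℕ) (hJJ : J ≤ J') (χ : ℕ → ℝ) (β₁ : Fin k → ℤ → ℂ) (ρ φ : Fin k → ℝ → ℝ) (B η δ : ℝ) (hB : 1 ≤ B)
    (hη : 0 ≤ η)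
    (hρ : ∀ j x, pp (2 ^ J') (β₁ j) χ x = ((ρ j x : ℝ) : ℂ)) (hρc : ∀ j, Continuous (ρ j))
    (hφc : ∀ j, Continuous (φ j)) (hρB : ∀ j x, |ρ j x| ≤ B) (hφB : ∀ j x, |φ j x| ≤ B)
    (hρφ : ∀ j x, |φ j x - ρ j x| ≤ η)
    (hTS : ∀ h : ℤ, |h| ≤ 2 ^ J' → ‖TS χ k (2 ^ J') h β₁ - if h = 0 then DB k (2 ^ J') β₁ else 0‖ ≤ δ)
    (α β : ℝ) (hα : 0 ≤ α) (hαβ : α ≤ β) (hβ : β ≤ 1) :
    |(∫ x in α..β, ∏ j, φ j x) - (β - α) * (DB k (2 ^ J') β₁).re| ≤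
      k * B ^ k * η + CF * (B ^ k / √((2 : ℝ) ^ J) + δ * (1 + Real.log ((2 : ℝ) ^ J))) + δ := by
  have hB0 : 0 ≤ B := by linarith
  have hδ : 0 ≤ δ := (norm_nonneg _).trans (hTS 0 (by simp))
  obtain ⟨g, hg⟩ : ∃ g : ℝ → ℝ, g = fun x => ∏ j, ρ j x := ⟨_, rfl⟩
  have hgx : ∀ x, g x = ∏ j, ρ j x := fun x => by rw [hg]
  have hgc : Continuous g := by
    rw [hg]
    exact continuous_finsetProd _ fun j _ => hρc j
  have hφc' : Continuous fun x => ∏ j, φ j x := continuous_finsetProd _ fun j _ => hφc j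
  have hgpp : ∀ x, ((g x : ℝ) : ℂ) = ∏ j, pp (2 ^ J') (β₁ j) χ x := by
    intro x
    rw [hgx]
    push_cast
    exact prod_congr rfl fun j _ => (hρ j x).symm
  have hint : ∀ h : ℤ, ∫ x in (0 : ℝ)..1, (g x : ℂ) * ee (-(h * x)) = TS χ k (2 ^ J') h β₁ := by
    intro h
    rw [← pp_int]
    exact intervalIntegral.integral_congr fun x _ => by
      rw [hgpp]
  have hgB : ∀ x, |g x| ≤ B ^ k := by
    intro x
    rw [hgx, abs_prod]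
    refine (prod_le_prod (fun j _ => abs_nonneg _) (fun j _ => hρB j x)).trans (le_of_eq ?_)
    rw [prod_const, card_univ, Fintype.card_fin]
  have hJJ2 : (2 : ℤ) ^ J ≤ 2 ^ J' := pow_le_pow_right₀ (by norm_num) hJJ
  have hfou := hF g (B ^ k) δ α β (2 ^ J) hgc hgB Nat.one_le_two_pow hα hαβ hβ (by
    intro h h0 hh
    rw [hint]
    have h1 := hTS h (le_trans (by exact_mod_cast hh) hJJ2)
    rw [if_neg h0, sub_zero] at h1
    exact h1)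
  have hcast : (((2 ^ J : ℕ) : ℕ) : ℝ) = (2 : ℝ) ^ J := by push_cast; rfl
  rw [hcast] at hfou
  -- the mean value
  have hmean : |(∫ x in (0 : ℝ)..1, g x) - (DB k (2 ^ J') β₁).re| ≤ δ := by
    have h1 := hTS 0 (by simp)
    rw [if_pos rfl, ← hint 0] at h1
    have h2 : ∫ x in (0 : ℝ)..1, (g x : ℂ) * ee (-(((0 : ℤ) : ℝ) * x)) = ((∫ x in (0 : ℝ)..1, g x : ℝ) : ℂ) := by
      rw [← intervalIntegral.integral_ofReal]
      refine intervalIntegral.integral_congr fun x _ => ?_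
      have h3 := ee_int 0
      rw [Int.cast_zero] at h3
      rw [Int.cast_zero, zero_mul, neg_zero, h3, mul_one]
    rw [h2] at h1
    have h3 := Complex.abs_re_le_norm (((∫ x in (0 : ℝ)..1, g x : ℝ) : ℂ) - DB k (2 ^ J') β₁)
    rw [Complex.sub_re, Complex.ofReal_re] at h3
    exact h3.trans h1
  -- the tails
  have htail : |(∫ x in α..β, ∏ j, φ j x) - ∫ x in α..β, g x| ≤ k * B ^ k * η := by
    rw [← intervalIntegral.integral_sub (hφc'.intervalIntegrable _ _) (hgc.intervalIntegrable _ _)]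
    have h1 : ∀ x ∈ Set.uIoc α β, ‖(∏ j, φ j x) - g x‖ ≤ k * B ^ k * η := by
      intro x _
      rw [hgx]
      have h2 := prod_close (univ : Finset (Fin k)) (fun j => φ j x) (fun j => ρ j x) B η hB hη
        (fun j _ => hφB j x) (fun j _ => hρB j x) (fun j _ => hρφ j x)
      rw [card_univ, Fintype.card_fin] at h2
      exact h2
    have h2 := intervalIntegral.norm_integral_le_of_norm_le_const h1
    rw [Real.norm_eq_abs] at h2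
    refine h2.trans ?_
    have h3 : |β - α| ≤ 1 := by
      rw [abs_of_nonneg (by linarith)]
      linarith
    have h4 : 0 ≤ k * B ^ k * η := by positivity
    calc k * B ^ k * η * |β - α| ≤ k * B ^ k * η * 1 := mul_le_mul_of_nonneg_left h3 h4
      _ = _ := by rw [mul_one]
  have e1 : (∫ x in α..β, ∏ j, φ j x) - (β - α) * (DB k (2 ^ J') β₁).re =
      ((∫ x in α..β, ∏ j, φ j x) - ∫ x in α..β, g x) + (((∫ x in α..β, g x) - (β - α) * ∫ x in (0 : ℝ)..1, g x) +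
        (β - α) * ((∫ x in (0 : ℝ)..1, g x) - (DB k (2 ^ J') β₁).re)) := by ring
  rw [e1]
  refine (abs_add_le _ _).trans ?_
  have h5 := abs_add_le ((∫ x in α..β, g x) - (β - α) * ∫ x in (0 : ℝ)..1, g x)
    ((β - α) * ((∫ x in (0 : ℝ)..1, g x) - (DB k (2 ^ J') β₁).re))
  have h6 : |(β - α) * ((∫ x in (0 : ℝ)..1, g x) - (DB k (2 ^ J') β₁).re)| ≤ δ := by
    rw [abs_mul, abs_of_nonneg (by linarith : (0 : ℝ) ≤ β - α)]
    calc (β - α) * |(∫ x in (0 : ℝ)..1, g x) - (DB k (2 ^ J') β₁).re| ≤ 1 * δ :=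
          mul_le_mul (by linarith) hmean (abs_nonneg _) zero_le_one
      _ = δ := one_mul δ
  linarith

/-- the powers -/
theorem powers (S c D E CF Q Ct : ℝ) (k q : ℕ) (hk : 1 ≤ k) (hS : 1 ≤ S) (hc : 0 < c) (hc4 : c ≤ 1 / 4) (hD : 1 ≤ D)
    (hE : 0 ≤ E) (hCF : 0 ≤ CF) (hQ : 0 ≤ Q) (hCt : 0 ≤ Ct) :
    k * (D * S ^ (1 / (4 * k) : ℝ)) ^ k * (Ct * (2 ^ q / S)) + CF * ((D * S ^ (1 / (4 * k) : ℝ)) ^ k / √S +
      (Q * S ^ (-c) + 2 * (E * (1 / S))) * (1 + Real.log S)) + (Q * S ^ (-c) + 2 * (E * (1 / S))) ≤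
      (k * D ^ k * Ct * 2 ^ q + CF * (D ^ k + (Q + 2 * E) * (1 + 2 / c)) + (Q + 2 * E)) * S ^ (-(c / 2)) := by
  have hS0 : 0 < S := by linarith
  have hk0 : (0 : ℝ) < k := by exact_mod_cast hk
  obtain ⟨s, hs⟩ : ∃ s : ℝ, s = S ^ (-(c / 2)) := ⟨_, rfl⟩
  have hs0 : 0 < s := by
    rw [hs]
    positivity
  rw [← hs]
  have hp : (D * S ^ (1 / (4 * k) : ℝ)) ^ k = D ^ k * S ^ (1 / 4 : ℝ) := by
    rw [mul_pow, ← Real.rpow_natCast (S ^ (1 / (4 * k) : ℝ)), ← Real.rpow_mul hS0.le]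
    congr 2
    field_simp
  have h1S : 1 / S = S ^ (-1 : ℝ) := by rw [Real.rpow_neg_one, one_div]
  have m1 : ∀ e : ℝ, e ≤ -(c / 2) → S ^ e ≤ s := by
    intro e he
    rw [hs]
    exact Real.rpow_le_rpow_of_exponent_le hS he
  have a1 : S ^ (1 / 4 : ℝ) * (1 / S) ≤ s := by
    rw [h1S, ← Real.rpow_add hS0]
    exact m1 _ (by linarith)
  have a2 : S ^ (1 / 4 : ℝ) / √S ≤ s := by
    rw [Real.sqrt_eq_rpow, ← Real.rpow_sub hS0]
    exact m1 _ (by linarith)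
  have a3 : S ^ (-c) ≤ s := m1 _ (by linarith)
  have a4 : 1 / S ≤ s := by
    rw [h1S]
    exact m1 _ (by linarith)
  have a5 : S ^ (-c) * (1 + Real.log S) ≤ (1 + 2 / c) * s := by
    have b1 : Real.log S ≤ S ^ (c / 2) / (c / 2) := Real.log_le_rpow_div hS0.le (by positivity)
    have b2 : 1 ≤ S ^ (c / 2) := Real.one_le_rpow hS (by positivity)
    have b3 : 1 + Real.log S ≤ (1 + 2 / c) * S ^ (c / 2) := by
      have b4 : S ^ (c / 2) / (c / 2) = 2 / c * S ^ (c / 2) := by field_simp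
      rw [b4] at b1
      linarith
    calc S ^ (-c) * (1 + Real.log S) ≤ S ^ (-c) * ((1 + 2 / c) * S ^ (c / 2)) :=
          mul_le_mul_of_nonneg_left b3 (by positivity)
      _ = (1 + 2 / c) * (S ^ (-c) * S ^ (c / 2)) := by ring
      _ = (1 + 2 / c) * s := by
          rw [← Real.rpow_add hS0, hs]
          congr 2
          ring
  have a6 : (1 / S) * (1 + Real.log S) ≤ (1 + 2 / c) * s := by
    refine le_trans (mul_le_mul_of_nonneg_right ?_ ?_) a5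
    · rw [h1S]
      exact Real.rpow_le_rpow_of_exponent_le hS (by linarith)
    · have := Real.log_nonneg hS
      linarith
  rw [hp]
  have hDk : 0 ≤ D ^ k := by positivity
  have t1 : k * (D ^ k * S ^ (1 / 4 : ℝ)) * (Ct * (2 ^ q / S)) ≤ k * D ^ k * Ct * 2 ^ q * s := by
    calc k * (D ^ k * S ^ (1 / 4 : ℝ)) * (Ct * (2 ^ q / S)) = k * D ^ k * Ct * 2 ^ q * (S ^ (1 / 4 : ℝ) * (1 / S)) := by
          ring
      _ ≤ _ := mul_le_mul_of_nonneg_left a1 (by positivity)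
  have t2 : D ^ k * S ^ (1 / 4 : ℝ) / √S ≤ D ^ k * s := by
    rw [mul_div_assoc]
    exact mul_le_mul_of_nonneg_left a2 hDk
  have t3 : (Q * S ^ (-c) + 2 * (E * (1 / S))) * (1 + Real.log S) ≤ (Q + 2 * E) * (1 + 2 / c) * s := by
    have u1 := mul_le_mul_of_nonneg_left a5 hQ
    have u2 := mul_le_mul_of_nonneg_left a6 hE
    nlinarith
  have t4 : Q * S ^ (-c) + 2 * (E * (1 / S)) ≤ (Q + 2 * E) * s := by
    have u1 := mul_le_mul_of_nonneg_left a3 hQ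
    have u2 := mul_le_mul_of_nonneg_left a4 hE
    nlinarith
  have t5 : CF * (D ^ k * S ^ (1 / 4 : ℝ) / √S + (Q * S ^ (-c) + 2 * (E * (1 / S))) * (1 + Real.log S)) ≤
      CF * (D ^ k * s + (Q + 2 * E) * (1 + 2 / c) * s) := mul_le_mul_of_nonneg_left (by linarith) hCF
  calc _ ≤ k * D ^ k * Ct * 2 ^ q * s + CF * (D ^ k * s + (Q + 2 * E) * (1 + 2 / c) * s) + (Q + 2 * E) * s := by
        linarith
    _ = _ := by ring

theorem exp_small (T S : ℝ) (q : ℕ) (hT : 1 ≤ T) (hS : 1 ≤ S) (h : S ≤ 2 ^ q * T) : Real.exp (-T) ≤ 2 ^ q / S := by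
  have hT0 : 0 < T := by linarith
  have hS0 : 0 < S := by linarith
  have h1 : T ≤ Real.exp T := by
    have := Real.add_one_le_exp T
    linarith
  rw [Real.exp_neg, le_div_iff₀ hS0, inv_mul_le_iff₀ (Real.exp_pos T)]
  have h2 : (2 : ℝ) ^ q * T ≤ 2 ^ q * Real.exp T := mul_le_mul_of_nonneg_left h1 (by positivity)
  linarith

/-- **Job GMCQ.** -/
theorem gmcq (h1 : S_GMAQ) (h2 : S_GMB2) (h3 : S_FOU) (h4 : S_SNQ) (_ : S_KODE) (h6 : S_KBB) (_ : S_KW) : S_GMCQ := by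
  classical
  intro ι T a A hFam hCoef y₀ y₁ k q hy₀ hy01 hk
  obtain ⟨hT, hfin⟩ := id hFam
  obtain ⟨M, hM⟩ : ∃ M : ℕ, M = ⌈1 / y₀⌉₊ + 1 := ⟨_, rfl⟩
  have hMR : (M : ℝ) = (⌈1 / y₀⌉₊ : ℝ) + 1 := by
    rw [hM]
    push_cast
    ring
  have hM1 : 1 ≤ (M : ℝ) * y₀ := by
    have h5 := Nat.le_ceil (1 / y₀)
    rw [div_le_iff₀ hy₀] at h5
    rw [hMR, add_mul]
    linarith
  have hM2 : (1 : ℝ) ≤ M := by
    rw [hMR]
    have : (0 : ℝ) ≤ (⌈1 / y₀⌉₊ : ℝ) := Nat.cast_nonneg _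
    linarith
  obtain ⟨r, hr1, hr2⟩ := exists_scale1 (M : ℝ) hM2
  obtain ⟨K, hK0, hK⟩ := btu_bd h6 y₀ (y₁ + 1) hy₀
  obtain ⟨C₁, hC₁0, hC₁⟩ := coef_pt hT hCoef
  obtain ⟨Ct, hCt0, hCt⟩ := tail_bd y₀ C₁ hy₀
  have hX : ∀ J : ℕ, (1 : ℝ) ≤ 2 ^ (J - r) := fun J => one_le_pow₀ (by norm_num)
  obtain ⟨mem, hmem⟩ : ∃ mem : ℕ → Finset ι, mem = fun J =>
      ((hfin (2 ^ (J - r)) (hX J)).1.toFinset).filter (fun i => (2 : ℝ) ^ (J - r) ≤ 2 ^ q * T i) := ⟨_, rfl⟩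
  have hmem' : ∀ J i, i ∈ mem J ↔ T i ≤ 2 ^ (J - r) ∧ (2 : ℝ) ^ (J - r) ≤ 2 ^ q * T i := by
    intro J i
    rw [hmem]
    simp only [mem_filter, Set.Finite.mem_toFinset, Set.mem_ofPred_eq]
  have hmemc : ∀ J, ((mem J).card : ℝ) ≤ |A| * ((2 : ℝ) ^ J) ^ |A| := by
    intro J
    have h5 := (hfin (2 ^ (J - r)) (hX J)).2
    rw [Set.ncard_eq_toFinset_card _ (hfin (2 ^ (J - r)) (hX J)).1] at h5
    have h6 : ((mem J).card : ℝ) ≤ ((hfin (2 ^ (J - r)) (hX J)).1.toFinset.card : ℝ) := by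
      refine Nat.cast_le.2 ?_
      rw [hmem]
      exact card_filter_le _ _
    refine h6.trans (h5.trans ?_)
    have h7 : (2 : ℝ) ^ (J - r) ≤ 2 ^ J := pow_le_pow_right₀ (by norm_num) (Nat.sub_le _ _)
    calc A * ((2 : ℝ) ^ (J - r)) ^ A ≤ |A| * ((2 : ℝ) ^ (J - r)) ^ A :=
          mul_le_mul_of_nonneg_right (le_abs_self A) (by positivity)
      _ ≤ |A| * ((2 : ℝ) ^ (J - r)) ^ |A| :=
          mul_le_mul_of_nonneg_left (Real.rpow_le_rpow_of_exponent_le (hX J) (le_abs_self A)) (abs_nonneg A)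
      _ ≤ |A| * ((2 : ℝ) ^ J) ^ |A| :=
          mul_le_mul_of_nonneg_left (Real.rpow_le_rpow (by positivity) h7 (abs_nonneg A)) (abs_nonneg A)
  obtain ⟨A', hA'⟩ := card_FF_exp T a mem y₀ (y₁ + 1) M (3 * k + 5) r (⌈y₁⌉₊ + 1) A hmemc
  obtain ⟨c₀, C₀, hc₀, hUU⟩ := counts h2 hT hCoef mem y₀ (y₁ + 1) M (3 * k + 5) r (⌈y₁⌉₊ + 1) k q hy₀
    (by linarith) hM2 hk hr1 hr2 (fun J _ i hi => (hmem' J i).1 hi)
  have hMT : ∀ (J : ℕ) (i : ι), r ≤ J → i ∈ mem J → (M : ℝ) * T i ≤ ((2 ^ J : ℕ) : ℝ) := by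
    intro J i hrJ hi
    have e1 : (2 : ℝ) ^ J = 2 ^ r * 2 ^ (J - r) := by
      rw [← pow_add]
      congr 1
      omega
    push_cast
    rw [e1]
    exact mul_le_mul hr1 ((hmem' J i).1 hi).1 (by linarith [hT i]) (by positivity)
  have hsupp : ∀ J, ∀ β ∈ FF T a mem y₀ (y₁ + 1) M (3 * k + 5) r (⌈y₁⌉₊ + 1) J, ∀ m : ℤ, m ∉ Bx (2 ^ J) →
      β m = 0 := by
    intro J β hβ n hn
    obtain ⟨hrJ, i, p, l, b, hi, _, _, _, _, rfl⟩ := (mem_FF T a mem y₀ (y₁ + 1) M (3 * k + 5) r (⌈y₁⌉₊ + 1)).1 hβ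
    exact btu_zero _ _ _ _ _ _ (2 ^ J) (hMT J i hrJ hi) n hn
  obtain ⟨CQ, hQ⟩ := h1 k hk _ A' c₀ C₀ hc₀ hsupp hA' hUU
  obtain ⟨CF, hCF0, hF⟩ := h3
  have hk0 : (0 : ℝ) < k := by exact_mod_cast hk
  obtain ⟨CS, hS⟩ := h4 ι T a A hFam hCoef y₀ y₁ (1 / (4 * k)) q hy₀ hy01 (by positivity)
  obtain ⟨c, hc⟩ : ∃ c : ℝ, c = min (c₀ / 4) (1 / 4) := ⟨_, rfl⟩
  have hc0 : 0 < c := by
    rw [hc]
    exact lt_min (by positivity) (by norm_num)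
  have hc4 : c ≤ 1 / 4 := by
    rw [hc]
    exact min_le_right _ _
  have hcc : c ≤ c₀ / 4 := by
    rw [hc]
    exact min_le_left _ _
  obtain ⟨D, hD⟩ : ∃ D : ℝ, D = |CS| + Ct + 1 := ⟨_, rfl⟩
  have hD1 : 1 ≤ D := by
    rw [hD]
    have := abs_nonneg CS
    linarith
  obtain ⟨E, hE⟩ : ∃ E : ℝ, E = 3 ^ k * (k * (C₁ * K + 1) ^ k * (C₁ * K)) := ⟨_, rfl⟩
  have hE0 : 0 ≤ E := by
    rw [hE]
    positivity
  refine ⟨r, c / 2, k * D ^ k * Ct * 2 ^ q + CF * (D ^ k + (|CQ| + 2 * E) * (1 + 2 / c)) + (|CQ| + 2 * E),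
    by positivity, by positivity, ?_⟩
  refine ((hQ.scale le_rfl r).and hS).mono fun J md hQS hR i b u y α β hTi hyi hα hαβ hβ => ?_
  obtain ⟨hQ1, hS1⟩ := hQS
  rw [one_mul] at hQ1
  have hQ2 := hQ1 hR
  obtain ⟨S, hSd⟩ : ∃ S : ℝ, S = (2 : ℝ) ^ J := ⟨_, rfl⟩
  have hS1' : 1 ≤ S := by
    rw [hSd]
    exact one_le_pow₀ (by norm_num)
  have hS0 : 0 < S := by linarith
  have himem : ∀ j, i j ∈ mem (J + r) := by
    intro j
    rw [hmem', Nat.add_sub_cancel]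
    exact hTi j
  have hTJr : ∀ j, T (i j) ≤ 2 ^ (J + r) := by
    intro j
    refine (hTi j).1.trans (pow_le_pow_right₀ (by norm_num) (Nat.le_add_right _ _))
  obtain ⟨Q', hQ'⟩ : ∃ Q' : ℝ, Q' = |CQ| * S ^ (-c) := ⟨_, rfl⟩
  have hQle : CQ * (2 : ℝ) ^ (-(c₀ / 4 * ((J + r : ℕ) : ℝ))) ≤ Q' := by
    rw [hQ']
    refine mul_le_mul (le_abs_self _) ?_ (by positivity) (abs_nonneg _)
    rw [hSd, ← Real.rpow_natCast 2 J, ← Real.rpow_mul (by norm_num)]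
    refine Real.rpow_le_rpow_of_exponent_le (by norm_num) ?_
    push_cast
    have g1 : (0 : ℝ) ≤ J := Nat.cast_nonneg _
    have g2 : (0 : ℝ) ≤ r := Nat.cast_nonneg _
    have g3 : 0 ≤ c₀ / 4 * r := by positivity
    nlinarith
  have hcoef := coefs T a mem y₀ M r y₁ K C₁ k hK0 hC₁0 hy₀ hK (J + r) (Nat.le_add_left r J) (jc md) (jc_le md) Q'
    (fun β' hβ' h hh => (hQ2 β' hβ' h hh).trans hQle) i b u y himem hyi (fun j => hT _) hTJr (fun j => hC₁ _)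
  rw [← hE] at hcoef
  obtain ⟨δ, hδ⟩ : ∃ δ : ℝ, δ = Q' + 2 * (E * (1 / S)) := ⟨_, rfl⟩
  have hSr : 1 / (2 : ℝ) ^ (J + r) ≤ 1 / S := by
    rw [hSd]
    exact one_div_le_one_div_of_le (by positivity) (pow_le_pow_right₀ (by norm_num) (Nat.le_add_right _ _))
  have hδle : Q' + 2 * (E * (1 / (2 : ℝ) ^ (J + r))) ≤ δ := by
    rw [hδ]
    have := mul_le_mul_of_nonneg_left hSr hE0
    linarith
  have hε : 1 ≤ S ^ (1 / (4 * k) : ℝ) := Real.one_le_rpow hS1' (by positivity)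
  have hφB : ∀ j x, |ph (b j) (jc md) (T (i j)) (a (i j)) (x + u j) (y j)| ≤ |CS| * S ^ (1 / (4 * k) : ℝ) := by
    intro j x
    have g1 := hS1 (i j) (x + u j) (y j) (hTi j).1 (hTi j).2 (hyi j).1 (hyi j).2
    have g2 : T (i j) ^ (1 / (4 * k) : ℝ) ≤ S ^ (1 / (4 * k) : ℝ) := by
      rw [hSd]
      exact Real.rpow_le_rpow (by linarith [hT (i j)]) (hTi j).1 (by positivity)
    have g3 : CS * T (i j) ^ (1 / (4 * k) : ℝ) ≤ |CS| * S ^ (1 / (4 * k) : ℝ) :=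
      mul_le_mul (le_abs_self _) g2 (Real.rpow_nonneg (by linarith [hT (i j)]) _) (abs_nonneg _)
    unfold ph
    split_ifs
    · exact g1.1.trans g3
    · exact g1.2.trans g3
  have htail : ∀ j x, |ph (b j) (jc md) (T (i j)) (a (i j)) (x + u j) (y j) -
      rp (2 ^ (J + r)) (jc md) (T (i j)) (a (i j)) (M * T (i j)) (b j) (y j) (u j) x| ≤ Ct * (2 ^ q / S) := by
    intro j x
    refine (hCt (T (i j)) (a (i j)) (jc md) (b j) (y j) (u j) x M (2 ^ (J + r)) (hT _) (hyi j).1 hM1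
      (hMT (J + r) (i j) (Nat.le_add_left r J) (himem j)) (jc_le md) (hC₁ _)).trans ?_
    refine mul_le_mul_of_nonneg_left (exp_small _ _ q (hT _) hS1' ?_) hCt0
    rw [hSd]
    exact (hTi j).2
  have htail1 : ∀ j, Real.exp (-T (i j)) ≤ 1 := fun j => by
    rw [Real.exp_le_one_iff]
    linarith [hT (i j)]
  have hρB : ∀ j x, |rp (2 ^ (J + r)) (jc md) (T (i j)) (a (i j)) (M * T (i j)) (b j) (y j) (u j) x| ≤
      D * S ^ (1 / (4 * k) : ℝ) := by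
    intro j x
    have g1 := hCt (T (i j)) (a (i j)) (jc md) (b j) (y j) (u j) x M (2 ^ (J + r)) (hT _) (hyi j).1 hM1
      (hMT (J + r) (i j) (Nat.le_add_left r J) (himem j)) (jc_le md) (hC₁ _)
    have g2 : Ct * Real.exp (-T (i j)) ≤ Ct * 1 := mul_le_mul_of_nonneg_left (htail1 j) hCt0
    have g3 := hφB j x
    have g4 := abs_sub_abs_le_abs_sub (rp (2 ^ (J + r)) (jc md) (T (i j)) (a (i j)) (M * T (i j)) (b j) (y j) (u j) x)
      (ph (b j) (jc md) (T (i j)) (a (i j)) (x + u j) (y j))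
    rw [abs_sub_comm] at g1
    have g5 : Ct * 1 ≤ Ct * S ^ (1 / (4 * k) : ℝ) := mul_le_mul_of_nonneg_left hε hCt0
    rw [hD]
    nlinarith
  have hφB' : ∀ j x, |ph (b j) (jc md) (T (i j)) (a (i j)) (x + u j) (y j)| ≤ D * S ^ (1 / (4 * k) : ℝ) := by
    intro j x
    refine (hφB j x).trans (mul_le_mul_of_nonneg_right ?_ (by positivity))
    rw [hD]
    linarith
  have hB1 : 1 ≤ D * S ^ (1 / (4 * k) : ℝ) := one_le_mul_of_one_le_of_one_le hD1 hε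
  have hη0 : 0 ≤ Ct * (2 ^ q / S) := by positivity
  have hφc : ∀ j, Continuous fun x => ph (b j) (jc md) (T (i j)) (a (i j)) (x + u j) (y j) := by
    intro j
    obtain ⟨Bc, hBc⟩ := coef_bd hCoef (i j) (hT _)
    have g1 := ph_cont (T := T (i j)) (f := jc md) (b j) hy₀ hBc (jc_le md)
    exact g1.comp_continuous (f := fun x : ℝ => (x + u j, y j)) (by fun_prop) fun x => (hyi j).1
  have hfin2 := assemble CF hF k J (J + r) (Nat.le_add_right J r) (jc md)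
    (fun j => btu (T (i j)) (a (i j)) (M * T (i j)) (b j) (y j) (u j))
    (fun j x => rp (2 ^ (J + r)) (jc md) (T (i j)) (a (i j)) (M * T (i j)) (b j) (y j) (u j) x)
    (fun j x => ph (b j) (jc md) (T (i j)) (a (i j)) (x + u j) (y j)) (D * S ^ (1 / (4 * k) : ℝ))
    (Ct * (2 ^ q / S)) δ hB1 hη0 (fun j x => pp_eq _ _ _ _ _ _ _ _ _) (fun j => rp_cont _ _ _ _ _ _ _ _) hφc hρB hφB'
    htail (fun h hh => (hcoef h hh).trans hδle) α β hα hαβ hβ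
  have hDBe : DB k ((⌈1 / y₀⌉₊ + 1) * 2 ^ J) (fun j n =>
      bt (T (i j)) (a (i j)) ((⌈1 / y₀⌉₊ + 1) * T (i j)) (b j) (y j) n * ee ((n : ℝ) * u j)) =
      DB k (2 ^ (J + r)) (fun j => btu (T (i j)) (a (i j)) (M * T (i j)) (b j) (y j) (u j)) := by
    have hMr : M ≤ 2 ^ r := by exact_mod_cast hr1
    have hle : M * 2 ^ J ≤ 2 ^ (J + r) := by
      rw [pow_add, mul_comm (2 ^ J)]
      exact Nat.mul_le_mul_right _ hMr
    rw [DB_cut hle _ (fun j n hn => btu_zero _ _ _ _ _ _ (M * 2 ^ J) (by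
      push_cast
      exact mul_le_mul_of_nonneg_left (hTi j).1 (by linarith)) n hn)]
    rw [← hM]
    congr 1
    funext j n
    unfold btu
    rw [hMR]
  rw [hDBe]
  refine hfin2.trans ?_
  have hpw := powers S c D E CF |CQ| Ct k q hk hS1' hc0 hc4 hD1 hE0 hCF0 (abs_nonneg _) hCt0
  rw [← hQ', ← hδ] at hpw
  rw [← hSd]
  refine hpw.trans (le_of_eq ?_)
  congr 1
  rw [hSd, ← Real.rpow_natCast 2 J, ← Real.rpow_mul (by norm_num)]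
  congr 1
  ring

end Pool.Agent.Q150.L2.GQ
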