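import Pool.Agent.Q65.L2.KN
import Pool.Agent.Q255.L2.StmM

/-!
# The norm of weights with coefficients bounded in the mean of order 8, near the transition
-/

set_option autoImplicit false

namespace Pool.Agent.Q150.L2.KNB

open Filter Topology MeasureTheory Finset
open Pool.Agent.Q255.IC Pool.Agent.Q255.IR Pool.Agent.Q255.EP Pool.Agent.Q255.L2
open Pool.Agent.Q65.L2 (sqf_unique sum_inj_le far_bd near_bd)

/-- sums of a function of the distance from `n₀` -/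
theorem two_sided (F : Finset ℕ) (n₀ : ℕ) (K : ℝ) (hF : ∀ r ∈ F, 1 + |(r : ℝ) - n₀| ≤ K) (f g : ℕ → ℝ)
    (hg : ∀ k, 0 ≤ g k) (hfg : ∀ r ∈ F, ∀ k : ℕ, (k : ℝ) = |(r : ℝ) - n₀| → f r ≤ g k) :
    ∑ r ∈ F, f r ≤ 2 * ∑ k ∈ range ⌊K⌋₊, g k := by
  rw [← sum_filter_add_sum_filter_not F (fun r => r ≤ n₀)]
  have h1 : ∑ r ∈ F.filter (fun r => r ≤ n₀), f r ≤ ∑ k ∈ range ⌊K⌋₊, g k := by
    refine sum_inj_le _ _ (fun r => n₀ - r) _ _ hg ?_ ?_ ?_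
    · intro r hr
      rw [mem_filter] at hr
      have h2 := hF r hr.1
      have h3 : (((n₀ - r : ℕ)) : ℝ) = n₀ - r := Nat.cast_sub hr.2
      have h4 : (r : ℝ) ≤ n₀ := by exact_mod_cast hr.2
      rw [abs_of_nonpos (by linarith)] at h2
      have h5 : ((n₀ - r + 1 : ℕ) : ℝ) ≤ K := by
        push_cast [h3]
        linarith
      have h6 := Nat.le_floor h5
      omega
    · intro r hr r' hr' h
      rw [mem_coe, mem_filter] at hr hr'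
      dsimp only at h
      omega
    · intro r hr
      rw [mem_filter] at hr
      refine hfg r hr.1 _ ?_
      have h4 : (r : ℝ) ≤ n₀ := by exact_mod_cast hr.2
      rw [Nat.cast_sub hr.2, abs_of_nonpos (by linarith)]
      ring
  have h1' : ∑ r ∈ F.filter (fun r => ¬ r ≤ n₀), f r ≤ ∑ k ∈ range ⌊K⌋₊, g k := by
    refine sum_inj_le _ _ (fun r => r - n₀) _ _ hg ?_ ?_ ?_
    · intro r hr
      rw [mem_filter, not_le] at hr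
      have h2 := hF r hr.1
      have h3 : (((r - n₀ : ℕ)) : ℝ) = r - n₀ := Nat.cast_sub hr.2.le
      have h4 : (n₀ : ℝ) ≤ r := by exact_mod_cast hr.2.le
      rw [abs_of_nonneg (by linarith)] at h2
      have h5 : ((r - n₀ + 1 : ℕ) : ℝ) ≤ K := by
        push_cast [h3]
        linarith
      have h6 := Nat.le_floor h5
      omega
    · intro r hr r' hr' h
      rw [mem_coe, mem_filter] at hr hr'
      dsimp only at h
      omega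
    · intro r hr
      rw [mem_filter, not_le] at hr
      refine hfg r hr.1 _ ?_
      have h4 : (n₀ : ℝ) ≤ r := by exact_mod_cast hr.2.le
      rw [Nat.cast_sub hr.2.le, abs_of_nonneg (by linarith)]
  linarith

theorem tele (X : ℕ) : ∑ k ∈ range X, ((k : ℝ) + 1) ^ (-(2 / 3) : ℝ) ≤ 3 * (X : ℝ) ^ (1 / 3 : ℝ) := by
  induction X with
  | zero => simp
  | succ X ih =>
    rw [sum_range_succ]
    obtain ⟨a, ha⟩ : ∃ a : ℝ, a = ((X : ℝ) + 1) ^ (1 / 3 : ℝ) := ⟨_, rfl⟩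
    obtain ⟨b, hb⟩ : ∃ b : ℝ, b = (X : ℝ) ^ (1 / 3 : ℝ) := ⟨_, rfl⟩
    have hX : (0 : ℝ) ≤ X := Nat.cast_nonneg _
    have ha0 : 0 < a := by rw [ha]; positivity
    have hb0 : 0 ≤ b := by rw [hb]; positivity
    have hba : b ≤ a := by
      rw [ha, hb]
      exact Real.rpow_le_rpow hX (by linarith) (by norm_num)
    have ha3 : a ^ 3 = (X : ℝ) + 1 := by
      rw [ha, ← Real.rpow_natCast, ← Real.rpow_mul (by linarith)]
      norm_num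
    have hb3 : b ^ 3 = (X : ℝ) := by
      rw [hb, ← Real.rpow_natCast, ← Real.rpow_mul hX]
      norm_num
    have h1 : ((X : ℝ) + 1) ^ (-(2 / 3) : ℝ) = 1 / a ^ 2 := by
      rw [ha, ← Real.rpow_natCast, ← Real.rpow_mul (by linarith), one_div, ← Real.rpow_neg (by linarith)]
      norm_num
    have h2 : 1 / a ^ 2 ≤ 3 * (a - b) := by
      rw [div_le_iff₀ (by positivity)]
      nlinarith [mul_nonneg (sub_nonneg.2 hba) (mul_nonneg ha0.le (sub_nonneg.2 hba)),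
        mul_nonneg (sub_nonneg.2 hba) (mul_nonneg hb0 (sub_nonneg.2 hba)),
        mul_nonneg (sub_nonneg.2 hba) (mul_nonneg (sub_nonneg.2 hba) (add_nonneg ha0.le hb0))]
    rw [h1]
    push_cast
    rw [← ha]
    rw [← hb] at ih
    linarith

theorem s23 (F : Finset ℕ) (n₀ : ℕ) (K : ℝ) (hK : 0 ≤ K) (hF : ∀ r ∈ F, 1 + |(r : ℝ) - n₀| ≤ K) :
    ∑ r ∈ F, (1 + |(r : ℝ) - n₀|) ^ (-(2 / 3) : ℝ) ≤ 6 * K ^ (1 / 3 : ℝ) := by
  have h1 := two_sided F n₀ K hF (fun r => (1 + |(r : ℝ) - n₀|) ^ (-(2 / 3) : ℝ))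
    (fun k => ((k : ℝ) + 1) ^ (-(2 / 3) : ℝ)) (fun k => by positivity) (fun r _ k hk => by
      rw [← hk, add_comm])
  have h2 := tele ⌊K⌋₊
  have h3 : (⌊K⌋₊ : ℝ) ^ (1 / 3 : ℝ) ≤ K ^ (1 / 3 : ℝ) :=
    Real.rpow_le_rpow (Nat.cast_nonneg _) (Nat.floor_le hK) (by norm_num)
  linarith

theorem card_near (F : Finset ℕ) (n₀ : ℕ) (K : ℝ) (hK : 0 ≤ K) (hF : ∀ r ∈ F, 1 + |(r : ℝ) - n₀| ≤ K) :
    (F.card : ℝ) ≤ 2 * K := by
  have h1 := two_sided F n₀ K hF (fun _ => 1) (fun _ => 1) (fun _ => zero_le_one) (fun _ _ _ _ => le_refl _)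
  rw [sum_const, sum_const, card_range, nsmul_eq_mul, nsmul_eq_mul, mul_one, mul_one] at h1
  have := Nat.floor_le hK
  linarith

/-- Hölder's inequality with the exponents `4` and `4/3` -/
theorem hol (F : Finset ℕ) (f z : ℕ → ℝ) (hf : ∀ i ∈ F, 0 ≤ f i) (hz : ∀ i ∈ F, 0 ≤ z i) :
    ∑ i ∈ F, f i * z i ^ (3 / 4 : ℝ) ≤ (∑ i ∈ F, f i ^ 4) ^ (1 / 4 : ℝ) * (∑ i ∈ F, z i) ^ (3 / 4 : ℝ) := by
  have hpq : Real.HolderConjugate 4 (4 / 3) := by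
    rw [Real.holderConjugate_iff]
    norm_num
  refine (Real.inner_le_Lp_mul_Lq F f (fun i => z i ^ (3 / 4 : ℝ)) hpq).trans (le_of_eq ?_)
  congr 1
  · congr 1
    refine sum_congr rfl fun i hi => ?_
    rw [abs_of_nonneg (hf i hi), show (4 : ℝ) = ((4 : ℕ) : ℝ) by norm_num, Real.rpow_natCast]
  · rw [show (1 / (4 / 3) : ℝ) = 3 / 4 by norm_num]
    congr 1
    refine sum_congr rfl fun i hi => ?_
    rw [abs_of_nonneg (Real.rpow_nonneg (hz i hi) _), ← Real.rpow_mul (hz i hi)]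
    norm_num

theorem pairs2 (X Y : ℕ) (f : ℕ → ℝ) (hf0 : ∀ n, 0 ≤ f n) (hf : ∀ n, Y < n → f n = 0) :
    ∑ s ∈ (Icc 1 X).filter Squarefree, ∑ r ∈ Icc 1 X, f (r ^ 2 * s) ≤ ∑ n ∈ Icc 1 Y, f n := by
  rw [← sum_product' ((Icc 1 X).filter Squarefree) (Icc 1 X) (fun s r => f (r ^ 2 * s))]
  rw [← sum_filter_of_ne (p := fun q : ℕ × ℕ => q.2 ^ 2 * q.1 ≤ Y) (by
    intro q _ hq
    by_contra hlt
    exact hq (by rw [hf _ (not_le.1 hlt)]))]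
  have hinj : Set.InjOn (fun q : ℕ × ℕ => q.2 ^ 2 * q.1)
      ((((Icc 1 X).filter Squarefree) ×ˢ (Icc 1 X)).filter fun q : ℕ × ℕ => q.2 ^ 2 * q.1 ≤ Y) := by
    intro q hq q' hq' h
    rw [mem_coe, mem_filter, mem_product, mem_filter, mem_Icc, mem_Icc] at hq hq'
    dsimp only at h
    obtain ⟨h1, h2⟩ := sqf_unique hq.1.1.2 hq'.1.1.2 (by omega) (by omega)
      (show q.1 * q.2 ^ 2 = q'.1 * q'.2 ^ 2 by rw [mul_comm, h, mul_comm])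
    exact Prod.ext h1 h2
  rw [← sum_image (f := f) hinj]
  refine sum_le_sum_of_subset_of_nonneg ?_ fun _ _ _ => hf0 _
  intro n hn
  obtain ⟨q, hq, rfl⟩ := mem_image.1 hn
  rw [mem_filter, mem_product, mem_filter, mem_Icc, mem_Icc] at hq
  rw [mem_Icc]
  refine ⟨Nat.succ_le_of_lt (Nat.mul_pos (pow_pos (by omega) 2) (by omega)), hq.2⟩

/-- the sum of `v^(-2/3)` over the `n` with `v ≤ H` -/
theorem near_sum (c₀ c T H : ℝ) (hc₀ : 0 < c₀) (hc : c₀ ≤ c) (hT : 0 ≤ T) (hH : 0 ≤ H) (F : Finset ℕ)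
    (hF : ∀ n ∈ F, 1 + |T - c * n| ≤ H) :
    ∑ n ∈ F, (1 + |T - c * n|) ^ (-(2 / 3) : ℝ) ≤ 6 / min c₀ (1 / 2) * H ^ (1 / 3 : ℝ) := by
  obtain ⟨δ, hδ⟩ : ∃ δ : ℝ, δ = min c₀ (1 / 2) := ⟨_, rfl⟩
  have hδ0 : 0 < δ := by rw [hδ]; exact lt_min hc₀ (by norm_num)
  have hb : ∀ n : ℕ, δ * (1 + |(n : ℝ) - ⌊T / c⌋₊|) ≤ 1 + |T - c * n| := fun n => by
    rw [hδ]
    exact near_bd c₀ c T hc₀ hc hT n
  rw [← hδ]
  have h1 : ∀ n ∈ F, (1 + |T - c * n|) ^ (-(2 / 3) : ℝ) ≤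
      δ ^ (-(2 / 3) : ℝ) * (1 + |(n : ℝ) - ⌊T / c⌋₊|) ^ (-(2 / 3) : ℝ) := by
    intro n _
    rw [← Real.mul_rpow hδ0.le (by positivity)]
    exact Real.rpow_le_rpow_of_nonpos (by positivity) (hb n) (by norm_num)
  refine (sum_le_sum h1).trans ?_
  rw [← mul_sum]
  have h2 := s23 F ⌊T / c⌋₊ (H / δ) (by positivity) (fun n hn => by
    rw [le_div_iff₀ hδ0, mul_comm]
    exact (hb n).trans (hF n hn))
  refine (mul_le_mul_of_nonneg_left h2 (by positivity)).trans (le_of_eq ?_)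
  rw [Real.div_rpow hH hδ0.le]
  have h3 : δ ^ (-(2 / 3) : ℝ) / δ ^ (1 / 3 : ℝ) = 1 / δ := by
    rw [← Real.rpow_sub hδ0, show (-(2 / 3) - 1 / 3 : ℝ) = -1 by norm_num, Real.rpow_neg_one, one_div]
  calc δ ^ (-(2 / 3) : ℝ) * (6 * (H ^ (1 / 3 : ℝ) / δ ^ (1 / 3 : ℝ)))
      = 6 * H ^ (1 / 3 : ℝ) * (δ ^ (-(2 / 3) : ℝ) / δ ^ (1 / 3 : ℝ)) := by ring
    _ = 6 / δ * H ^ (1 / 3 : ℝ) := by rw [h3]; ring

/-- far from the singularity -/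
theorem far_ge (κ T : ℝ) (hκ : 0 < κ) (hT : 0 ≤ T) (r : ℕ) (hr1 : r ≠ ⌊√(T / κ)⌋₊)
    (hr2 : r ≠ ⌊√(T / κ)⌋₊ + 1) :
    κ / 9 * (1 + |(r : ℝ) - ⌊√(T / κ)⌋₊|) ^ 2 ≤ 1 + |T - κ * (r : ℝ) ^ 2| := by
  have h1 := far_bd κ T hκ hT r hr1 hr2
  have h2 := pow_le_pow_left₀ (by positivity) h1 2
  rw [mul_pow, Real.sq_sqrt hκ.le, Real.sq_sqrt (by positivity), div_pow] at h2
  refine le_trans (le_of_eq ?_) h2
  ring

theorem far_le (κ T H : ℝ) (hκ : 0 < κ) (hT : 0 ≤ T) (r : ℕ) (hr1 : r ≠ ⌊√(T / κ)⌋₊)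
    (hr2 : r ≠ ⌊√(T / κ)⌋₊ + 1) (hH : 1 + |T - κ * (r : ℝ) ^ 2| ≤ H) :
    1 + |(r : ℝ) - ⌊√(T / κ)⌋₊| ≤ 3 * √(H / κ) := by
  have h1 := (far_ge κ T hκ hT r hr1 hr2).trans hH
  have h2 : ((1 + |(r : ℝ) - ⌊√(T / κ)⌋₊|) / 3) ^ 2 ≤ H / κ := by
    rw [le_div_iff₀ hκ]
    refine le_trans (le_of_eq ?_) h1
    ring
  have h3 := Real.le_sqrt_of_sq_le h2
  linarith

theorem card_A (κ T s : ℝ) (hκ : 0 < κ) (hT : 0 ≤ T) (F : Finset ℕ)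
    (hF : ∀ r ∈ F, 1 + |T - κ * (r : ℝ) ^ 2| ≤ s) : (F.card : ℝ) ≤ 2 + 6 * √(s / κ) := by
  obtain ⟨n₀, hn₀⟩ : ∃ n₀ : ℕ, n₀ = ⌊√(T / κ)⌋₊ := ⟨_, rfl⟩
  have h1 : F.card ≤ (({n₀, n₀ + 1} : Finset ℕ)).card + (F.filter (fun r => r ≠ n₀ ∧ r ≠ n₀ + 1)).card := by
    refine (card_le_card ?_).trans (card_union_le _ _)
    intro r hr
    rw [mem_union, mem_filter, mem_insert, mem_singleton]
    tauto
  have h2 : (({n₀, n₀ + 1} : Finset ℕ)).card ≤ 2 := card_le_two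
  have h3 := card_near (F.filter (fun r => r ≠ n₀ ∧ r ≠ n₀ + 1)) n₀ (3 * √(s / κ)) (by positivity) (by
    intro r hr
    rw [mem_filter] at hr
    rw [hn₀]
    exact far_le κ T s hκ hT r (by rw [← hn₀]; exact hr.2.1) (by rw [← hn₀]; exact hr.2.2) (hF r hr.1))
  have h4 : (F.card : ℝ) ≤ 2 + ((F.filter (fun r => r ≠ n₀ ∧ r ≠ n₀ + 1)).card : ℝ) := by
    exact_mod_cast h1.trans (Nat.add_le_add_right h2 _)
  linarith

theorem sum_B (κ T s H : ℝ) (hκ : 0 < κ) (hT : 0 ≤ T) (hs : 0 < s) (hH : 0 < H) (F : Finset ℕ)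
    (hF : ∀ r ∈ F, s ≤ 1 + |T - κ * (r : ℝ) ^ 2| ∧ 1 + |T - κ * (r : ℝ) ^ 2| ≤ H) :
    ∑ r ∈ F, (1 + |T - κ * (r : ℝ) ^ 2|) ^ (-(1 / 3) : ℝ) ≤
      2 * s ^ (-(1 / 3) : ℝ) + 18 * (κ ^ (-(1 / 2) : ℝ) * H ^ (1 / 6 : ℝ)) := by
  obtain ⟨n₀, hn₀⟩ : ∃ n₀ : ℕ, n₀ = ⌊√(T / κ)⌋₊ := ⟨_, rfl⟩
  rw [← sum_filter_add_sum_filter_not F (fun r => r = n₀ ∨ r = n₀ + 1)]
  refine add_le_add ?_ ?_
  · have h1 : ∑ r ∈ F.filter (fun r => r = n₀ ∨ r = n₀ + 1), (1 + |T - κ * (r : ℝ) ^ 2|) ^ (-(1 / 3) : ℝ) ≤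
        ∑ r ∈ F.filter (fun r => r = n₀ ∨ r = n₀ + 1), s ^ (-(1 / 3) : ℝ) := by
      refine sum_le_sum fun r hr => ?_
      rw [mem_filter] at hr
      exact Real.rpow_le_rpow_of_nonpos hs (hF r hr.1).1 (by norm_num)
    refine h1.trans ?_
    rw [sum_const, nsmul_eq_mul]
    refine mul_le_mul_of_nonneg_right ?_ (by positivity)
    have h2 : (F.filter (fun r => r = n₀ ∨ r = n₀ + 1)).card ≤ 2 := by
      refine (card_le_card (t := {n₀, n₀ + 1}) ?_).trans card_le_two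
      intro r hr
      rw [mem_filter] at hr
      rw [mem_insert, mem_singleton]
      exact hr.2
    exact_mod_cast h2
  · have h1 : ∀ r ∈ F.filter (fun r => ¬ (r = n₀ ∨ r = n₀ + 1)), (1 + |T - κ * (r : ℝ) ^ 2|) ^ (-(1 / 3) : ℝ) ≤
        (κ / 9) ^ (-(1 / 3) : ℝ) * (1 + |(r : ℝ) - n₀|) ^ (-(2 / 3) : ℝ) := by
      intro r hr
      rw [mem_filter, not_or] at hr
      have h2 := far_ge κ T hκ hT r (by rw [← hn₀]; exact hr.2.1) (by rw [← hn₀]; exact hr.2.2)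
      rw [← hn₀] at h2
      have h3 : (1 + |(r : ℝ) - n₀|) ^ (-(2 / 3) : ℝ) = ((1 + |(r : ℝ) - n₀|) ^ 2) ^ (-(1 / 3) : ℝ) := by
        rw [← Real.rpow_natCast, ← Real.rpow_mul (by positivity)]
        norm_num
      rw [h3, ← Real.mul_rpow (by positivity) (by positivity)]
      exact Real.rpow_le_rpow_of_nonpos (by positivity) h2 (by norm_num)
    refine (sum_le_sum h1).trans ?_
    rw [← mul_sum]
    have h2 := s23 (F.filter (fun r => ¬ (r = n₀ ∨ r = n₀ + 1))) n₀ (3 * √(H / κ)) (by positivity) (by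
      intro r hr
      rw [mem_filter, not_or] at hr
      rw [hn₀]
      exact far_le κ T H hκ hT r (by rw [← hn₀]; exact hr.2.1) (by rw [← hn₀]; exact hr.2.2) (hF r hr.1).2)
    refine (mul_le_mul_of_nonneg_left h2 (by positivity)).trans (le_of_eq ?_)
    have h3 : (κ / 9) ^ (-(1 / 3) : ℝ) * (3 * √(H / κ)) ^ (1 / 3 : ℝ) =
        3 * (κ ^ (-(1 / 2) : ℝ) * H ^ (1 / 6 : ℝ)) := by
      have hsq : 0 < √(H / κ) := Real.sqrt_pos.2 (by positivity)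
      have e3 : (3 : ℝ) = Real.exp (Real.log 3) := (Real.exp_log (by norm_num)).symm
      have e9 : Real.log 9 = 2 * Real.log 3 := by
        rw [show (9 : ℝ) = 3 ^ 2 by norm_num, Real.log_pow]
        norm_num
      rw [Real.rpow_def_of_pos (by positivity), Real.rpow_def_of_pos (by positivity),
        Real.rpow_def_of_pos hκ, Real.rpow_def_of_pos hH, ← Real.exp_add, ← Real.exp_add,
        Real.log_mul (by norm_num) hsq.ne', Real.log_sqrt (by positivity), Real.log_div hH.ne' hκ.ne',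
        Real.log_div hκ.ne' (by norm_num), e9]
      conv_rhs => rw [e3, ← Real.exp_add]
      congr 1
      ring
    calc (κ / 9) ^ (-(1 / 3) : ℝ) * (6 * (3 * √(H / κ)) ^ (1 / 3 : ℝ))
        = 6 * ((κ / 9) ^ (-(1 / 3) : ℝ) * (3 * √(H / κ)) ^ (1 / 3 : ℝ)) := by ring
      _ = 18 * (κ ^ (-(1 / 2) : ℝ) * H ^ (1 / 6 : ℝ)) := by rw [h3]; ring

theorem dy_fiber (M B : ℝ) (hM : 1 ≤ M) (hB : 0 ≤ B) (a : ℕ → ℝ)
    (h2 : ∀ R S : ℕ, (R : ℝ) ^ 2 * S ≤ 4 * M →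
      ∑ s ∈ (Icc 1 S).filter Squarefree, ∑ r ∈ Icc 1 R, a (r ^ 2 * s) ^ 4 ≤ B * (R * S))
    (X i : ℕ) (Φ : Finset ℕ) (hΦ : ∀ s ∈ Φ, Squarefree s ∧ 2 ^ i ≤ s ∧ s < 2 ^ (i + 1)) :
    ∑ s ∈ Φ, (s : ℝ) ^ (-(3 / 4) : ℝ) *
      √(∑ r ∈ (Icc 1 X).filter (fun r : ℕ => (r : ℝ) ^ 2 * (s : ℝ) ≤ M), a (r ^ 2 * s) ^ 4) ≤
      √(2 * B) * M ^ (1 / 4 : ℝ) := by
  obtain ⟨g, hg⟩ : ∃ g : ℕ → ℝ, g = fun s : ℕ => ∑ r ∈ (Icc 1 X).filter (fun r : ℕ => (r : ℝ) ^ 2 * (s : ℝ) ≤ M),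
      a (r ^ 2 * s) ^ 4 := ⟨_, rfl⟩
  have hgs : ∀ s : ℕ, g s = ∑ r ∈ (Icc 1 X).filter (fun r : ℕ => (r : ℝ) ^ 2 * (s : ℝ) ≤ M), a (r ^ 2 * s) ^ 4 :=
    fun s => by rw [hg]
  simp_rw [← hgs]
  have hg0 : ∀ s, 0 ≤ g s := fun s => by
    rw [hgs]
    exact sum_nonneg fun r _ => Even.pow_nonneg (by decide) _
  obtain ⟨P, hP⟩ : ∃ P : ℝ, P = (2 : ℝ) ^ i := ⟨_, rfl⟩
  have hP0 : 0 < P := by rw [hP]; positivity
  have hM0 : 0 < M := by linarith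
  obtain ⟨R, hR⟩ : ∃ R : ℕ, R = ⌊√(M / P)⌋₊ := ⟨_, rfl⟩
  have hRle : (R : ℝ) ≤ √(M / P) := by rw [hR]; exact Nat.floor_le (Real.sqrt_nonneg _)
  have h1 : ∑ s ∈ Φ, g s ≤ B * (R * ((2 ^ (i + 1) : ℕ) : ℝ)) := by
    refine le_trans ?_ (h2 R (2 ^ (i + 1)) ?_)
    · refine le_trans (b := ∑ s ∈ Φ, ∑ r ∈ Icc 1 R, a (r ^ 2 * s) ^ 4) (sum_le_sum fun s hs => ?_) ?_
      · rw [hgs]
        refine sum_le_sum_of_subset_of_nonneg ?_ fun r _ _ => Even.pow_nonneg (by decide) _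
        intro r hr
        rw [mem_filter, mem_Icc] at hr
        rw [mem_Icc]
        refine ⟨hr.1.1, ?_⟩
        rw [hR]
        apply Nat.le_floor
        apply Real.le_sqrt_of_sq_le
        rw [le_div_iff₀ hP0]
        refine le_trans ?_ hr.2
        refine mul_le_mul_of_nonneg_left ?_ (by positivity)
        rw [hP]
        exact_mod_cast (hΦ s hs).2.1
      · refine sum_le_sum_of_subset_of_nonneg ?_ fun s _ _ =>
          sum_nonneg fun r _ => Even.pow_nonneg (by decide) _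
        intro s hs
        have h3 := hΦ s hs
        rw [mem_filter, mem_Icc]
        exact ⟨⟨(Nat.one_le_two_pow).trans h3.2.1, h3.2.2.le⟩, h3.1⟩
    · have h3 : (R : ℝ) ^ 2 ≤ M / P := by
        refine (pow_le_pow_left₀ (Nat.cast_nonneg _) hRle 2).trans (le_of_eq ?_)
        exact Real.sq_sqrt (by positivity)
      have h4 : ((2 ^ (i + 1) : ℕ) : ℝ) = 2 * P := by rw [hP]; push_cast; ring
      rw [h4]
      calc (R : ℝ) ^ 2 * (2 * P) ≤ M / P * (2 * P) := mul_le_mul_of_nonneg_right h3 (by positivity)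
        _ = 2 * M := by field_simp
        _ ≤ 4 * M := by linarith
  have h4 : ((2 ^ (i + 1) : ℕ) : ℝ) = 2 * P := by rw [hP]; push_cast; ring
  rw [h4] at h1
  have hcard : (Φ.card : ℝ) ≤ P := by
    have h5 : Φ.card ≤ (Ico (2 ^ i) (2 ^ (i + 1))).card := card_le_card fun s hs => by
      rw [mem_Ico]
      exact (hΦ s hs).2
    rw [Nat.card_Ico, show 2 ^ (i + 1) - 2 ^ i = 2 ^ i by rw [pow_succ]; omega] at h5
    rw [hP]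
    exact_mod_cast h5
  have h5 : ∑ s ∈ Φ, √(g s) ≤ √(P * (B * (R * (2 * P)))) := by
    apply Real.le_sqrt_of_sq_le
    refine sq_sum_le_card_mul_sum_sq.trans ?_
    have h6 : ∑ s ∈ Φ, √(g s) ^ 2 = ∑ s ∈ Φ, g s := sum_congr rfl fun s _ => Real.sq_sqrt (hg0 s)
    rw [h6]
    exact mul_le_mul hcard h1 (sum_nonneg fun s _ => hg0 s) hP0.le
  have h6 : √(P * (B * (R * (2 * P)))) ≤ √(2 * B) * √(P ^ 2 * √(M / P)) := by
    rw [← Real.sqrt_mul (by positivity)]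
    apply Real.sqrt_le_sqrt
    calc P * (B * (R * (2 * P))) = 2 * B * (P ^ 2 * R) := by ring
      _ ≤ 2 * B * (P ^ 2 * √(M / P)) :=
        mul_le_mul_of_nonneg_left (mul_le_mul_of_nonneg_left hRle (by positivity)) (by positivity)
  have h7 : P ^ (-(3 / 4) : ℝ) * √(P ^ 2 * √(M / P)) = M ^ (1 / 4 : ℝ) := by
    have hsq : 0 < √(M / P) := Real.sqrt_pos.2 (by positivity)
    have hsq2 : 0 < √(P ^ 2 * √(M / P)) := Real.sqrt_pos.2 (by positivity)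
    rw [Real.rpow_def_of_pos hP0, Real.rpow_def_of_pos hM0]
    conv_lhs => rw [← Real.exp_log hsq2]
    rw [← Real.exp_add, Real.log_sqrt (by positivity), Real.log_mul (by positivity) hsq.ne', Real.log_pow,
      Real.log_sqrt (by positivity), Real.log_div hM0.ne' hP0.ne']
    congr 1
    push_cast
    ring
  calc ∑ s ∈ Φ, (s : ℝ) ^ (-(3 / 4) : ℝ) * √(g s) ≤ ∑ s ∈ Φ, P ^ (-(3 / 4) : ℝ) * √(g s) := by
        refine sum_le_sum fun s hs => mul_le_mul_of_nonneg_right ?_ (Real.sqrt_nonneg _)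
        refine Real.rpow_le_rpow_of_nonpos hP0 ?_ (by norm_num)
        rw [hP]
        exact_mod_cast (hΦ s hs).2.1
    _ = P ^ (-(3 / 4) : ℝ) * ∑ s ∈ Φ, √(g s) := by rw [mul_sum]
    _ ≤ P ^ (-(3 / 4) : ℝ) * (√(2 * B) * √(P ^ 2 * √(M / P))) :=
        mul_le_mul_of_nonneg_left (h5.trans h6) (by positivity)
    _ = √(2 * B) * (P ^ (-(3 / 4) : ℝ) * √(P ^ 2 * √(M / P))) := by ring
    _ = √(2 * B) * M ^ (1 / 4 : ℝ) := by rw [h7]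

/-- the sum over `s` -/
theorem dy (M B : ℝ) (hM : 1 ≤ M) (hB : 0 ≤ B) (a : ℕ → ℝ)
    (h2 : ∀ R S : ℕ, (R : ℝ) ^ 2 * S ≤ 4 * M →
      ∑ s ∈ (Icc 1 S).filter Squarefree, ∑ r ∈ Icc 1 R, a (r ^ 2 * s) ^ 4 ≤ B * (R * S)) (X : ℕ) :
    ∑ s ∈ (Icc 1 X).filter Squarefree, (s : ℝ) ^ (-(3 / 4) : ℝ) *
      √(∑ r ∈ (Icc 1 X).filter (fun r : ℕ => (r : ℝ) ^ 2 * (s : ℝ) ≤ M), a (r ^ 2 * s) ^ 4) ≤
      ((Nat.log 2 ⌊M⌋₊ : ℝ) + 1) * (√(2 * B) * M ^ (1 / 4 : ℝ)) := by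
  rw [← sum_filter_of_ne (p := fun s : ℕ => s ≤ ⌊M⌋₊) (by
    intro s hs hne
    by_contra hlt
    refine hne ?_
    have h3 : (Icc 1 X).filter (fun r : ℕ => (r : ℝ) ^ 2 * (s : ℝ) ≤ M) = ∅ := by
      apply filter_eq_empty_iff.2
      intro r hr hle
      rw [mem_Icc] at hr
      have h4 : (1 : ℝ) ≤ r := by exact_mod_cast hr.1
      have h5 : M < s := (Nat.floor_lt (by linarith)).1 (not_le.1 hlt)
      have h6 : (1 : ℝ) ≤ (r : ℝ) ^ 2 := one_le_pow₀ h4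
      nlinarith [mul_le_mul_of_nonneg_right h6 (Nat.cast_nonneg (α := ℝ) s)]
    rw [h3]
    simp)]
  rw [← sum_fiberwise_of_maps_to (g := Nat.log 2) (t := range (Nat.log 2 ⌊M⌋₊ + 1)) (by
    intro s hs
    rw [mem_filter] at hs
    rw [mem_range]
    exact Nat.lt_succ_of_le (Nat.log_mono_right hs.2))]
  refine (sum_le_sum fun i _ => dy_fiber M B hM hB a h2 X i _ ?_).trans (le_of_eq ?_)
  · intro s hs
    rw [mem_filter, mem_filter, mem_filter, mem_Icc] at hs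
    have h3 : s ≠ 0 := by omega
    refine ⟨hs.1.1.2, ?_, ?_⟩
    · rw [← hs.2]
      exact Nat.pow_log_le_self 2 h3
    · rw [← hs.2]
      exact Nat.lt_pow_succ_log_self (by norm_num) s
  · rw [sum_const, card_range, nsmul_eq_mul]
    push_cast
    ring

/-- the weights in terms of powers -/
theorem w_le (T v a w : ℝ) (hT : 0 < T) (hv : 0 < v) (hw : |w| ≤ |a| / (T * v) ^ (1 / 4 : ℝ)) :
    |w| ≤ T ^ (-(1 / 4) : ℝ) * (|a| * (v ^ (-(1 / 3) : ℝ)) ^ (3 / 4 : ℝ)) ∧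
      |w| ^ 2 ≤ T ^ (-(1 / 2) : ℝ) * (a ^ 2 * (v ^ (-(2 / 3) : ℝ)) ^ (3 / 4 : ℝ)) := by
  have h1 : (T * v) ^ (1 / 4 : ℝ) = T ^ (1 / 4 : ℝ) * v ^ (1 / 4 : ℝ) := Real.mul_rpow hT.le hv.le
  have h2 : (v ^ (-(1 / 3) : ℝ)) ^ (3 / 4 : ℝ) = v ^ (-(1 / 4) : ℝ) := by
    rw [← Real.rpow_mul hv.le]; norm_num
  have h4 : T ^ (-(1 / 2) : ℝ) = (T ^ (-(1 / 4) : ℝ)) ^ 2 := by
    rw [← Real.rpow_natCast, ← Real.rpow_mul hT.le]; norm_num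
  have h5 : |w| ≤ T ^ (-(1 / 4) : ℝ) * (|a| * v ^ (-(1 / 4) : ℝ)) := by
    refine hw.trans (le_of_eq ?_)
    rw [h1, Real.rpow_neg hT.le, Real.rpow_neg hv.le, div_eq_mul_inv, mul_inv]
    ring
  refine ⟨by rw [h2]; exact h5, ?_⟩
  have h6 : (v ^ (-(2 / 3) : ℝ)) ^ (3 / 4 : ℝ) = (v ^ (-(1 / 4) : ℝ)) ^ 2 := by
    rw [← Real.rpow_mul hv.le, ← Real.rpow_natCast, ← Real.rpow_mul hv.le]; norm_num
  rw [h6, h4, ← sq_abs a]
  refine (pow_le_pow_left₀ (abs_nonneg _) h5 2).trans (le_of_eq ?_)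
  ring

/-- the part of the norm with few `r` for each `s` -/
theorem partA (c₀ c T H B m : ℝ) (hc₀ : 0 < c₀) (hc : c₀ ≤ c) (hT : 1 ≤ T) (hH : 1 ≤ H) (hB : 1 ≤ B) (hm : 1 ≤ m)
    (a w : ℕ → ℝ) (h8 : ∀ N : ℕ, (N : ℝ) ≤ 4 * m * T → ∑ n ∈ Icc 1 N, a n ^ 8 ≤ B * N)
    (hw : ∀ n : ℕ, |w n| ≤ |a n| / (T * (1 + |T - c * n|)) ^ (1 / 4 : ℝ))
    (hwH : ∀ n : ℕ, H < 1 + |T - c * n| → w n = 0) :
    ∑ n ∈ Icc 1 ⌊m * T⌋₊, |w n| ^ 2 ≤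
      (6 / min c₀ (1 / 2)) ^ (3 / 4 : ℝ) * m ^ (1 / 4 : ℝ) * B * (H / T) ^ (1 / 4 : ℝ) := by
  obtain ⟨δ, hδ⟩ : ∃ δ : ℝ, δ = min c₀ (1 / 2) := ⟨_, rfl⟩
  have hδ0 : 0 < δ := by rw [hδ]; exact lt_min hc₀ (by norm_num)
  have hT0 : 0 < T := by linarith
  have hH0 : 0 < H := by linarith
  have hm0 : 0 < m := by linarith
  rw [← sum_filter_of_ne (p := fun n : ℕ => 1 + |T - c * n| ≤ H) (by
    intro n _ hne
    by_contra hlt
    exact hne (by rw [hwH n (not_le.1 hlt)]; simp))]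
  obtain ⟨F, hF⟩ : ∃ F : Finset ℕ, F = (Icc 1 ⌊m * T⌋₊).filter (fun n : ℕ => 1 + |T - c * n| ≤ H) := ⟨_, rfl⟩
  rw [← hF, ← hδ]
  have hF2 : ∀ n ∈ F, 1 + |T - c * n| ≤ H := fun n hn => by
    rw [hF, mem_filter] at hn
    exact hn.2
  have hns := near_sum c₀ c T H hc₀ hc hT0.le hH0.le F hF2
  rw [← hδ] at hns
  have hmT : (0 : ℝ) < m * T := by positivity
  have hY : ((⌊m * T⌋₊ : ℕ) : ℝ) ≤ m * T := Nat.floor_le hmT.le
  have ha : ∑ n ∈ F, (a n ^ 2) ^ 4 ≤ B * (m * T) := by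
    calc ∑ n ∈ F, (a n ^ 2) ^ 4 ≤ ∑ n ∈ Icc 1 ⌊m * T⌋₊, (a n ^ 2) ^ 4 :=
          sum_le_sum_of_subset_of_nonneg (by rw [hF]; exact filter_subset _ _) fun _ _ _ => by positivity
      _ = ∑ n ∈ Icc 1 ⌊m * T⌋₊, a n ^ 8 := sum_congr rfl fun n _ => by rw [← pow_mul]
      _ ≤ B * (⌊m * T⌋₊ : ℕ) := h8 _ (by nlinarith)
      _ ≤ B * (m * T) := mul_le_mul_of_nonneg_left hY (by linarith)
  calc ∑ n ∈ F, |w n| ^ 2 ≤ ∑ n ∈ F, T ^ (-(1 / 2) : ℝ) *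
        (a n ^ 2 * ((1 + |T - c * n|) ^ (-(2 / 3) : ℝ)) ^ (3 / 4 : ℝ)) :=
        sum_le_sum fun n _ => (w_le T _ (a n) (w n) hT0 (by positivity) (hw n)).2
    _ = T ^ (-(1 / 2) : ℝ) * ∑ n ∈ F, (a n ^ 2 * ((1 + |T - c * n|) ^ (-(2 / 3) : ℝ)) ^ (3 / 4 : ℝ)) := by
        rw [mul_sum]
    _ ≤ T ^ (-(1 / 2) : ℝ) * ((∑ n ∈ F, (a n ^ 2) ^ 4) ^ (1 / 4 : ℝ) *
        (∑ n ∈ F, (1 + |T - c * n|) ^ (-(2 / 3) : ℝ)) ^ (3 / 4 : ℝ)) :=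
        mul_le_mul_of_nonneg_left (hol F _ _ (fun _ _ => by positivity) (fun _ _ => by positivity))
          (by positivity)
    _ ≤ T ^ (-(1 / 2) : ℝ) * ((B * (m * T)) ^ (1 / 4 : ℝ) * (6 / δ * H ^ (1 / 3 : ℝ)) ^ (3 / 4 : ℝ)) := by
        refine mul_le_mul_of_nonneg_left (mul_le_mul ?_ ?_ (by positivity) (by positivity)) (by positivity)
        · exact Real.rpow_le_rpow (sum_nonneg fun _ _ => by positivity) ha (by norm_num)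
        · exact Real.rpow_le_rpow (sum_nonneg fun _ _ => by positivity) hns (by norm_num)
    _ = (6 / δ) ^ (3 / 4 : ℝ) * m ^ (1 / 4 : ℝ) * B ^ (1 / 4 : ℝ) * (H / T) ^ (1 / 4 : ℝ) := by
        rw [Real.mul_rpow (by linarith) (by positivity), Real.mul_rpow hm0.le hT0.le,
          Real.mul_rpow (by positivity) (by positivity), ← Real.rpow_mul hH0.le, Real.div_rpow hH0.le hT0.le,
          show (1 / 3 * (3 / 4) : ℝ) = 1 / 4 by norm_num]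
        have h1 : T ^ (-(1 / 2) : ℝ) * T ^ (1 / 4 : ℝ) = (T ^ (1 / 4 : ℝ))⁻¹ := by
          rw [← Real.rpow_add hT0, ← Real.rpow_neg hT0.le]
          norm_num
        calc T ^ (-(1 / 2) : ℝ) * (B ^ (1 / 4 : ℝ) * (m ^ (1 / 4 : ℝ) * T ^ (1 / 4 : ℝ)) *
              ((6 / δ) ^ (3 / 4 : ℝ) * H ^ (1 / 4 : ℝ)))
            = (6 / δ) ^ (3 / 4 : ℝ) * m ^ (1 / 4 : ℝ) * B ^ (1 / 4 : ℝ) * (H ^ (1 / 4 : ℝ) *
              (T ^ (-(1 / 2) : ℝ) * T ^ (1 / 4 : ℝ))) := by ring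
          _ = _ := by rw [h1, div_eq_mul_inv (H ^ (1 / 4 : ℝ))]
    _ ≤ (6 / δ) ^ (3 / 4 : ℝ) * m ^ (1 / 4 : ℝ) * B * (H / T) ^ (1 / 4 : ℝ) := by
        refine mul_le_mul_of_nonneg_right (mul_le_mul_of_nonneg_left ?_ (by positivity)) (by positivity)
        exact Real.rpow_le_self_of_one_le hB (by norm_num)

/-- the part of the norm with many `r` -/
theorem partB (c₀ c T H M s : ℝ) (hc₀ : 0 < c₀) (hc : c₀ ≤ c) (hT : 1 ≤ T) (hH : 1 ≤ H) (hs : 1 ≤ s)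
    (X : ℕ) (F : Finset ℕ) (a w : ℕ → ℝ) (hF : F ⊆ (Icc 1 X).filter (fun r : ℕ => (r : ℝ) ^ 2 * s ≤ M))
    (hw : ∀ r : ℕ, |w r| ≤ |a r| / (T * (1 + |T - c * s * (r : ℝ) ^ 2|)) ^ (1 / 4 : ℝ))
    (hv : ∀ r ∈ F, s < 1 + |T - c * s * (r : ℝ) ^ 2| ∧ 1 + |T - c * s * (r : ℝ) ^ 2| ≤ H) :
    (∑ r ∈ F, |w r|) ^ 2 ≤ T ^ (-(1 / 2) : ℝ) * ((2 + 18 * c₀ ^ (-(1 / 2) : ℝ)) ^ (3 / 2 : ℝ) * H ^ (1 / 4 : ℝ)) *
      (s ^ (-(3 / 4) : ℝ) * √(∑ r ∈ (Icc 1 X).filter (fun r : ℕ => (r : ℝ) ^ 2 * s ≤ M), a r ^ 4)) := by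
  have hT0 : 0 < T := by linarith
  have hH0 : 0 < H := by linarith
  have hs0 : 0 < s := by linarith
  have hc' : 0 < c := by linarith
  obtain ⟨G, hG⟩ : ∃ G : ℝ, G = ∑ r ∈ (Icc 1 X).filter (fun r : ℕ => (r : ℝ) ^ 2 * s ≤ M), a r ^ 4 := ⟨_, rfl⟩
  obtain ⟨C₂, hC₂⟩ : ∃ C₂ : ℝ, C₂ = 2 + 18 * c₀ ^ (-(1 / 2) : ℝ) := ⟨_, rfl⟩
  have hC₂0 : 0 < C₂ := by rw [hC₂]; positivity
  rw [← hG, ← hC₂]
  have hG0 : 0 ≤ G := by rw [hG]; exact sum_nonneg fun _ _ => Even.pow_nonneg (by decide) _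
  have hz : ∑ r ∈ F, (1 + |T - c * s * (r : ℝ) ^ 2|) ^ (-(1 / 3) : ℝ) ≤
      C₂ * (s ^ (-(1 / 2) : ℝ) * H ^ (1 / 6 : ℝ)) := by
    rcases F.eq_empty_or_nonempty with h0 | ⟨r₀, hr₀⟩
    · rw [h0, sum_empty]
      positivity
    · have hsH : s ≤ H := (hv r₀ hr₀).1.le.trans (hv r₀ hr₀).2
      refine (sum_B (c * s) T s H (by positivity) hT0.le hs0 hH0 F
        (fun r hr => ⟨(hv r hr).1.le, (hv r hr).2⟩)).trans ?_
      have h1 : s ^ (-(1 / 3) : ℝ) ≤ s ^ (-(1 / 2) : ℝ) * H ^ (1 / 6 : ℝ) := by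
        have h2 : s ^ (-(1 / 3) : ℝ) = s ^ (-(1 / 2) : ℝ) * s ^ (1 / 6 : ℝ) := by
          rw [← Real.rpow_add hs0]; norm_num
        rw [h2]
        exact mul_le_mul_of_nonneg_left (Real.rpow_le_rpow hs0.le hsH (by norm_num)) (by positivity)
      have h3 : (c * s) ^ (-(1 / 2) : ℝ) ≤ c₀ ^ (-(1 / 2) : ℝ) * s ^ (-(1 / 2) : ℝ) := by
        rw [Real.mul_rpow hc'.le hs0.le]
        exact mul_le_mul_of_nonneg_right (Real.rpow_le_rpow_of_nonpos hc₀ hc (by norm_num)) (by positivity)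
      have h4 : (c * s) ^ (-(1 / 2) : ℝ) * H ^ (1 / 6 : ℝ) ≤
          c₀ ^ (-(1 / 2) : ℝ) * s ^ (-(1 / 2) : ℝ) * H ^ (1 / 6 : ℝ) :=
        mul_le_mul_of_nonneg_right h3 (by positivity)
      rw [hC₂]
      calc 2 * s ^ (-(1 / 3) : ℝ) + 18 * ((c * s) ^ (-(1 / 2) : ℝ) * H ^ (1 / 6 : ℝ))
          ≤ 2 * (s ^ (-(1 / 2) : ℝ) * H ^ (1 / 6 : ℝ)) +
            18 * (c₀ ^ (-(1 / 2) : ℝ) * s ^ (-(1 / 2) : ℝ) * H ^ (1 / 6 : ℝ)) := by linarith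
        _ = (2 + 18 * c₀ ^ (-(1 / 2) : ℝ)) * (s ^ (-(1 / 2) : ℝ) * H ^ (1 / 6 : ℝ)) := by ring
  have hGF : ∑ r ∈ F, |a r| ^ 4 ≤ G := by
    rw [hG]
    refine (sum_le_sum_of_subset_of_nonneg hF fun _ _ _ => by positivity).trans (le_of_eq ?_)
    exact sum_congr rfl fun r _ => by rw [Even.pow_abs (by decide)]
  have h1 : ∑ r ∈ F, |w r| ≤ T ^ (-(1 / 4) : ℝ) * (G ^ (1 / 4 : ℝ) *
      (C₂ * (s ^ (-(1 / 2) : ℝ) * H ^ (1 / 6 : ℝ))) ^ (3 / 4 : ℝ)) := by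
    calc ∑ r ∈ F, |w r| ≤ ∑ r ∈ F, T ^ (-(1 / 4) : ℝ) *
          (|a r| * ((1 + |T - c * s * (r : ℝ) ^ 2|) ^ (-(1 / 3) : ℝ)) ^ (3 / 4 : ℝ)) :=
          sum_le_sum fun r _ => (w_le T _ (a r) (w r) hT0 (by positivity) (hw r)).1
      _ = T ^ (-(1 / 4) : ℝ) * ∑ r ∈ F,
          (|a r| * ((1 + |T - c * s * (r : ℝ) ^ 2|) ^ (-(1 / 3) : ℝ)) ^ (3 / 4 : ℝ)) := by rw [mul_sum]
      _ ≤ T ^ (-(1 / 4) : ℝ) * ((∑ r ∈ F, |a r| ^ 4) ^ (1 / 4 : ℝ) *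
          (∑ r ∈ F, (1 + |T - c * s * (r : ℝ) ^ 2|) ^ (-(1 / 3) : ℝ)) ^ (3 / 4 : ℝ)) :=
          mul_le_mul_of_nonneg_left (hol F _ _ (fun _ _ => by positivity) (fun _ _ => by positivity))
            (by positivity)
      _ ≤ _ := by
          refine mul_le_mul_of_nonneg_left (mul_le_mul ?_ ?_ (by positivity) (by positivity)) (by positivity)
          · exact Real.rpow_le_rpow (sum_nonneg fun _ _ => by positivity) hGF (by norm_num)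
          · exact Real.rpow_le_rpow (sum_nonneg fun _ _ => by positivity) hz (by norm_num)
  have h2 := pow_le_pow_left₀ (sum_nonneg fun r _ => abs_nonneg (w r)) h1 2
  refine h2.trans (le_of_eq ?_)
  have h3 : (T ^ (-(1 / 4) : ℝ)) ^ 2 = T ^ (-(1 / 2) : ℝ) := by
    rw [← Real.rpow_natCast, ← Real.rpow_mul hT0.le]; norm_num
  have h4 : (G ^ (1 / 4 : ℝ)) ^ 2 = √G := by
    rw [← Real.rpow_natCast, ← Real.rpow_mul hG0, Real.sqrt_eq_rpow]; norm_num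
  have h5 : ((C₂ * (s ^ (-(1 / 2) : ℝ) * H ^ (1 / 6 : ℝ))) ^ (3 / 4 : ℝ)) ^ 2 =
      C₂ ^ (3 / 2 : ℝ) * (s ^ (-(3 / 4) : ℝ) * H ^ (1 / 4 : ℝ)) := by
    rw [← Real.rpow_natCast, ← Real.rpow_mul (by positivity), Real.mul_rpow hC₂0.le (by positivity),
      Real.mul_rpow (by positivity) (by positivity), ← Real.rpow_mul hs0.le, ← Real.rpow_mul hH0.le]
    norm_num
  rw [mul_pow, mul_pow, h3, h4, h5]
  ring

theorem log_le (M : ℝ) (hM : 1 ≤ M) : (Nat.log 2 ⌊M⌋₊ : ℝ) + 1 ≤ 2 * Real.log M + 1 := by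
  have h1 : ⌊M⌋₊ ≠ 0 := (Nat.floor_pos.2 hM).ne'
  have h2 : (2 : ℝ) ^ Nat.log 2 ⌊M⌋₊ ≤ M := by
    have h3 : 2 ^ Nat.log 2 ⌊M⌋₊ ≤ ⌊M⌋₊ := Nat.pow_log_le_self 2 h1
    have h4 : ((2 ^ Nat.log 2 ⌊M⌋₊ : ℕ) : ℝ) ≤ (⌊M⌋₊ : ℝ) := by exact_mod_cast h3
    push_cast at h4
    exact h4.trans (Nat.floor_le (by linarith))
  have h3 := Real.log_le_log (by positivity) h2
  rw [Real.log_pow] at h3
  have h4 := Real.log_two_gt_d9
  have h5 : (0 : ℝ) ≤ (Nat.log 2 ⌊M⌋₊ : ℝ) := Nat.cast_nonneg _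
  nlinarith

theorem kn2 : S_KN2 := by
  intro y₀ y₁ m hy₀ _ hm
  have hpi := Real.pi_pos
  obtain ⟨c₀, hc₀⟩ : ∃ c₀ : ℝ, c₀ = 2 * Real.pi * y₀ := ⟨_, rfl⟩
  have hc₀p : 0 < c₀ := by rw [hc₀]; positivity
  have hδ0 : 0 < min c₀ (1 / 2) := lt_min hc₀p (by norm_num)
  have hm0 : 0 < m := by linarith
  have hlm : 0 ≤ Real.log m := Real.log_nonneg hm
  obtain ⟨C₁, hC₁⟩ : ∃ C₁ : ℝ, C₁ = 2 + 6 * √(1 / c₀) := ⟨_, rfl⟩
  have hC₁0 : 0 < C₁ := by rw [hC₁]; positivity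
  obtain ⟨KA, hKA⟩ : ∃ KA : ℝ, KA = (6 / min c₀ (1 / 2)) ^ (3 / 4 : ℝ) * m ^ (1 / 4 : ℝ) := ⟨_, rfl⟩
  have hKA0 : 0 ≤ KA := by rw [hKA]; positivity
  obtain ⟨K2, hK2⟩ : ∃ K2 : ℝ, K2 = (2 + 18 * c₀ ^ (-(1 / 2) : ℝ)) ^ (3 / 2 : ℝ) := ⟨_, rfl⟩
  have hK20 : 0 ≤ K2 := by rw [hK2]; positivity
  refine ⟨2 * (C₁ * KA) + 2 * (K2 * (2 * m ^ (1 / 4 : ℝ) * (2 * Real.log m + 2))), by positivity, ?_⟩
  intro T y H B X a w hT hy _ hH hB hM8 hw hw0 hwH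
  obtain ⟨c, hc⟩ : ∃ c : ℝ, c = 2 * Real.pi * y := ⟨_, rfl⟩
  have hcc : c₀ ≤ c := by
    rw [hc₀, hc]
    exact mul_le_mul_of_nonneg_left hy (by positivity)
  have hcp : 0 < c := hc₀p.trans_le hcc
  have hT0 : 0 < T := by linarith
  have hH0 : 0 < H := by linarith
  have hlT : 0 ≤ Real.log T := Real.log_nonneg hT
  have hv : ∀ n : ℕ, T - 2 * Real.pi * n * y = T - c * n := fun n => by rw [hc]; ring
  simp_rw [hv] at hw hwH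
  obtain ⟨h8, h4⟩ := hM8
  have hA := partA c₀ c T H B m hc₀p hcc hT hH hB hm a w h8 hw hwH
  rw [← hKA] at hA
  have hmT : (0 : ℝ) < m * T := by positivity
  have hmT1 : 1 ≤ m * T := by nlinarith
  -- the inner sums
  have hin : ∀ s ∈ (Icc 1 X).filter Squarefree, (∑ r ∈ Icc 1 X, |w (r ^ 2 * s)|) ^ 2 ≤
      2 * (C₁ * ∑ r ∈ Icc 1 X, |w (r ^ 2 * s)| ^ 2) +
      2 * (T ^ (-(1 / 2) : ℝ) * (K2 * H ^ (1 / 4 : ℝ)) * ((s : ℝ) ^ (-(3 / 4) : ℝ) *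
        √(∑ r ∈ (Icc 1 X).filter (fun r : ℕ => (r : ℝ) ^ 2 * (s : ℝ) ≤ m * T), a (r ^ 2 * s) ^ 4))) := by
    intro s hs
    rw [mem_filter, mem_Icc] at hs
    have hs1 : (1 : ℝ) ≤ s := by exact_mod_cast hs.1.1
    have hs0 : (0 : ℝ) < s := by linarith
    have hvr : ∀ r : ℕ, T - c * ((r ^ 2 * s : ℕ) : ℝ) = T - c * s * (r : ℝ) ^ 2 := fun r => by
      push_cast
      ring
    rw [← sum_filter_of_ne (s := Icc 1 X) (f := fun r => |w (r ^ 2 * s)|) (p := fun r : ℕ => w (r ^ 2 * s) ≠ 0) (by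
      intro r _ hne h0
      exact hne (by rw [h0, abs_zero]))]
    rw [← sum_filter_add_sum_filter_not ((Icc 1 X).filter (fun r : ℕ => w (r ^ 2 * s) ≠ 0))
      (fun r : ℕ => 1 + |T - c * s * (r : ℝ) ^ 2| ≤ s)]
    obtain ⟨FA, hFA⟩ : ∃ FA : Finset ℕ, FA = ((Icc 1 X).filter (fun r : ℕ => w (r ^ 2 * s) ≠ 0)).filter
      (fun r : ℕ => 1 + |T - c * s * (r : ℝ) ^ 2| ≤ s) := ⟨_, rfl⟩
    obtain ⟨FB, hFB⟩ : ∃ FB : Finset ℕ, FB = ((Icc 1 X).filter (fun r : ℕ => w (r ^ 2 * s) ≠ 0)).filter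
      (fun r : ℕ => ¬ (1 + |T - c * s * (r : ℝ) ^ 2| ≤ s)) := ⟨_, rfl⟩
    rw [← hFA, ← hFB]
    have hAb : (∑ r ∈ FA, |w (r ^ 2 * s)|) ^ 2 ≤ C₁ * ∑ r ∈ Icc 1 X, |w (r ^ 2 * s)| ^ 2 := by
      refine sq_sum_le_card_mul_sum_sq.trans ?_
      have h1 : (FA.card : ℝ) ≤ C₁ := by
        refine (card_A (c * s) T s (by positivity) hT0.le FA ?_).trans ?_
        · intro r hr
          rw [hFA, mem_filter] at hr
          exact hr.2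
        · rw [hC₁]
          have h2 : √((s : ℝ) / (c * s)) ≤ √(1 / c₀) := by
            apply Real.sqrt_le_sqrt
            have h3 : (s : ℝ) / (c * s) = 1 / c := by field_simp
            rw [h3]
            exact one_div_le_one_div_of_le hc₀p hcc
          linarith
      refine mul_le_mul h1 ?_ (sum_nonneg fun _ _ => by positivity) hC₁0.le
      refine sum_le_sum_of_subset_of_nonneg ?_ fun _ _ _ => by positivity
      rw [hFA]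
      exact (filter_subset _ _).trans (filter_subset _ _)
    have hBb := partB c₀ c T H (m * T) s hc₀p hcc hT hH hs1 X FB (fun r => a (r ^ 2 * s)) (fun r => w (r ^ 2 * s))
      (by
        intro r hr
        rw [hFB, mem_filter, mem_filter] at hr
        rw [mem_filter]
        refine ⟨hr.1.1, ?_⟩
        by_contra hlt
        refine hr.1.2 (hw0 _ ?_)
        push_cast
        exact not_le.1 hlt) (by
        intro r
        have := hw (r ^ 2 * s)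
        rw [hvr] at this
        exact this) (by
        intro r hr
        rw [hFB, mem_filter, mem_filter] at hr
        refine ⟨not_le.1 hr.2, ?_⟩
        by_contra hlt
        refine hr.1.2 (hwH _ ?_)
        rw [hvr]
        exact not_le.1 hlt)
    rw [← hK2] at hBb
    nlinarith [sq_nonneg ((∑ r ∈ FA, |w (r ^ 2 * s)|) - ∑ r ∈ FB, |w (r ^ 2 * s)|)]
  have hsA : ∑ s ∈ (Icc 1 X).filter Squarefree, ∑ r ∈ Icc 1 X, |w (r ^ 2 * s)| ^ 2 ≤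
      KA * B * (H / T) ^ (1 / 4 : ℝ) := by
    refine (pairs2 X ⌊m * T⌋₊ (fun n => |w n| ^ 2) (fun _ => by positivity) ?_).trans hA
    intro n hn
    rw [hw0 n ((Nat.floor_lt hmT.le).1 hn)]
    simp
  have hsB := dy (m * T) B hmT1 (by linarith) a (fun R S h => h4 R S (by linarith)) X
  have hlog := log_le (m * T) hmT1
  rw [Real.log_mul hm0.ne' hT0.ne'] at hlog
  have hlog2 : (Nat.log 2 ⌊m * T⌋₊ : ℝ) + 1 ≤ (2 * Real.log m + 2) * (1 + Real.log T) := by nlinarith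
  have hB2 : √(2 * B) ≤ 2 * B := by
    rw [Real.sqrt_le_left (by linarith)]
    nlinarith
  obtain ⟨q, hq⟩ : ∃ q : ℝ, q = (H / T) ^ (1 / 4 : ℝ) := ⟨_, rfl⟩
  have hq0 : 0 ≤ q := by rw [hq]; positivity
  have hTT : T ^ (-(1 / 2) : ℝ) * (K2 * H ^ (1 / 4 : ℝ)) * (2 * B * (m * T) ^ (1 / 4 : ℝ)) =
      K2 * (2 * m ^ (1 / 4 : ℝ)) * B * q := by
    rw [hq, Real.mul_rpow hm0.le hT0.le, Real.div_rpow hH0.le hT0.le]
    have h1 : T ^ (-(1 / 2) : ℝ) * T ^ (1 / 4 : ℝ) = (T ^ (1 / 4 : ℝ))⁻¹ := by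
      rw [← Real.rpow_add hT0, ← Real.rpow_neg hT0.le]
      norm_num
    calc T ^ (-(1 / 2) : ℝ) * (K2 * H ^ (1 / 4 : ℝ)) * (2 * B * (m ^ (1 / 4 : ℝ) * T ^ (1 / 4 : ℝ)))
        = K2 * (2 * m ^ (1 / 4 : ℝ)) * B * (H ^ (1 / 4 : ℝ) * (T ^ (-(1 / 2) : ℝ) * T ^ (1 / 4 : ℝ))) := by ring
      _ = _ := by rw [h1, div_eq_mul_inv (H ^ (1 / 4 : ℝ))]
  have hsB2 : T ^ (-(1 / 2) : ℝ) * (K2 * H ^ (1 / 4 : ℝ)) *
      ∑ s ∈ (Icc 1 X).filter Squarefree, ((s : ℝ) ^ (-(3 / 4) : ℝ) *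
        √(∑ r ∈ (Icc 1 X).filter (fun r : ℕ => (r : ℝ) ^ 2 * (s : ℝ) ≤ m * T), a (r ^ 2 * s) ^ 4)) ≤
      K2 * (2 * m ^ (1 / 4 : ℝ) * (2 * Real.log m + 2)) * B * (1 + Real.log T) * q := by
    have h1 : 0 ≤ T ^ (-(1 / 2) : ℝ) * (K2 * H ^ (1 / 4 : ℝ)) := by positivity
    have h2 : ((Nat.log 2 ⌊m * T⌋₊ : ℝ) + 1) * (√(2 * B) * (m * T) ^ (1 / 4 : ℝ)) ≤
        (2 * Real.log m + 2) * (1 + Real.log T) * (2 * B * (m * T) ^ (1 / 4 : ℝ)) := by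
      refine mul_le_mul hlog2 (mul_le_mul_of_nonneg_right hB2 (by positivity)) (by positivity) (by positivity)
    refine (mul_le_mul_of_nonneg_left (hsB.trans h2) h1).trans (le_of_eq ?_)
    calc T ^ (-(1 / 2) : ℝ) * (K2 * H ^ (1 / 4 : ℝ)) *
          ((2 * Real.log m + 2) * (1 + Real.log T) * (2 * B * (m * T) ^ (1 / 4 : ℝ)))
        = (2 * Real.log m + 2) * (1 + Real.log T) *
          (T ^ (-(1 / 2) : ℝ) * (K2 * H ^ (1 / 4 : ℝ)) * (2 * B * (m * T) ^ (1 / 4 : ℝ))) := by ring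
      _ = _ := by rw [hTT]; ring
  rw [← hq] at hsA
  have hfin : nn X w ≤ 2 * (C₁ * (KA * B * q)) +
      2 * (K2 * (2 * m ^ (1 / 4 : ℝ) * (2 * Real.log m + 2)) * B * (1 + Real.log T) * q) := by
    unfold nn
    refine (sum_le_sum hin).trans ?_
    rw [sum_add_distrib, ← mul_sum, ← mul_sum, ← mul_sum, ← mul_sum]
    refine add_le_add (mul_le_mul_of_nonneg_left (mul_le_mul_of_nonneg_left hsA hC₁0.le) (by norm_num))
      (mul_le_mul_of_nonneg_left hsB2 (by norm_num))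
  rw [← hq]
  refine hfin.trans ?_
  have hl1 : 1 ≤ 1 + Real.log T := by linarith
  have hl3 : 1 + Real.log T ≤ (1 + Real.log T) ^ 3 := le_self_pow₀ hl1 (by norm_num)
  have hBq : 0 ≤ B * q := mul_nonneg (by linarith) hq0
  have e1 : C₁ * (KA * B * q) ≤ C₁ * KA * (B * q) * (1 + Real.log T) ^ 3 := by
    have h1 : 0 ≤ C₁ * KA * (B * q) := by positivity
    calc C₁ * (KA * B * q) = C₁ * KA * (B * q) * 1 := by ring
      _ ≤ _ := mul_le_mul_of_nonneg_left (hl1.trans hl3) h1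
  have e2 : K2 * (2 * m ^ (1 / 4 : ℝ) * (2 * Real.log m + 2)) * B * (1 + Real.log T) * q ≤
      K2 * (2 * m ^ (1 / 4 : ℝ) * (2 * Real.log m + 2)) * (B * q) * (1 + Real.log T) ^ 3 := by
    have h1 : 0 ≤ K2 * (2 * m ^ (1 / 4 : ℝ) * (2 * Real.log m + 2)) * (B * q) := by positivity
    calc K2 * (2 * m ^ (1 / 4 : ℝ) * (2 * Real.log m + 2)) * B * (1 + Real.log T) * q
        = K2 * (2 * m ^ (1 / 4 : ℝ) * (2 * Real.log m + 2)) * (B * q) * (1 + Real.log T) := by ring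
      _ ≤ _ := mul_le_mul_of_nonneg_left hl3 h1
  calc 2 * (C₁ * (KA * B * q)) +
      2 * (K2 * (2 * m ^ (1 / 4 : ℝ) * (2 * Real.log m + 2)) * B * (1 + Real.log T) * q)
      ≤ 2 * (C₁ * KA * (B * q) * (1 + Real.log T) ^ 3) +
      2 * (K2 * (2 * m ^ (1 / 4 : ℝ) * (2 * Real.log m + 2)) * (B * q) * (1 + Real.log T) ^ 3) := by linarith
    _ = (2 * (C₁ * KA) + 2 * (K2 * (2 * m ^ (1 / 4 : ℝ) * (2 * Real.log m + 2)))) * B *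
      (1 + Real.log T) ^ 3 * q := by ring

end Pool.Agent.Q150.L2.KNB
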