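import Pool.Agent.Q255.L2.StmV

/-!
# Project L2 (helper255), job VMA: Vinogradov's system: coefficients, norm, diagonal term
-/

set_option autoImplicit false

namespace Pool.Agent.Q150.L2

open Filter Topology MeasureTheory Finset
open Pool.Agent.Q255.L2
open scoped Classical

/-! ### squares -/

theorem squarefree_of_square {a b : ℕ} (ha : Squarefree a) (hb : Squarefree b) (h : IsSquare (a * b)) :
    a = b := by
  obtain ⟨c, hc⟩ := h
  have ha0 := ha.ne_zero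
  have hb0 := hb.ne_zero
  apply Nat.eq_of_factorization_eq ha0 hb0
  intro p
  have h1 : a.factorization p + b.factorization p = 2 * c.factorization p := by
    have hc0 : c ≠ 0 := by
      rintro rfl
      rw [mul_zero] at hc
      exact (mul_ne_zero ha0 hb0) hc
    have := congrArg (fun n => n.factorization p) hc
    simp only [Nat.factorization_mul ha0 hb0, Nat.factorization_mul hc0 hc0, Finsupp.add_apply] at this
    omega
  have h2 := ha.natFactorization_le_one p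
  have h3 := hb.natFactorization_le_one p
  omega

theorem sqpart_unique {r r' s s' : ℕ} (hr : 1 ≤ r) (hr' : 1 ≤ r') (hs : Squarefree s) (hs' : Squarefree s')
    (h : IsSquare ((r ^ 2 * s) * (r' ^ 2 * s'))) : s = s' := by
  apply squarefree_of_square hs hs'
  have h1 : (r ^ 2 * s) * (r' ^ 2 * s') = (r * r') ^ 2 * (s * s') := by ring
  rw [h1] at h
  obtain ⟨c, hc⟩ := h
  have h2 : (r * r') ^ 2 ∣ c ^ 2 := ⟨s * s', by rw [sq c]; exact hc.symm⟩
  rw [Nat.pow_dvd_pow_iff two_ne_zero] at h2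
  obtain ⟨d, rfl⟩ := h2
  refine ⟨d, ?_⟩
  have h3 : 0 < (r * r') ^ 2 := by positivity
  apply Nat.eq_of_mul_eq_mul_left h3
  rw [hc]
  ring

/-! ### permutations -/

theorem exists_perm {s : ℕ} {x y : Fin s → ℕ}
    (h : ∀ v, (univ.filter fun i => x i = v).card = (univ.filter fun i => y i = v).card) :
    ∃ σ : Equiv.Perm (Fin s), y = x ∘ σ := by
  have e : ∀ v, Nonempty ({i // y i = v} ≃ {i // x i = v}) := by
    intro v
    refine ⟨Fintype.equivOfCardEq ?_⟩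
    rw [Fintype.card_subtype, Fintype.card_subtype, h v]
  refine ⟨(Equiv.sigmaFiberEquiv y).symm.trans ((Equiv.sigmaCongrRight fun v => (e v).some).trans
    (Equiv.sigmaFiberEquiv x)), ?_⟩
  funext i
  have h1 := ((e (y i)).some ⟨i, rfl⟩).2
  exact h1.symm

/-- the signs of the equation `∑ x = ∑ y` -/
def sgn (s : ℕ) : Fin s ⊕ Fin s → ℤ := Sum.elim (fun _ => 1) fun _ => -1

theorem bal_iff {s : ℕ} {x y : Fin s → ℕ} :
    Bal (sgn s) (Sum.elim x y) ↔ ∃ σ : Equiv.Perm (Fin s), y = x ∘ σ := by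
  have key : ∀ v, ∑ i ∈ univ.filter (fun i => (Sum.elim x y : Fin s ⊕ Fin s → ℕ) i = v), sgn s i =
      ((univ.filter fun i => x i = v).card : ℤ) - ((univ.filter fun i => y i = v).card : ℤ) := by
    intro v
    rw [Finset.sum_filter, Fintype.sum_sum_type, Finset.card_filter, Finset.card_filter]
    push_cast
    rw [sub_eq_add_neg, ← Finset.sum_neg_distrib]
    congr 1
    refine Finset.sum_congr rfl fun i _ => ?_
    change (if y i = v then (-1 : ℤ) else 0) = -(if y i = v then 1 else 0)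
    split_ifs <;> simp
  constructor
  · intro h
    apply exists_perm
    intro v
    have h1 := h v
    rw [key v] at h1
    omega
  · rintro ⟨σ, rfl⟩ v
    rw [key v, sub_eq_zero, Nat.cast_inj]
    rw [Finset.card_filter, Finset.card_filter]
    exact (Equiv.sum_comp σ (fun i => if x i = v then 1 else 0)).symm

/-- the product of all the variables -/
def PP {s : ℕ} (t : (Fin s → ℕ) × (Fin s → ℕ)) : ℕ := (∏ i, t.1 i) * ∏ i, t.2 i

theorem sq_of_bal {s : ℕ} {x y : Fin s → ℕ} (h : Bal (sgn s) (Sum.elim x y)) : IsSquare (PP (x, y)) := by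
  obtain ⟨σ, rfl⟩ := bal_iff.1 h
  refine ⟨∏ i, x i, ?_⟩
  unfold PP
  congr 1
  exact Equiv.prod_comp σ x

theorem prod_elim {s : ℕ} (t : (Fin s → ℕ) × (Fin s → ℕ)) : ∏ i, (Sum.elim t.1 t.2 : Fin s ⊕ Fin s → ℕ) i = PP t := by
  rw [Fintype.prod_sum_type]
  rfl

theorem sum_elim_sgn {s : ℕ} (t : (Fin s → ℕ) × (Fin s → ℕ)) :
    ∑ i, sgn s i * (((Sum.elim t.1 t.2 : Fin s ⊕ Fin s → ℕ) i : ℕ) : ℤ) =
      ((∑ i, t.1 i : ℕ) : ℤ) - ((∑ i, t.2 i : ℕ) : ℤ) := by
  rw [Fintype.sum_sum_type]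
  simp only [sgn, Sum.elim_inl, Sum.elim_inr, one_mul, neg_mul, Finset.sum_neg_distrib]
  push_cast
  ring

theorem mem_Sol {s k : ℕ} {I : Finset ℕ} {t : (Fin s → ℕ) × (Fin s → ℕ)} :
    t ∈ Sol s k I ↔ (∀ i, t.1 i ∈ I) ∧ (∀ i, t.2 i ∈ I) ∧ ∀ j ∈ Icc 1 k, ∑ i, t.1 i ^ j = ∑ i, t.2 i ^ j := by
  unfold Sol
  simp only [Finset.mem_filter, Finset.mem_product, Fintype.mem_piFinset, and_assoc]

section

variable {s k N a b : ℕ}

theorem sol_one (hk : 1 ≤ k) {I : Finset ℕ} {t : (Fin s → ℕ) × (Fin s → ℕ)} (h : t ∈ Sol s k I) :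
    ∑ i, t.1 i = ∑ i, t.2 i := by
  have h1 := (mem_Sol.1 h).2.2 1 (mem_Icc.2 ⟨le_rfl, hk⟩)
  simpa using h1

theorem PP_le (hb : b ≤ N) {t : (Fin s → ℕ) × (Fin s → ℕ)} (h : t ∈ Sol s k (Ioc a b)) :
    PP t ≤ N ^ (2 * s) := by
  obtain ⟨h1, h2, -⟩ := mem_Sol.1 h
  unfold PP
  rw [two_mul, pow_add]
  refine Nat.mul_le_mul ?_ ?_
  · calc ∏ i, t.1 i ≤ ∏ _i : Fin s, N := Finset.prod_le_prod' fun i _ => (mem_Ioc.1 (h1 i)).2.trans hb
      _ = N ^ s := by simp
  · calc ∏ i, t.2 i ≤ ∏ _i : Fin s, N := Finset.prod_le_prod' fun i _ => (mem_Ioc.1 (h2 i)).2.trans hb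
      _ = N ^ s := by simp

theorem PP_pos {t : (Fin s → ℕ) × (Fin s → ℕ)} (h : t ∈ Sol s k (Ioc a b)) : 1 ≤ PP t := by
  obtain ⟨h1, h2, -⟩ := mem_Sol.1 h
  unfold PP
  exact Nat.mul_pos (Finset.prod_pos fun i _ => by have := (mem_Ioc.1 (h1 i)).1; omega)
    (Finset.prod_pos fun i _ => by have := (mem_Ioc.1 (h2 i)).1; omega)

theorem elim_mem (hb : b ≤ N) {t : (Fin s → ℕ) × (Fin s → ℕ)} (h : t ∈ Sol s k (Ioc a b)) :
    ∀ i, (Sum.elim t.1 t.2 : Fin s ⊕ Fin s → ℕ) i ∈ Icc 1 N := by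
  obtain ⟨h1, h2, -⟩ := mem_Sol.1 h
  rintro (i | i)
  · have := mem_Ioc.1 (h1 i)
    exact mem_Icc.2 ⟨by change 1 ≤ t.1 i; omega, this.2.trans hb⟩
  · have := mem_Ioc.1 (h2 i)
    exact mem_Icc.2 ⟨by change 1 ≤ t.2 i; omega, this.2.trans hb⟩

theorem elim_inj {t t' : (Fin s → ℕ) × (Fin s → ℕ)}
    (h : (Sum.elim t.1 t.2 : Fin s ⊕ Fin s → ℕ) = Sum.elim t'.1 t'.2) : t = t' := by
  refine Prod.ext ?_ ?_
  · funext i
    exact congrFun h (Sum.inl i)
  · funext i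
    exact congrFun h (Sum.inr i)

/-- the pairs of solutions with nonsquare products whose product is a square -/
noncomputable def Prs (s k a b : ℕ) : Finset (((Fin s → ℕ) × (Fin s → ℕ)) × ((Fin s → ℕ) × (Fin s → ℕ))) :=
  (Sol s k (Ioc a b) ×ˢ Sol s k (Ioc a b)).filter fun q => ¬ IsSquare (PP q.1) ∧ ¬ IsSquare (PP q.2) ∧
    IsSquare (PP q.1 * PP q.2)

theorem nn_le (X : ℕ) : nn X (AA s k (Ioc a b)) ≤ ((Prs s k a b).card : ℝ) := by
  set T : ℕ → Finset ((Fin s → ℕ) × (Fin s → ℕ)) := fun v =>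
    (Sol s k (Ioc a b)).filter fun t => ¬ IsSquare (PP t) ∧ ∃ r, 1 ≤ r ∧ r ^ 2 * v = PP t with hT
  have h1 : ∀ v ∈ (Icc 1 X).filter Squarefree,
      (∑ r ∈ Icc 1 X, |AA s k (Ioc a b) (r ^ 2 * v)|) ^ 2 ≤ (((T v) ×ˢ (T v)).card : ℝ) := by
    intro v hv
    have hv1 : 1 ≤ v := (mem_Icc.1 (mem_filter.1 hv).1).1
    have h2 : ∑ r ∈ Icc 1 X, |AA s k (Ioc a b) (r ^ 2 * v)| ≤ ((T v).card : ℝ) := by
      have h3 : ∀ r ∈ Icc 1 X, |AA s k (Ioc a b) (r ^ 2 * v)| ≤
          (((T v).filter fun t => PP t = r ^ 2 * v).card : ℝ) := by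
        intro r hr
        unfold AA
        split_ifs with hsq
        · rw [abs_zero]
          positivity
        · rw [abs_of_nonneg (by positivity), Nat.cast_le]
          apply Finset.card_le_card
          intro t ht
          rw [mem_filter] at ht
          rw [mem_filter, hT, mem_filter]
          have ht2 : PP t = r ^ 2 * v := ht.2
          exact ⟨⟨ht.1, ht2 ▸ hsq, r, (mem_Icc.1 hr).1, ht2.symm⟩, ht2⟩
      refine (Finset.sum_le_sum h3).trans ?_
      rw [← Nat.cast_sum, Nat.cast_le, ← Finset.card_biUnion]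
      · apply Finset.card_le_card
        intro t ht
        rw [mem_biUnion] at ht
        obtain ⟨r, -, ht⟩ := ht
        exact (mem_filter.1 ht).1
      · intro r hr r' hr' hne
        rw [Function.onFun, Finset.disjoint_left]
        intro t ht ht'
        have e1 := (mem_filter.1 ht).2
        have e2 := (mem_filter.1 ht').2
        rw [e1] at e2
        apply hne
        have e3 : r ^ 2 = r' ^ 2 := Nat.eq_of_mul_eq_mul_right hv1 e2
        exact Nat.pow_left_injective two_ne_zero e3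
    rw [Finset.card_product, Nat.cast_mul, ← sq]
    exact pow_le_pow_left₀ (Finset.sum_nonneg fun _ _ => abs_nonneg _) h2 2
  unfold nn
  refine (Finset.sum_le_sum h1).trans ?_
  rw [← Nat.cast_sum, Nat.cast_le, ← Finset.card_biUnion]
  · apply Finset.card_le_card
    intro q hq
    rw [mem_biUnion] at hq
    obtain ⟨v, hv, hq⟩ := hq
    rw [mem_product, hT] at hq
    simp only [mem_filter] at hq
    obtain ⟨⟨h2, h3, r, hr, h4⟩, h5, h6, r', hr', h7⟩ := hq
    unfold Prs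
    rw [mem_filter, mem_product]
    refine ⟨⟨h2, h5⟩, h3, h6, ?_⟩
    rw [← h4, ← h7]
    exact ⟨r * r' * v, by ring⟩
  · intro v hv v' hv' hne
    have hv1 := (mem_filter.1 hv)
    have hv1' := (mem_filter.1 hv')
    rw [Function.onFun, Finset.disjoint_left]
    intro q hq hq'
    rw [mem_product, hT] at hq hq'
    simp only [mem_filter] at hq hq'
    obtain ⟨⟨_, _, r, hr, h4⟩, _⟩ := hq
    obtain ⟨⟨_, _, r', hr', h4'⟩, _⟩ := hq'
    apply hne
    refine sqpart_unique hr hr' hv1.2 hv1'.2 ?_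
    rw [h4, h4']
    exact ⟨_, rfl⟩

theorem prs_le [DecidableEq (Fin s ⊕ Fin s)] (hk : 1 ≤ k) (hb : b ≤ N) : (Prs s k a b).card ≤
    (((Fintype.piFinset fun _ : Fin s ⊕ Fin s => Icc 1 N) ×ˢ
      (Fintype.piFinset fun _ : Fin s ⊕ Fin s => Icc 1 N)).filter fun t =>
        ∑ i, sgn s i * (t.1 i : ℤ) = 0 ∧ ∑ i, sgn s i * (t.2 i : ℤ) = 0 ∧
          IsSquare ((∏ i, t.1 i) * ∏ i, t.2 i) ∧ ¬ (Bal (sgn s) t.1 ∧ Bal (sgn s) t.2)).card := by
  apply Finset.card_le_card_of_injOn (fun q => ((Sum.elim q.1.1 q.1.2 : Fin s ⊕ Fin s → ℕ),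
    (Sum.elim q.2.1 q.2.2 : Fin s ⊕ Fin s → ℕ)))
  · intro q hq
    obtain ⟨h1, h2, h3, h4⟩ := Finset.mem_filter.1 (Finset.mem_coe.1 hq)
    rw [mem_product] at h1
    refine Finset.mem_coe.2 (Finset.mem_filter.2 ⟨?_, ?_, ?_, ?_, ?_⟩)
    · exact mem_product.2 ⟨Fintype.mem_piFinset.2 (elim_mem hb h1.1),
        Fintype.mem_piFinset.2 (elim_mem hb h1.2)⟩
    · change ∑ i, sgn s i * (((Sum.elim q.1.1 q.1.2 : Fin s ⊕ Fin s → ℕ) i : ℕ) : ℤ) = 0
      rw [sum_elim_sgn, sol_one hk h1.1, sub_self]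
    · change ∑ i, sgn s i * (((Sum.elim q.2.1 q.2.2 : Fin s ⊕ Fin s → ℕ) i : ℕ) : ℤ) = 0
      rw [sum_elim_sgn, sol_one hk h1.2, sub_self]
    · change IsSquare ((∏ i, (Sum.elim q.1.1 q.1.2 : Fin s ⊕ Fin s → ℕ) i) *
        ∏ i, (Sum.elim q.2.1 q.2.2 : Fin s ⊕ Fin s → ℕ) i)
      rw [prod_elim, prod_elim]
      exact h4
    · rintro ⟨h5, -⟩
      exact h2 (sq_of_bal h5)
  · intro q _ q' _ h
    have e1 := congrArg Prod.fst h
    have e2 := congrArg Prod.snd h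
    exact Prod.ext (elim_inj e1) (elim_inj e2)

/-! ### the diagonal term -/

/-- the solutions whose product is a square and which are not balanced -/
noncomputable def NB (s k a b : ℕ) : Finset ((Fin s → ℕ) × (Fin s → ℕ)) :=
  (Sol s k (Ioc a b)).filter fun t => IsSquare (PP t) ∧ ¬ Bal (sgn s) (Sum.elim t.1 t.2)

theorem nb_le [DecidableEq (Fin s ⊕ Fin s)] [DecidableEq (Fin 0)] (hk : 1 ≤ k) (hb : b ≤ N) : (NB s k a b).card ≤
    (((Fintype.piFinset fun _ : Fin s ⊕ Fin s => Icc 1 N) ×ˢ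
      (Fintype.piFinset fun _ : Fin 0 => Icc 1 N)).filter fun t =>
        ∑ i, sgn s i * (t.1 i : ℤ) = 0 ∧ ∑ i, (fun _ => 1 : Fin 0 → ℤ) i * (t.2 i : ℤ) = 0 ∧
          IsSquare ((∏ i, t.1 i) * ∏ i, t.2 i) ∧
            ¬ (Bal (sgn s) t.1 ∧ Bal (fun _ => 1 : Fin 0 → ℤ) t.2)).card := by
  apply Finset.card_le_card_of_injOn (fun q => ((Sum.elim q.1 q.2 : Fin s ⊕ Fin s → ℕ),
    (fun _ => 1 : Fin 0 → ℕ)))
  · intro q hq
    obtain ⟨h1, h2, h3⟩ := Finset.mem_filter.1 (Finset.mem_coe.1 hq)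
    refine Finset.mem_coe.2 (Finset.mem_filter.2 ⟨?_, ?_, ?_, ?_, ?_⟩)
    · refine mem_product.2 ⟨Fintype.mem_piFinset.2 (elim_mem hb h1), ?_⟩
      rw [Fintype.mem_piFinset]
      intro i
      exact i.elim0
    · change ∑ i, sgn s i * (((Sum.elim q.1 q.2 : Fin s ⊕ Fin s → ℕ) i : ℕ) : ℤ) = 0
      rw [sum_elim_sgn, sol_one hk h1, sub_self]
    · exact Finset.sum_eq_zero fun i _ => i.elim0
    · change IsSquare ((∏ i, (Sum.elim q.1 q.2 : Fin s ⊕ Fin s → ℕ) i) * ∏ i : Fin 0, 1)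
      rw [prod_elim, Finset.prod_const_one, mul_one]
      exact h2
    · rintro ⟨h5, -⟩
      exact h3 h5
  · intro q _ q' _ h
    exact elim_inj (congrArg Prod.fst h)

/-- the balanced solutions -/
noncomputable def BB (s a b : ℕ) : Finset ((Fin s → ℕ) × (Fin s → ℕ)) :=
  ((Fintype.piFinset fun _ : Fin s => Ioc a b) ×ˢ (univ : Finset (Equiv.Perm (Fin s)))).image
    fun q => (q.1, q.1 ∘ q.2)

theorem bal_eq : (Sol s k (Ioc a b)).filter (fun t => Bal (sgn s) (Sum.elim t.1 t.2)) = BB s a b := by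
  ext t
  unfold BB
  rw [mem_filter, mem_image, mem_Sol, bal_iff]
  constructor
  · rintro ⟨⟨h1, -, -⟩, σ, hσ⟩
    refine ⟨(t.1, σ), mem_product.2 ⟨Fintype.mem_piFinset.2 h1, mem_univ _⟩, ?_⟩
    exact Prod.ext rfl hσ.symm
  · rintro ⟨⟨x, σ⟩, hq, rfl⟩
    rw [mem_product, Fintype.mem_piFinset] at hq
    refine ⟨⟨hq.1, fun i => hq.1 (σ i), fun j _ => ?_⟩, σ, rfl⟩
    exact (Equiv.sum_comp σ (fun i => x i ^ j)).symm

theorem bb_le : (BB s a b).card ≤ s.factorial * (b - a) ^ s := by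
  unfold BB
  refine Finset.card_image_le.trans ?_
  rw [Finset.card_product, Fintype.card_piFinset, Finset.prod_const, Finset.card_univ, Fintype.card_fin,
    Nat.card_Ioc, Finset.card_univ, Fintype.card_perm, Fintype.card_fin, mul_comm]

theorem le_bb : s.factorial * (b - a).descFactorial s ≤ (BB s a b).card := by
  set E : Finset (Fin s → ℕ) := (Fintype.piFinset fun _ : Fin s => Ioc a b).filter
    Function.Injective with hE
  have hcE : E.card = (b - a).descFactorial s := by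
    have h1 : Fintype.card (Fin s ↪ (Ioc a b : Finset ℕ)) = (b - a).descFactorial s := by
      rw [Fintype.card_embedding_eq, Fintype.card_coe, Nat.card_Ioc, Fintype.card_fin]
    rw [← h1, ← Finset.card_univ]
    symm
    refine Finset.card_bij (fun f _ => fun i => ((f i : (Ioc a b : Finset ℕ)) : ℕ)) ?_ ?_ ?_
    · intro f _
      rw [hE, mem_filter, Fintype.mem_piFinset]
      exact ⟨fun i => (f i).2, fun i j hij => f.injective (Subtype.ext hij)⟩
    · intro f _ g _ h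
      ext i
      exact congrFun h i
    · intro x hx
      rw [hE, mem_filter, Fintype.mem_piFinset] at hx
      refine ⟨⟨fun i => ⟨x i, hx.1 i⟩, fun i j hij => hx.2 (congrArg Subtype.val hij)⟩, mem_univ _, rfl⟩
  have h2 : (E ×ˢ (univ : Finset (Equiv.Perm (Fin s)))).card ≤ (BB s a b).card := by
    apply Finset.card_le_card_of_injOn (fun q => (q.1, q.1 ∘ q.2))
    · intro q hq
      rw [Finset.mem_coe, mem_product, hE, mem_filter] at hq
      unfold BB
      rw [Finset.mem_coe, mem_image]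
      exact ⟨q, mem_product.2 ⟨hq.1.1, mem_univ _⟩, rfl⟩
    · intro q hq q' hq' h
      rw [Finset.mem_coe, mem_product, hE, mem_filter] at hq
      have e1 : q.1 = q'.1 := (Prod.ext_iff.1 h).1
      have e2 : q.1 ∘ q.2 = q'.1 ∘ q'.2 := (Prod.ext_iff.1 h).2
      refine Prod.ext e1 ?_
      ext i
      have e3 := congrFun e2 i
      rw [← e1] at e3
      exact congrArg _ (hq.1.2 e3)
  rw [Finset.card_product, hcE, Finset.card_univ, Fintype.card_perm, Fintype.card_fin, mul_comm] at h2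
  exact h2

theorem desc_ge (m : ℕ) : ∀ s : ℕ, (m : ℝ) ^ (s + 1) - ((s : ℝ) + 1) ^ 2 * (m : ℝ) ^ s ≤
    (m.descFactorial (s + 1) : ℝ) ∧ (m.descFactorial (s + 1) : ℝ) ≤ (m : ℝ) ^ (s + 1) := by
  intro s
  induction s with
  | zero =>
    rw [zero_add, Nat.descFactorial_one]
    simp
  | succ s ih =>
    obtain ⟨h1, h2⟩ := ih
    rw [Nat.descFactorial_succ, Nat.cast_mul]
    have h3 : (m : ℝ) - (s + 1) ≤ ((m - (s + 1) : ℕ) : ℝ) := by
      rw [sub_le_iff_le_add]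
      exact_mod_cast (by omega : m ≤ (m - (s + 1)) + (s + 1))
    have h4 : ((m - (s + 1) : ℕ) : ℝ) ≤ m := by exact_mod_cast Nat.sub_le _ _
    have h5 : (0 : ℝ) ≤ (m.descFactorial (s + 1) : ℝ) := by positivity
    have h6 : (0 : ℝ) ≤ (m : ℝ) := by positivity
    constructor
    · have h7 := mul_le_mul_of_nonneg_right h3 h5
      refine le_trans ?_ h7
      have h8 := mul_le_mul_of_nonneg_left h1 h6
      have h9 := mul_le_mul_of_nonneg_left h2 (by positivity : (0 : ℝ) ≤ (s : ℝ) + 1)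
      have e1 : (m : ℝ) ^ (s + 1 + 1) = m * m ^ (s + 1) := by ring
      have e2 : (m : ℝ) ^ (s + 1) = m * m ^ s := by ring
      have h10 : (0 : ℝ) ≤ (m : ℝ) ^ (s + 1) := by positivity
      have e3 : (m : ℝ) * ((m : ℝ) ^ (s + 1) - ((s : ℝ) + 1) ^ 2 * (m : ℝ) ^ s) =
          (m : ℝ) ^ (s + 1 + 1) - ((s : ℝ) + 1) ^ 2 * (m : ℝ) ^ (s + 1) := by
        rw [e1, e2]
        ring
      rw [e3] at h8
      have h11 : (0 : ℝ) ≤ ((s : ℝ) + 2) * (m : ℝ) ^ (s + 1) := by positivity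
      have e4 : (((s + 1 : ℕ) : ℝ) + 1) ^ 2 * (m : ℝ) ^ (s + 1) =
          ((s : ℝ) + 1) ^ 2 * (m : ℝ) ^ (s + 1) + ((s : ℝ) + 1) * (m : ℝ) ^ (s + 1) +
            ((s : ℝ) + 2) * (m : ℝ) ^ (s + 1) := by
        push_cast
        ring
      rw [e4, sub_mul]
      linarith
    · have h7 := mul_le_mul h4 h2 h5 h6
      refine h7.trans (le_of_eq ?_)
      ring

end

theorem chi_one {χ : ℕ → ℝ} (h : Sgn χ) : χ 1 = 1 := by
  have h1 := h.1 1 1 le_rfl le_rfl
  rw [mul_one] at h1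
  rcases h.2 1 le_rfl with h2 | h2
  · exact h2
  · rw [h2] at h1
    norm_num at h1

theorem chi_prod {χ : ℕ → ℝ} (h : Sgn χ) {s : ℕ} (x : Fin s → ℕ) (hx : ∀ i, 1 ≤ x i) :
    ∏ i, χ (x i) = χ (∏ i, x i) := by
  have key : ∀ S : Finset (Fin s), ∏ i ∈ S, χ (x i) = χ (∏ i ∈ S, x i) := by
    intro S
    induction S using Finset.induction_on with
    | empty => rw [Finset.prod_empty, Finset.prod_empty, chi_one h]
    | insert a S ha ih =>
      rw [Finset.prod_insert ha, Finset.prod_insert ha, ih, h.1 _ _ (hx a)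
        (Nat.succ_le_of_lt (Finset.prod_pos fun i _ => hx i))]
  exact key univ

theorem chi_sq {χ : ℕ → ℝ} (h : Sgn χ) {n : ℕ} (hn : 1 ≤ n) (hs : IsSquare n) : χ n = 1 := by
  obtain ⟨r, rfl⟩ := hs
  have hr : 1 ≤ r := by
    rcases Nat.eq_zero_or_pos r with h0 | h0
    · rw [h0] at hn
      omega
    · exact h0
  rw [h.1 r r hr hr]
  rcases h.2 r hr with h2 | h2 <;> rw [h2] <;> norm_num

section

variable {s k N a b : ℕ}

theorem JJ_eq (hb : b ≤ N) {χ : ℕ → ℝ} (h : Sgn χ) {X : ℕ} (hX : N ^ (2 * s) ≤ X) :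
    JJ χ s k (Ioc a b) = (((Sol s k (Ioc a b)).filter fun t => IsSquare (PP t)).card : ℝ) +
      ∑ n ∈ Icc 1 X, AA s k (Ioc a b) n * χ n := by
  have h1 : JJ χ s k (Ioc a b) = ∑ t ∈ Sol s k (Ioc a b), χ (PP t) := by
    unfold JJ
    refine Finset.sum_congr rfl fun t ht => ?_
    obtain ⟨h1, h2, -⟩ := mem_Sol.1 ht
    have p1 : ∀ i, 1 ≤ t.1 i := fun i => by have := (mem_Ioc.1 (h1 i)).1; omega
    have p2 : ∀ i, 1 ≤ t.2 i := fun i => by have := (mem_Ioc.1 (h2 i)).1; omega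
    rw [chi_prod h _ p1, chi_prod h _ p2]
    unfold PP
    rw [h.1 _ _ (Nat.succ_le_of_lt (Finset.prod_pos fun i _ => p1 i))
      (Nat.succ_le_of_lt (Finset.prod_pos fun i _ => p2 i))]
  rw [h1, ← Finset.sum_filter_add_sum_filter_not (Sol s k (Ioc a b)) (fun t => IsSquare (PP t))]
  congr 1
  · rw [Finset.sum_congr rfl fun t ht => chi_sq h (PP_pos (mem_filter.1 ht).1) (mem_filter.1 ht).2,
      Finset.sum_const, nsmul_eq_mul, mul_one]
  · have h2 : ∀ t ∈ (Sol s k (Ioc a b)).filter (fun t => ¬ IsSquare (PP t)), PP t ∈ Icc 1 X := by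
      intro t ht
      have ht' := (mem_filter.1 ht).1
      exact mem_Icc.2 ⟨PP_pos ht', (PP_le hb ht').trans hX⟩
    rw [← Finset.sum_fiberwise_of_maps_to h2]
    refine Finset.sum_congr rfl fun n _ => ?_
    rw [Finset.sum_congr rfl (g := fun _ => χ n) fun t ht => by rw [(mem_filter.1 ht).2],
      Finset.sum_const, nsmul_eq_mul]
    congr 1
    unfold AA
    by_cases hn : IsSquare n
    · rw [if_pos hn, Nat.cast_eq_zero, Finset.card_eq_zero, Finset.filter_eq_empty_iff]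
      intro t ht h3
      exact (mem_filter.1 ht).2 (h3 ▸ hn)
    · rw [if_neg hn, Nat.cast_inj]
      congr 1
      ext t
      rw [mem_filter, mem_filter, mem_filter]
      constructor
      · rintro ⟨⟨h3, -⟩, h5⟩
        exact ⟨h3, h5⟩
      · rintro ⟨h3, h4⟩
        have h5 : PP t = n := h4
        exact ⟨⟨h3, h5 ▸ hn⟩, h5⟩

end

/-- JOB VMA -/
theorem vma (hC : S_CLG) : S_VMA := by
  intro s k hs hk
  have hsg : ∀ i, sgn s i = 1 ∨ sgn s i = -1 := by
    rintro (i | i)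
    · exact Or.inl rfl
    · exact Or.inr rfl
  obtain ⟨c1, C1, hc1, hC1, H1⟩ := hC (Fin s ⊕ Fin s) (Fin s ⊕ Fin s) (sgn s) (sgn s) hsg hsg
  obtain ⟨c2, C2, hc2, hC2, H2⟩ := hC (Fin s ⊕ Fin s) (Fin 0) (sgn s) (fun _ => 1) hsg
    (fun i => i.elim0)
  rw [Fintype.card_sum, Fintype.card_fin] at H1
  rw [Fintype.card_sum, Fintype.card_fin, Fintype.card_fin] at H2
  obtain ⟨c, hc⟩ : ∃ c, c = min (min c1 c2) 1 := ⟨_, rfl⟩
  have hc0 : 0 < c := by rw [hc]; exact lt_min (lt_min hc1 hc2) one_pos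
  have hcc1 : c ≤ c1 := by rw [hc]; exact (min_le_left _ _).trans (min_le_left _ _)
  have hcc2 : c ≤ c2 := by rw [hc]; exact (min_le_left _ _).trans (min_le_right _ _)
  have hcc3 : c ≤ 1 := by rw [hc]; exact min_le_right _ _
  refine ⟨c, C1 + C2 + s.factorial * (s : ℝ) ^ 2, hc0, by positivity, fun N a b hN hab hb => ⟨?_, ?_, ?_⟩⟩
  · intro X
    have hN1 : (1 : ℝ) ≤ N := by exact_mod_cast hN
    refine (nn_le X).trans ?_
    refine (Nat.cast_le.2 (@prs_le s k N a b (fun a b => Classical.propDecidable (a = b)) hk hb)).trans ?_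
    refine (H1 N hN).trans ?_
    have e1 : (((s + s : ℕ) : ℝ) + ((s + s : ℕ) : ℝ)) / 2 - c1 ≤ 2 * (s : ℝ) - c := by
      push_cast
      linarith
    have e2 := Real.rpow_le_rpow_of_exponent_le hN1 e1
    have e3 : (0 : ℝ) ≤ (N : ℝ) ^ (2 * (s : ℝ) - c) := by positivity
    refine (mul_le_mul_of_nonneg_left e2 hC1.le).trans ?_
    refine mul_le_mul_of_nonneg_right ?_ e3
    have : (0 : ℝ) ≤ s.factorial * (s : ℝ) ^ 2 := by positivity
    linarith
  · intro n hn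
    unfold AA
    split_ifs with h
    · rfl
    · rw [Nat.cast_eq_zero, Finset.card_eq_zero, Finset.filter_eq_empty_iff]
      intro t ht h3
      have h4 := PP_le (s := s) hb ht
      have h5 : PP t = n := h3
      omega
  · intro χ X hχ hX
    have hN1 : (1 : ℝ) ≤ N := by exact_mod_cast hN
    have hN0 : (0 : ℝ) < N := by linarith
    rw [JJ_eq hb hχ hX]
    have h1 : ((Sol s k (Ioc a b)).filter fun t => IsSquare (PP t)).card =
        (BB s a b).card + (NB s k a b).card := by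
      rw [← bal_eq (k := k), NB, ← Finset.card_union_of_disjoint]
      · congr 1
        ext t
        rw [mem_filter, mem_union, mem_filter, mem_filter]
        constructor
        · rintro ⟨h1, h2⟩
          by_cases h3 : Bal (sgn s) (Sum.elim t.1 t.2)
          · exact Or.inl ⟨h1, h3⟩
          · exact Or.inr ⟨h1, h2, h3⟩
        · rintro (⟨h1, h3⟩ | ⟨h1, h2, h3⟩)
          · exact ⟨h1, sq_of_bal h3⟩
          · exact ⟨h1, h2⟩
      · rw [Finset.disjoint_left]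
        intro t ht ht'
        exact (mem_filter.1 ht').2.2 (mem_filter.1 ht).2
    rw [h1]
    push_cast
    have h2 : ((NB s k a b).card : ℝ) ≤ C2 * (N : ℝ) ^ ((s : ℝ) - c) := by
      refine (Nat.cast_le.2 (@nb_le s k N a b (fun a b => Classical.propDecidable (a = b))
        (fun a b => Classical.propDecidable (a = b)) hk hb)).trans ?_
      refine (H2 N hN).trans ?_
      have e1 : (((s + s : ℕ) : ℝ) + ((0 : ℕ) : ℝ)) / 2 - c2 ≤ (s : ℝ) - c := by
        push_cast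
        linarith
      exact mul_le_mul_of_nonneg_left (Real.rpow_le_rpow_of_exponent_le hN1 e1) hC2.le
    obtain ⟨m, hm⟩ : ∃ m : ℕ, m = b - a := ⟨_, rfl⟩
    have hmr : (b : ℝ) - a = m := by
      rw [hm, Nat.cast_sub hab]
    have hmN : (m : ℝ) ≤ N := by exact_mod_cast (by omega : m ≤ N)
    have h3 : ((BB s a b).card : ℝ) ≤ s.factorial * (m : ℝ) ^ s := by
      rw [hm]
      exact_mod_cast bb_le
    have h4 : (s.factorial : ℝ) * (m.descFactorial s : ℝ) ≤ ((BB s a b).card : ℝ) := by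
      rw [hm]
      exact_mod_cast le_bb
    obtain ⟨s', rfl⟩ : ∃ s' : ℕ, s = s' + 1 := ⟨s - 1, by omega⟩
    have h5 := (desc_ge m s').1
    have h6 : (m : ℝ) ^ s' ≤ (N : ℝ) ^ (((s' + 1 : ℕ) : ℝ) - c) := by
      calc (m : ℝ) ^ s' ≤ (N : ℝ) ^ s' := pow_le_pow_left₀ (by positivity) hmN _
        _ = (N : ℝ) ^ (s' : ℝ) := (Real.rpow_natCast _ _).symm
        _ ≤ _ := Real.rpow_le_rpow_of_exponent_le hN1 (by push_cast; linarith)
    rw [hmr]
    have hf : (0 : ℝ) ≤ ((s' + 1).factorial : ℝ) := by positivity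
    have h7 : ((s' + 1).factorial : ℝ) * (m : ℝ) ^ (s' + 1) -
        ((s' + 1).factorial : ℝ) * ((s' + 1 : ℕ) : ℝ) ^ 2 * (N : ℝ) ^ (((s' + 1 : ℕ) : ℝ) - c) ≤
          ((BB (s' + 1) a b).card : ℝ) := by
      refine le_trans ?_ h4
      have h8 := mul_le_mul_of_nonneg_left h5 hf
      refine le_trans ?_ h8
      have h9 := mul_le_mul_of_nonneg_left h6
        (by positivity : (0 : ℝ) ≤ ((s' + 1).factorial : ℝ) * ((s' + 1 : ℕ) : ℝ) ^ 2)
      have e6 : ((s' + 1).factorial : ℝ) * ((m : ℝ) ^ (s' + 1) - ((s' : ℝ) + 1) ^ 2 * (m : ℝ) ^ s') =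
          ((s' + 1).factorial : ℝ) * (m : ℝ) ^ (s' + 1) -
            ((s' + 1).factorial : ℝ) * ((s' + 1 : ℕ) : ℝ) ^ 2 * (m : ℝ) ^ s' := by
        push_cast
        ring
      rw [e6]
      linarith
    have h10 : (0 : ℝ) ≤ ((NB (s' + 1) k a b).card : ℝ) := by positivity
    have h11 : (0 : ℝ) ≤ C1 * (N : ℝ) ^ (((s' + 1 : ℕ) : ℝ) - c) := by positivity
    have h12 : (0 : ℝ) ≤ ((s' + 1).factorial : ℝ) * ((s' + 1 : ℕ) : ℝ) ^ 2 *
        (N : ℝ) ^ (((s' + 1 : ℕ) : ℝ) - c) := by positivity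
    have h13 : (0 : ℝ) ≤ C2 * (N : ℝ) ^ (((s' + 1 : ℕ) : ℝ) - c) := by positivity
    have e : ((BB (s' + 1) a b).card : ℝ) + ((NB (s' + 1) k a b).card : ℝ) +
        ∑ n ∈ Icc 1 X, AA (s' + 1) k (Ioc a b) n * χ n - ((s' + 1).factorial : ℝ) * (m : ℝ) ^ (s' + 1) =
        (((BB (s' + 1) a b).card : ℝ) + ((NB (s' + 1) k a b).card : ℝ) -
          ((s' + 1).factorial : ℝ) * (m : ℝ) ^ (s' + 1)) +
          ∑ n ∈ Icc 1 X, AA (s' + 1) k (Ioc a b) n * χ n := by ring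
    rw [e]
    refine (abs_add_le _ _).trans (add_le_add ?_ le_rfl)
    have e5 : (C1 + C2 + ((s' + 1).factorial : ℝ) * ((s' + 1 : ℕ) : ℝ) ^ 2) *
        (N : ℝ) ^ (((s' + 1 : ℕ) : ℝ) - c) = C1 * (N : ℝ) ^ (((s' + 1 : ℕ) : ℝ) - c) +
          C2 * (N : ℝ) ^ (((s' + 1 : ℕ) : ℝ) - c) + ((s' + 1).factorial : ℝ) * ((s' + 1 : ℕ) : ℝ) ^ 2 *
            (N : ℝ) ^ (((s' + 1 : ℕ) : ℝ) - c) := by ring
    rw [e5, abs_le]
    constructor
    · linarith
    · linarith

end Pool.Agent.Q150.L2
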